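import Pool.Agent.Results.MP_6cdc09_gt.AlmostComplex

/-!
# Brunn-Minkowski for unitary averages of projections onto real planes of `C^n`: statements

`V`, `BM`, `haarU`, `actU`, `IsBody` are the definitions of the landed file `AlmostComplex`.
THEOREM: a real plane `E` of `C^n` (`n ≥ 2`) with orthonormal basis `a, b` has the Brunn-Minkowski
property iff `2 n (Im ⟪a, b⟫)² ≤ n + 1`.
-/

set_option autoImplicit false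

open MeasureTheory Filter Topology Module
open scoped Pointwise ENNReal
open Pool.Agent.Results.MP_6cdc09_gt.AlmostComplex

namespace H829KB

/-! ## The plane -/

/-- the plane -/
abbrev Pl := EuclideanSpace ℝ (Fin 2)

/-- support function -/
noncomputable def hs {W : Type} [NormedAddCommGroup W] [InnerProductSpace ℝ W] (K : Set W) (u : W) :
    ℝ := sSup ((fun x => inner ℝ u x) '' K)

/-- bodies with `0` in the interior -/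
def B0 {W : Type} [NormedAddCommGroup W] [InnerProductSpace ℝ W] (K : Set W) : Prop :=
  IsCompact K ∧ Convex ℝ K ∧ (0 : W) ∈ interior K

/-- the unit vector of angle `θ` -/
noncomputable def uv (θ : ℝ) : Pl := WithLp.toLp 2 ![Real.cos θ, Real.sin θ]

/-- the step -/
noncomputable def st (N : ℕ) : ℝ := 2 * Real.pi / N

/-- the circumscribed polygon with `N` equally spaced normals -/
def PN (N : ℕ) (f : ℝ → ℝ) : Set Pl :=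
  {x | ∀ j : ℕ, j < N → inner ℝ (uv (j * st N)) x ≤ f (j * st N)}

/-- its area -/
noncomputable def AN (N : ℕ) (f : ℝ → ℝ) : ℝ :=
  1 / (2 * Real.sin (st N)) * ∑ j ∈ Finset.range N,
    f (j * st N) * (f (((j : ℝ) - 1) * st N) + f (((j : ℝ) + 1) * st N)
      - 2 * Real.cos (st N) * f (j * st N))

/-- the vertex: the intersection of the lines with normals `uv θ` and `uv (θ + δ)` -/
noncomputable def vx (f : ℝ → ℝ) (δ θ : ℝ) : Pl :=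
  f θ • uv θ + ((f (θ + δ) - f θ * Real.cos δ) / Real.sin δ) • uv (θ + Real.pi / 2)

/-- the angular function of a planar body -/
noncomputable def hp (K : Set Pl) (θ : ℝ) : ℝ := hs K (uv θ)

/-- (HS) basic facts on support functions -/
def S_HS : Prop := ∀ {W : Type} [NormedAddCommGroup W] [InnerProductSpace ℝ W]
    (K : Set W), B0 K →
  Continuous (hs K) ∧ (∀ u, u ≠ 0 → 0 < hs K u) ∧ hs K 0 = 0 ∧
  (∀ (t : ℝ) (u : W), 0 ≤ t → hs K (t • u) = t * hs K u) ∧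
  (∀ u v : W, hs K (u + v) ≤ hs K u + hs K v) ∧
  (∀ x ∈ K, ∀ u, inner ℝ u x ≤ hs K u) ∧ (∀ u, ∃ x ∈ K, inner ℝ u x = hs K u)

/-- (HSA) Minkowski sums -/
def S_HSA : Prop := ∀ {W : Type} [NormedAddCommGroup W] [InnerProductSpace ℝ W]
    (K L : Set W), B0 K → B0 L → B0 (K + L) ∧ ∀ u, hs (K + L) u = hs K u + hs L u

/-- (VER) the vertices satisfy the constraints -/
def S_VER : Prop := ∀ (K : Set Pl) (M : ℕ), B0 K → 2 ≤ M → ∀ (j : ℕ) (k : ℕ),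
  inner ℝ (uv (k * st (2 * M))) (vx (hp K) (st (2 * M)) (j * st (2 * M))) ≤ hp K (k * st (2 * M))

/-- (TRI) area of a triangle with vertex `0` -/
def S_TRI : Prop := ∀ p q : Pl,
  volume {x : Pl | ∃ α β : ℝ, 0 ≤ α ∧ 0 ≤ β ∧ α + β ≤ 1 ∧ x = α • p + β • q}
    = ENNReal.ofReal (|p 0 * q 1 - p 1 * q 0| / 2)

/-- (POL) area of the circumscribed polygon -/
def S_POL : Prop := ∀ (K : Set Pl) (M : ℕ), B0 K → 2 ≤ M →
  0 ≤ AN (2 * M) (hp K) ∧ volume (PN (2 * M) (hp K)) = ENNReal.ofReal (AN (2 * M) (hp K))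

/-- (PLI) limit -/
def S_PLI : Prop := ∀ (K : Set Pl), B0 K →
  Tendsto (fun k : ℕ => AN (2 ^ k) (hp K)) atTop (𝓝 (volume K).toReal) ∧
  ∀ R : ℝ, (∀ x ∈ K, ‖x‖ ≤ R) → ∀ k : ℕ, 2 ≤ k → |AN (2 ^ k) (hp K)| ≤ 4 * R ^ 2

/-! ## Averages over the unitary group -/

/-- the map of the shadow -/
noncomputable def Tm {n : ℕ} (a b x : Cn n) : Pl := WithLp.toLp 2 ![inner ℝ a x, inner ℝ b x]

/-- (SHA) `V` as an average of planar areas -/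
def S_SHA : Prop := ∀ (n : ℕ) (E : Submodule ℝ (Cn n)) (a b : Cn n), finrank ℝ E = 2 → a ∈ E →
  b ∈ E → ‖a‖ = 1 → ‖b‖ = 1 → inner ℝ a b = 0 → ∀ K : Set (Cn n), B0 K →
  V E K = ∫ φ : Un n, (volume (Tm (actU φ a) (actU φ b) '' K)).toReal ∂(haarU n)

/-- (SHB) the planar shadows -/
def S_SHB : Prop := ∀ (n : ℕ) (a b : Cn n), ‖a‖ = 1 → ‖b‖ = 1 → inner ℝ a b = 0 →
  ∀ K : Set (Cn n), B0 K → B0 (Tm a b '' K) ∧
    (∀ θ, hp (Tm a b '' K) θ = hs K (Real.cos θ • a + Real.sin θ • b)) ∧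
    ∀ R : ℝ, (∀ x ∈ K, ‖x‖ ≤ R) → ∀ y ∈ Tm a b '' K, ‖y‖ ≤ R

/-- (HAA) the Haar measure: total mass one, right and left invariant -/
def S_HAA : Prop := ∀ n : ℕ, IsProbabilityMeasure (haarU n) ∧
  (∀ (ψ : Un n) (F : Un n → ℂ), ∫ φ, F (φ * ψ) ∂(haarU n) = ∫ φ, F φ ∂(haarU n)) ∧
  (∀ (ψ : Un n) (F : Un n → ℂ), ∫ φ, F (ψ * φ) ∂(haarU n) = ∫ φ, F φ ∂(haarU n)) ∧
  (∀ x : Cn n, Continuous fun φ : Un n => actU φ x)

/-- the first two basis vectors of `C^(m+2)` -/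
noncomputable def e1 (m : ℕ) : Cn (m + 2) := EuclideanSpace.single 0 1
noncomputable def e2 (m : ℕ) : Cn (m + 2) := EuclideanSpace.single 1 1

/-- the standard plane with parameter `c`: basis `e1`, `bb c` -/
noncomputable def bb (m : ℕ) (c : ℝ) : Cn (m + 2) :=
  (Complex.I * c) • e1 m + ((Real.sqrt (1 - c ^ 2) : ℝ) : ℂ) • e2 m

/-- the unit circle of the standard plane -/
noncomputable def ee (m : ℕ) (c t : ℝ) : Cn (m + 2) := Real.cos t • e1 m + Real.sin t • bb m c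

/-- (ROT) the rotations of the standard plane are restrictions of unitary maps -/
def S_ROT : Prop := ∀ (m : ℕ) (c : ℝ), c ^ 2 ≤ 1 → ∃ U : ℝ → Un (m + 2),
  ∀ t s : ℝ, actU (U t) (ee m c s) = ee m c (s + t)

/-- (STD) every orthonormal pair comes from a standard one -/
def S_STD : Prop := ∀ (m : ℕ) (a b : Cn (m + 2)), ‖a‖ = 1 → ‖b‖ = 1 → inner ℝ a b = 0 →
  (inner ℂ a b : ℂ).im ^ 2 ≤ 1 ∧
  ∃ ψ : Un (m + 2), actU ψ (e1 m) = a ∧ actU ψ (bb m (inner ℂ a b : ℂ).im) = b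

/-- averages -/
noncomputable def M1 {m : ℕ} (f : Cn (m + 2) → ℝ) : ℝ :=
  ∫ φ : Un (m + 2), f (actU φ (e1 m)) ∂(haarU _)
noncomputable def M2 {m : ℕ} (f : Cn (m + 2) → ℝ) : ℝ :=
  ∫ φ : Un (m + 2), f (actU φ (e1 m)) ^ 2 ∂(haarU _)
noncomputable def GD {m : ℕ} (c t : ℝ) (f : Cn (m + 2) → ℝ) : ℝ :=
  ∫ φ : Un (m + 2), (f (actU φ (ee m c t)) - f (actU φ (e1 m))) ^ 2 ∂(haarU _)

/-- (VL) -/
def S_VL : Prop := ∀ (m : ℕ) (E : Submodule ℝ (Cn (m + 2))) (a b : Cn (m + 2)), finrank ℝ E = 2 →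
  a ∈ E → b ∈ E → ‖a‖ = 1 → ‖b‖ = 1 → inner ℝ a b = 0 → ∀ K : Set (Cn (m + 2)), B0 K →
  Tendsto (fun k : ℕ => ∫ φ : Un (m + 2),
    AN (2 ^ k) (fun θ => hs K (actU φ (ee m (inner ℂ a b : ℂ).im θ))) ∂(haarU _))
    atTop (𝓝 (V E K))

/-- (AG) the average of the polygon areas -/
def S_AG : Prop := ∀ (m : ℕ) (c : ℝ), c ^ 2 ≤ 1 → ∀ f : Cn (m + 2) → ℝ, Continuous f →
  ∀ N : ℕ, 3 ≤ N → ∫ φ : Un (m + 2), AN N (fun θ => f (actU φ (ee m c θ))) ∂(haarU _) =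
    N / Real.sin (st N) * ((1 - Real.cos (st N)) * M2 f - GD c (st N) f / 2)

/-- (QF) the quadratic formula -/
def S_QF : Prop := ∀ (m : ℕ) (E : Submodule ℝ (Cn (m + 2))) (a b : Cn (m + 2)), finrank ℝ E = 2 →
  a ∈ E → b ∈ E → ‖a‖ = 1 → ‖b‖ = 1 → inner ℝ a b = 0 → ∀ K : Set (Cn (m + 2)), B0 K →
  Tendsto (fun k : ℕ => Real.pi * (M2 (hs K) -
    GD (inner ℂ a b : ℂ).im (st (2 ^ k)) (hs K) / st (2 ^ k) ^ 2)) atTop (𝓝 (V E K))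

/-! ## Polynomials -/

/-- polynomials in `z` and `conj z` -/
abbrev Po (m : ℕ) := MvPolynomial (Fin (m + 2) ⊕ Fin (m + 2)) ℂ

/-- values -/
noncomputable def ev {m : ℕ} (P : Po m) (x : Cn (m + 2)) : ℂ :=
  MvPolynomial.eval (Sum.elim (fun i => x i) (fun i => starRingEnd ℂ (x i))) P

/-- derivatives -/
noncomputable def dl {m : ℕ} (i : Fin (m + 2)) : Po m →ₗ[ℂ] Po m :=
  (MvPolynomial.pderiv (Sum.inl i) : Derivation ℂ (Po m) (Po m)).toLinearMap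
noncomputable def dr {m : ℕ} (i : Fin (m + 2)) : Po m →ₗ[ℂ] Po m :=
  (MvPolynomial.pderiv (Sum.inr i) : Derivation ℂ (Po m) (Po m)).toLinearMap

/-- Euler operators and the Laplacian -/
noncomputable def EL {m : ℕ} : Po m →ₗ[ℂ] Po m :=
  ∑ i, (LinearMap.mulLeft ℂ (MvPolynomial.X (Sum.inl i) : Po m)) ∘ₗ dl i
noncomputable def ER {m : ℕ} : Po m →ₗ[ℂ] Po m :=
  ∑ i, (LinearMap.mulLeft ℂ (MvPolynomial.X (Sum.inr i) : Po m)) ∘ₗ dr i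
noncomputable def LL {m : ℕ} : Po m →ₗ[ℂ] Po m := ∑ i, dl i ∘ₗ dr i

/-- the operator (`n - 1 = m + 1`) -/
noncomputable def DO (m : ℕ) (c : ℝ) : Po m →ₗ[ℂ] Po m :=
  ((c ^ 2 : ℝ) : ℂ) • ((EL - ER) ∘ₗ (EL - ER)) + ((1 - c ^ 2 : ℝ) : ℂ) • (EL + ER)
    + ((2 * (1 - c ^ 2) / (m + 1) : ℝ) : ℂ) • (EL ∘ₗ ER - LL)

/-- first derivative in direction `β` -/
noncomputable def D1 {m : ℕ} (P : Po m) (x β : Cn (m + 2)) : ℂ :=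
  ∑ i, (ev (dl i P) x * β i + ev (dr i P) x * starRingEnd ℂ (β i))

/-- second derivative in direction `β` -/
noncomputable def D2 {m : ℕ} (P : Po m) (x β : Cn (m + 2)) : ℂ :=
  ∑ i, ∑ j, (ev (dl i (dl j P)) x * (β i * β j)
    + 2 * (ev (dl i (dr j P)) x * (β i * starRingEnd ℂ (β j)))
    + ev (dr i (dr j P)) x * (starRingEnd ℂ (β i) * starRingEnd ℂ (β j)))

/-- (TAY) Taylor -/
def S_TAY : Prop := ∀ (m : ℕ) (P : Po m), ∃ C : ℝ, ∀ x β : Cn (m + 2), ‖x‖ ≤ 1 → ‖β‖ ≤ 1 →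
  ∀ t : ℝ, |t| ≤ 1 → ‖ev P (Real.cos t • x + Real.sin t • β) - (ev P x + t * D1 P x β
    + t ^ 2 / 2 * (D2 P x β - D1 P x x))‖ ≤ C * |t| ^ 3

/-- (MOM) moments of the second column given the first one -/
def S_MOM : Prop := ∀ (m : ℕ) (F : Cn (m + 2) → ℂ), Continuous F → ∀ i j : Fin (m + 2),
  ∫ φ : Un (m + 2), F (actU φ (e1 m)) * (actU φ (e2 m)) i ∂(haarU _) = 0 ∧
  ∫ φ : Un (m + 2), F (actU φ (e1 m)) * starRingEnd ℂ ((actU φ (e2 m)) i) ∂(haarU _) = 0 ∧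
  ∫ φ : Un (m + 2), F (actU φ (e1 m)) * ((actU φ (e2 m)) i * (actU φ (e2 m)) j) ∂(haarU _) = 0 ∧
  ∫ φ : Un (m + 2), F (actU φ (e1 m)) * (starRingEnd ℂ ((actU φ (e2 m)) i) *
    starRingEnd ℂ ((actU φ (e2 m)) j)) ∂(haarU _) = 0 ∧
  ∫ φ : Un (m + 2), F (actU φ (e1 m)) * ((actU φ (e2 m)) i *
    starRingEnd ℂ ((actU φ (e2 m)) j)) ∂(haarU _) =
    (1 / (m + 1 : ℂ)) * ∫ φ : Un (m + 2), F (actU φ (e1 m)) * ((if i = j then 1 else 0) -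
      (actU φ (e1 m)) i * starRingEnd ℂ ((actU φ (e1 m)) j)) ∂(haarU _)

/-- (AVG) -/
def S_AVG : Prop := ∀ (m : ℕ) (c : ℝ), c ^ 2 ≤ 1 → ∀ (F : Cn (m + 2) → ℂ), Continuous F →
  ∀ P : Po m, ∫ φ : Un (m + 2), F (actU φ (e1 m)) * (D2 P (actU φ (e1 m)) (actU φ (bb m c))
    - D1 P (actU φ (e1 m)) (actU φ (e1 m))) ∂(haarU _) =
    - ∫ φ : Un (m + 2), F (actU φ (e1 m)) * ev (DO m c P) (actU φ (e1 m)) ∂(haarU _)

/-- the bilinear form of the differences -/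
noncomputable def GB {m : ℕ} (c t : ℝ) (F G : Cn (m + 2) → ℂ) : ℂ :=
  ∫ φ : Un (m + 2), (F (actU φ (ee m c t)) - F (actU φ (e1 m))) *
    (G (actU φ (ee m c t)) - G (actU φ (e1 m))) ∂(haarU _)

/-- (SYM) -/
def S_SYM : Prop := ∀ (m : ℕ) (c : ℝ), c ^ 2 ≤ 1 → ∀ (t : ℝ) (F G : Cn (m + 2) → ℂ),
  Continuous F → Continuous G → GB c t F G =
    ∫ φ : Un (m + 2), F (actU φ (e1 m)) * (2 * G (actU φ (e1 m)) - G (actU φ (ee m c t))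
      - G (actU φ (ee m c (-t)))) ∂(haarU _)

/-- (LIM) -/
def S_LIM : Prop := ∀ (m : ℕ) (c : ℝ), c ^ 2 ≤ 1 → ∀ (F : Cn (m + 2) → ℂ), Continuous F →
  ∀ P : Po m, Tendsto (fun t : ℝ => GB c t F (ev P) / (t : ℂ) ^ 2) (𝓝[>] 0)
    (𝓝 (∫ φ : Un (m + 2), F (actU φ (e1 m)) * ev (DO m c P) (actU φ (e1 m)) ∂(haarU _)))

/-- the eigenvalues -/
noncomputable def lam (m : ℕ) (c : ℝ) (p q : ℕ) : ℝ :=
  c ^ 2 * ((p : ℝ) - q) ^ 2 + (1 - c ^ 2) * ((p : ℝ) + q) + 2 * (1 - c ^ 2) / (m + 1) * (p * q)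

/-- (LAB) -/
def S_LAB : Prop := ∀ (m : ℕ) (c : ℝ), 2 * (m + 2) * c ^ 2 ≤ (m + 2 : ℝ) + 1 →
  ∀ p q : ℕ, 1 ≤ p + q → 1 ≤ lam m c p q

/-- polynomials of total degree at most `k` -/
noncomputable abbrev UU (m k : ℕ) : Submodule ℂ (Po m) :=
  MvPolynomial.restrictTotalDegree (Fin (m + 2) ⊕ Fin (m + 2)) ℂ k

/-- the list of the eigenvalues in degree `k + 1` -/
noncomputable def SL (m : ℕ) (c : ℝ) (k : ℕ) : List ℝ :=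
  (List.range (k + 2)).map (fun p : ℕ => lam m c p (k + 1 - p))

/-- `∏ (D - s)` -/
noncomputable def prodL {A : Type} [AddCommGroup A] [Module ℂ A] (D : A →ₗ[ℂ] A) :
    List ℝ → (A →ₗ[ℂ] A)
  | [] => LinearMap.id
  | (s :: S) => (D - (s : ℂ) • (LinearMap.id : A →ₗ[ℂ] A)) ∘ₗ prodL D S

/-- (MON) triangular structure -/
def S_MON : Prop := ∀ (m : ℕ) (c : ℝ) (k : ℕ),
  (∀ P ∈ UU m k, DO m c P ∈ UU m k) ∧
  ∀ P ∈ UU m (k + 1), prodL (DO m c) (SL m c k) P ∈ UU m k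

/-- (ABS) abstract spectral lemma -/
def S_ABS : Prop := ∀ (H A : Type) [NormedAddCommGroup H] [InnerProductSpace ℂ H]
  [AddCommGroup A] [Module ℂ A] (J : A →ₗ[ℂ] H) (D : A →ₗ[ℂ] A) (U : ℕ → Submodule ℂ A)
  (one : A) (S : ℕ → List ℝ),
  (∀ P Q, (inner ℂ (J P) (J (D Q)) : ℂ) = inner ℂ (J (D P)) (J Q)) →
  (∀ k, FiniteDimensional ℂ (U k)) → (∀ k, U k ≤ U (k + 1)) → (∀ k, ∀ P ∈ U k, D P ∈ U k) →
  (∀ P ∈ U 0, ∃ z : ℂ, P = z • one) → (∀ k, ∀ s ∈ S k, 1 ≤ s) →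
  (∀ k, ∀ P ∈ U (k + 1), prodL D (S k) P ∈ U k) →
  ∀ k, ∀ P ∈ U k, (inner ℂ (J one) (J P) : ℂ) = 0 →
    ‖J P‖ ^ 2 ≤ (inner ℂ (J P) (J (D P)) : ℂ).re

/-- (GAP) -/
def S_GAP : Prop := ∀ (m : ℕ) (c : ℝ), c ^ 2 ≤ 1 → 2 * (m + 2) * c ^ 2 ≤ (m + 2 : ℝ) + 1 →
  ∀ P : Po m, ∫ φ : Un (m + 2), ev P (actU φ (e1 m)) ∂(haarU _) = 0 →
  ∫ φ : Un (m + 2), ‖ev P (actU φ (e1 m))‖ ^ 2 ∂(haarU _) ≤
    (∫ φ : Un (m + 2), starRingEnd ℂ (ev P (actU φ (e1 m))) * ev (DO m c P) (actU φ (e1 m))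
      ∂(haarU _)).re

/-- (DEN) Stone-Weierstrass -/
def S_DEN : Prop := ∀ (m : ℕ) (f : Cn (m + 2) → ℝ), Continuous f → ∀ ε : ℝ, 0 < ε →
  ∃ P : Po m, ∀ x : Cn (m + 2), ‖x‖ = 1 → ‖(f x : ℂ) - ev P x‖ < ε

/-- (PRO) projection onto the polynomials of bounded degree -/
def S_PRO : Prop := ∀ (m k : ℕ) (f : Cn (m + 2) → ℝ), Continuous f →
  ∃ P ∈ UU m k, ∀ Q ∈ UU m k, ∫ φ : Un (m + 2), ((f (actU φ (e1 m)) : ℂ)
    - ev P (actU φ (e1 m))) * starRingEnd ℂ (ev Q (actU φ (e1 m))) ∂(haarU _) = 0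

/-- (KEY) -/
def S_KEY : Prop := ∀ (m : ℕ) (c : ℝ), c ^ 2 ≤ 1 → 2 * (m + 2) * c ^ 2 ≤ (m + 2 : ℝ) + 1 →
  ∀ f : Cn (m + 2) → ℝ, Continuous f → M1 f = 0 → ∀ ε : ℝ, 0 < ε →
  ∀ᶠ t in 𝓝[>] (0 : ℝ), M2 f - ε ≤ GD c t f / t ^ 2

/-! ## Conclusion -/

/-- (TRA) translation invariance -/
def S_TRA : Prop := ∀ (n : ℕ) (E : Submodule ℝ (Cn n)) (K : Set (Cn n)) (v : Cn n),
  V E ((fun x => x + v) '' K) = V E K

/-- (HOL) -/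
def S_HOL : Prop := ∀ (m : ℕ) (E : Submodule ℝ (Cn (m + 2))) (a b : Cn (m + 2)), finrank ℝ E = 2 →
  a ∈ E → b ∈ E → ‖a‖ = 1 → ‖b‖ = 1 → inner ℝ a b = 0 →
  2 * (m + 2) * (inner ℂ a b : ℂ).im ^ 2 ≤ (m + 2 : ℝ) + 1 → BM E

/-- (MO4) fourth moments -/
def S_MO4 : Prop := ∀ m : ℕ,
  ∫ φ : Un (m + 2), ‖(actU φ (e1 m)) 0‖ ^ 2 ∂(haarU _) = 1 / ((m : ℝ) + 2) ∧
  ∫ φ : Un (m + 2), ‖(actU φ (e1 m)) 0‖ ^ 4 ∂(haarU _) = 2 / (((m : ℝ) + 2) * ((m : ℝ) + 3)) ∧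
  ∫ φ : Un (m + 2), ‖(actU φ (e1 m)) 0‖ ^ 2 * ‖(actU φ (e2 m)) 0‖ ^ 2 ∂(haarU _)
    = 1 / (((m : ℝ) + 2) * ((m : ℝ) + 3))

/-- (GDG) the difference form of `|x_0|²` -/
def S_GDG : Prop := ∀ (m : ℕ) (c : ℝ), c ^ 2 ≤ 1 → ∃ C : ℝ, ∀ t : ℝ,
  GD (m := m) c t (fun x => ‖x 0‖ ^ 2) ≤
    2 * (1 - c ^ 2) / (((m : ℝ) + 2) * ((m : ℝ) + 3)) * t ^ 2 + C * t ^ 4

/-- the ellipsoid with support function `sqrt (|u|² + τ |u_0|²)` -/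
noncomputable def Ell (m : ℕ) (τ : ℝ) : Set (Cn (m + 2)) :=
  {x | ‖x‖ ^ 2 ≤ 1 + τ / (1 + τ) * ‖x 0‖ ^ 2}

/-- (ELL) -/
def S_ELL : Prop := ∀ (m : ℕ) (τ : ℝ), 0 ≤ τ → B0 (Ell m τ) ∧
  ∀ u : Cn (m + 2), hs (Ell m τ) u = Real.sqrt (‖u‖ ^ 2 + τ * ‖u 0‖ ^ 2)

/-- (FAI) -/
def S_FAI : Prop := ∀ (m : ℕ) (E : Submodule ℝ (Cn (m + 2))) (a b : Cn (m + 2)), finrank ℝ E = 2 →
  a ∈ E → b ∈ E → ‖a‖ = 1 → ‖b‖ = 1 → inner ℝ a b = 0 →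
  (m + 2 : ℝ) + 1 < 2 * (m + 2) * (inner ℂ a b : ℂ).im ^ 2 → ¬ BM E

/-- (MAIN) -/
def S_MAIN : Prop := ∀ (n : ℕ) (E : Submodule ℝ (Cn n)) (a b : Cn n), 2 ≤ n → finrank ℝ E = 2 →
  a ∈ E → b ∈ E → ‖a‖ = 1 → ‖b‖ = 1 → inner ℝ a b = 0 →
  (BM E ↔ 2 * n * (inner ℂ a b : ℂ).im ^ 2 ≤ (n : ℝ) + 1)

theorem t_MAIN (h1 : S_HOL) (h2 : S_FAI) : S_MAIN := by
  intro n E a b hn hE ha hb na nb hab
  obtain ⟨m, rfl⟩ : ∃ m, n = m + 2 := ⟨n - 2, by omega⟩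
  have e : ((m + 2 : ℕ) : ℝ) = (m : ℝ) + 2 := by push_cast; ring
  constructor
  · intro h
    by_contra hc
    rw [not_le, e] at hc
    exact h2 m E a b hE ha hb na nb hab (by linarith) h
  · intro h
    rw [e] at h
    exact h1 m E a b hE ha hb na nb hab (by linarith)

end H829KB
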