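import Pool.Agent.H829R2.KB.Defs

/-! # Project KB, task ABS: abstract spectral lemma -/

set_option autoImplicit false

open MeasureTheory Filter Topology Module
open scoped Pointwise ENNReal

namespace H829KB

private theorem abs_prod {A : Type} [AddCommGroup A] [Module ℂ A] {H : Type} [NormedAddCommGroup H]
    [InnerProductSpace ℂ H] (J : A →ₗ[ℂ] H) (D : A →ₗ[ℂ] A) (b : H) (mu : ℝ)
    (hD : ∀ (Q : A) (z : ℂ), J Q = z • b → J (D Q) = (z * mu) • b) (Q : A) (hQ : J Q = b)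
    (hmu : mu < 1) (S : List ℝ) (hS : ∀ s ∈ S, 1 ≤ s) :
    ∃ w : ℂ, w ≠ 0 ∧ J (prodL D S Q) = w • b := by
  induction S with
  | nil => exact ⟨1, one_ne_zero, by simp [prodL, hQ]⟩
  | cons s S ih =>
    obtain ⟨w, hw, h⟩ := ih (fun s' hs' => hS s' (List.mem_cons_of_mem _ hs'))
    refine ⟨w * (mu - s), mul_ne_zero hw ?_, ?_⟩
    · have h1 : 1 ≤ s := hS s List.mem_cons_self
      rw [Ne, ← Complex.ofReal_sub, Complex.ofReal_eq_zero]
      linarith
    · have h2 := hD _ _ h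
      simp only [prodL, LinearMap.comp_apply, LinearMap.sub_apply, LinearMap.smul_apply,
        LinearMap.id_apply, map_sub, map_smul]
      rw [h2, h, smul_smul, ← sub_smul]
      congr 1
      ring

theorem t_ABS : S_ABS := by
  intro H A _ _ _ _ J D U one S hsym hfin _ hD h0 hS hprod k P hP horth
  -- `J (D P)` depends only on `J P`
  have hker : ∀ P : A, J P = 0 → J (D P) = 0 := by
    intro P hP
    have h := hsym P (D P)
    rw [hP, inner_zero_left] at h
    exact inner_self_eq_zero.1 h.symm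
  have := hfin k
  let W : Submodule ℂ H := (U k).map J
  let JU : U k →ₗ[ℂ] W := (J.comp (U k).subtype).codRestrict W
    (fun c => Submodule.mem_map_of_mem c.2)
  let DU : U k →ₗ[ℂ] U k := D.restrict (hD k)
  have hJU : ∀ Q : U k, ((JU Q : W) : H) = J Q := fun Q => rfl
  have hDU : ∀ Q : U k, ((DU Q : U k) : A) = D Q := fun Q => rfl
  have hsurj : Function.Surjective JU := by
    rintro ⟨y, hy⟩
    obtain ⟨Q, hQ, rfl⟩ := hy
    exact ⟨⟨Q, hQ⟩, rfl⟩
  obtain ⟨R, hR⟩ := LinearMap.exists_rightInverse_of_surjective JU (LinearMap.range_eq_top.2 hsurj)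
  have hR' : ∀ w : W, JU (R w) = w := fun w => by
    rw [← LinearMap.comp_apply, hR, LinearMap.id_apply]
  let T : W →ₗ[ℂ] W := JU ∘ₗ DU ∘ₗ R
  have hT : ∀ Q : U k, ((T (JU Q) : W) : H) = J (D Q) := by
    intro Q
    have e1 : ((T (JU Q) : W) : H) = J (D (R (JU Q) : U k)) := rfl
    rw [e1, ← sub_eq_zero, ← map_sub, ← map_sub]
    apply hker
    rw [map_sub, ← hJU, hR', hJU, sub_self]
  have : FiniteDimensional ℂ W := Module.Finite.of_surjective JU hsurj
  have hTsym : T.IsSymmetric := by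
    intro x y
    obtain ⟨X, rfl⟩ := hsurj x
    obtain ⟨Y, rfl⟩ := hsurj y
    rw [Submodule.coe_inner, Submodule.coe_inner, hT, hT, hJU, hJU]
    exact (hsym _ _).symm
  let b := hTsym.eigenvectorBasis rfl
  let mu := hTsym.eigenvalues rfl
  have hb : ∀ i, T (b i) = ((mu i : ℝ) : ℂ) • b i := fun i => hTsym.apply_eigenvectorBasis rfl i
  -- the key claim
  have hclaim : ∀ i, mu i < 1 → ∀ j : ℕ, ∀ Q ∈ U j, J Q = ((b i : W) : H) →
      ∃ z : ℂ, ((b i : W) : H) = z • J one := by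
    intro i hi j
    have hDi : ∀ (Q : A) (z : ℂ), J Q = z • ((b i : W) : H) →
        J (D Q) = (z * (mu i : ℝ)) • ((b i : W) : H) := by
      intro Q z hQ
      obtain ⟨Q0, hQ0⟩ := hsurj (b i)
      have e1 : J (D (Q0 : A)) = ((mu i : ℝ) : ℂ) • ((b i : W) : H) := by
        rw [← hT, hQ0, hb]
        rfl
      have e2 : J (Q - z • (Q0 : A)) = 0 := by
        rw [map_sub, map_smul, hQ, ← hJU, hQ0, sub_self]
      have e3 := hker _ e2
      rw [map_sub, map_sub, map_smul, map_smul, sub_eq_zero] at e3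
      rw [e3, e1, smul_smul]
    induction j with
    | zero =>
      intro Q hQ hJQ
      obtain ⟨z, rfl⟩ := h0 Q hQ
      exact ⟨z, by rw [← hJQ, map_smul]⟩
    | succ j ih =>
      intro Q hQ hJQ
      obtain ⟨w, hw, h⟩ := abs_prod J D _ _ hDi Q hJQ hi (S j) (hS j)
      refine ih (w⁻¹ • prodL D (S j) Q) (Submodule.smul_mem _ _ (hprod j Q hQ)) ?_
      rw [map_smul, h, smul_smul, inv_mul_cancel₀ hw, one_smul]
  let x : W := JU ⟨P, hP⟩
  have hx : ((x : W) : H) = J P := rfl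
  have hzero : ∀ i, mu i < 1 → (inner ℂ (b i) x : ℂ) = 0 := by
    intro i hi
    obtain ⟨Q0, hQ0⟩ := hsurj (b i)
    obtain ⟨z, hz⟩ := hclaim i hi k Q0 Q0.2 (by rw [← hJU, hQ0])
    rw [Submodule.coe_inner, hz, hx, inner_smul_left, horth, mul_zero]
  have e1 : (inner ℂ (J P) (J (D P)) : ℂ) = inner ℂ x (T x) := by
    rw [Submodule.coe_inner, hT, hx]
  have e2 : ‖J P‖ ^ 2 = ∑ i, ‖(inner ℂ (b i) x : ℂ)‖ ^ 2 := by
    rw [← hx, ← Submodule.coe_norm, ← b.sum_sq_norm_inner_right x]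
  have e3 : (inner ℂ x (T x) : ℂ).re = ∑ i, mu i * ‖(inner ℂ (b i) x : ℂ)‖ ^ 2 := by
    rw [← b.sum_inner_mul_inner, Complex.re_sum]
    refine Finset.sum_congr rfl fun i _ => ?_
    rw [← hTsym (b i) x, hb, inner_smul_left, Complex.conj_ofReal,
      ← inner_conj_symm x (b i), ← mul_assoc, mul_comm _ ((mu i : ℝ) : ℂ), mul_assoc,
      Complex.re_ofReal_mul, ← Complex.normSq_eq_conj_mul_self, Complex.ofReal_re,
      Complex.normSq_eq_norm_sq]
  rw [e1, e3, e2]
  refine Finset.sum_le_sum fun i _ => ?_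
  by_cases hi : mu i < 1
  · rw [hzero i hi]; simp
  · push Not at hi
    nlinarith [sq_nonneg ‖(inner ℂ (b i) x : ℂ)‖]

end H829KB
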