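import Pool.Agent.H829R2.KB.Defs

set_option autoImplicit false

open MeasureTheory Filter Topology Module
open scoped Pointwise ENNReal
open Pool.Agent.Results.MP_6cdc09_gt.AlmostComplex

namespace H829KB

theorem AG_mul {n : ℕ} (φ ψ : Un n) (x : Cn n) : actU (φ * ψ) x = actU φ (actU ψ x) := by
  simp [actU, Matrix.mulVec_mulVec]

theorem AG_inv (h1 : S_HAA) (n : ℕ) (ψ : Un n) (F : Un n → ℝ) :
    ∫ φ, F (φ * ψ) ∂(haarU n) = ∫ φ, F φ ∂(haarU n) := by
  have h := (h1 n).2.1 ψ (fun φ => (F φ : ℂ))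
  rw [integral_complex_ofReal, integral_complex_ofReal] at h
  exact_mod_cast h

theorem AG_int {n : ℕ} (F : Un n → ℝ) (hF : Continuous F) : Integrable F (haarU n) :=
  hF.integrable_of_hasCompactSupport (HasCompactSupport.of_compactSpace _)

theorem AG_lin {n : ℕ} (F G H : Un n → ℝ) (hF : Integrable F (haarU n)) (hG : Integrable G (haarU n))
    (hH : Integrable H (haarU n)) : ∫ φ, (F φ + (G φ - H φ)) ∂(haarU n)
      = ∫ φ, F φ ∂(haarU n) + (∫ φ, G φ ∂(haarU n) - ∫ φ, H φ ∂(haarU n)) := by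
  rw [← integral_sub hG hH]
  exact integral_add hF (hG.sub hH)

theorem AG_e0 (m : ℕ) (c : ℝ) : ee m c 0 = e1 m := by
  simp [ee]

theorem t_AG (h1 : S_HAA) (h2 : S_ROT) : S_AG := by
  intro m c hc f hf N hN
  obtain ⟨U, hU⟩ := h2 m c hc
  have hcont : ∀ x : Cn (m + 2), Continuous fun φ : Un (m + 2) => f (actU φ x) :=
    fun x => hf.comp ((h1 (m + 2)).2.2.2 x)
  set C : ℝ → ℝ := fun t => ∫ φ : Un (m + 2), f (actU φ (ee m c 0)) * f (actU φ (ee m c t))
    ∂(haarU _) with hC
  have hp : ∀ s t : ℝ, ∫ φ : Un (m + 2), f (actU φ (ee m c s)) * f (actU φ (ee m c (s + t)))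
      ∂(haarU _) = C t := by
    intro s t
    have h := AG_inv h1 (m + 2) (U s)
      (fun φ => f (actU φ (ee m c 0)) * f (actU φ (ee m c t)))
    simp only [AG_mul, hU] at h
    rw [hC]
    simp only
    rw [← h]
    rw [zero_add, add_comm s t]
  have hC0 : C 0 = M2 f := by
    simp only [hC, M2, AG_e0, sq]
  set d : ℝ := st N with hd
  have hGD : GD c d f = 2 * M2 f - 2 * C d := by
    have e : ∀ φ : Un (m + 2), (f (actU φ (ee m c d)) - f (actU φ (e1 m))) ^ 2
        = f (actU φ (ee m c d)) * f (actU φ (ee m c (d + 0)))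
          + (f (actU φ (ee m c 0)) * f (actU φ (ee m c (0 + 0)))
          - 2 * (f (actU φ (ee m c 0)) * f (actU φ (ee m c d)))) := by
      intro φ
      rw [add_zero, add_zero, AG_e0]
      ring
    unfold GD
    rw [integral_congr_ae (Eventually.of_forall e)]
    have i1 : Integrable (fun φ : Un (m + 2) => f (actU φ (ee m c d)) * f (actU φ (ee m c (d + 0))))
      (haarU _) := AG_int _ ((hcont _).mul (hcont _))
    have i2 : Integrable (fun φ : Un (m + 2) => f (actU φ (ee m c 0)) * f (actU φ (ee m c (0 + 0))))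
      (haarU _) := AG_int _ ((hcont _).mul (hcont _))
    have i3 : Integrable (fun φ : Un (m + 2) =>
      2 * (f (actU φ (ee m c 0)) * f (actU φ (ee m c d)))) (haarU _) :=
      AG_int _ (continuous_const.mul ((hcont _).mul (hcont _)))
    rw [AG_lin _ _ _ i1 i2 i3, integral_const_mul, hp, hp, hC0]
    ring
  have hterm : ∀ j : ℕ, ∫ φ : Un (m + 2), f (actU φ (ee m c (j * d))) *
      (f (actU φ (ee m c (((j : ℝ) - 1) * d))) + f (actU φ (ee m c (((j : ℝ) + 1) * d)))
        - 2 * Real.cos d * f (actU φ (ee m c (j * d)))) ∂(haarU _)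
      = 2 * C d - 2 * Real.cos d * M2 f := by
    intro j
    have e : ∀ φ : Un (m + 2), f (actU φ (ee m c (j * d))) *
      (f (actU φ (ee m c (((j : ℝ) - 1) * d))) + f (actU φ (ee m c (((j : ℝ) + 1) * d)))
        - 2 * Real.cos d * f (actU φ (ee m c (j * d))))
        = f (actU φ (ee m c (((j : ℝ) - 1) * d))) * f (actU φ (ee m c (((j : ℝ) - 1) * d + d)))
        + (f (actU φ (ee m c (j * d))) * f (actU φ (ee m c (j * d + d)))
        - 2 * Real.cos d * (f (actU φ (ee m c (j * d))) * f (actU φ (ee m c (j * d + 0))))) := by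
      intro φ
      have a1 : ((j : ℝ) - 1) * d + d = j * d := by ring
      have a2 : (j : ℝ) * d + d = ((j : ℝ) + 1) * d := by ring
      rw [a1, a2, add_zero]
      ring
    rw [integral_congr_ae (Eventually.of_forall e)]
    have i1 : Integrable (fun φ : Un (m + 2) => f (actU φ (ee m c (((j : ℝ) - 1) * d)))
      * f (actU φ (ee m c (((j : ℝ) - 1) * d + d)))) (haarU _) :=
      AG_int _ ((hcont _).mul (hcont _))
    have i2 : Integrable (fun φ : Un (m + 2) => f (actU φ (ee m c (j * d)))
      * f (actU φ (ee m c (j * d + d)))) (haarU _) := AG_int _ ((hcont _).mul (hcont _))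
    have i3 : Integrable (fun φ : Un (m + 2) => 2 * Real.cos d *
      (f (actU φ (ee m c (j * d))) * f (actU φ (ee m c (j * d + 0))))) (haarU _) :=
      AG_int _ (continuous_const.mul ((hcont _).mul (hcont _)))
    rw [AG_lin _ _ _ i1 i2 i3, integral_const_mul, hp, hp, hp, hC0]
    ring
  have hAN : ∫ φ : Un (m + 2), AN N (fun θ => f (actU φ (ee m c θ))) ∂(haarU _)
      = 1 / (2 * Real.sin d) * ∑ j ∈ Finset.range N, (2 * C d - 2 * Real.cos d * M2 f) := by
    simp only [AN]
    rw [integral_const_mul, integral_finsetSum]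
    · congr 1
      exact Finset.sum_congr rfl (fun j _ => hterm j)
    · intro j _
      exact AG_int _ ((hcont _).mul (((hcont _).add (hcont _)).sub
        (continuous_const.mul (hcont _))))
  rw [hAN, Finset.sum_const, Finset.card_range, nsmul_eq_mul, hGD]
  have : (1 / (2 * Real.sin d)) = (1 / Real.sin d) / 2 := by
    rw [div_div, mul_comm]
  rw [this]
  ring

end H829KB
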