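import Pool.Agent.H829R2.KB.Defs

/-!
(AVG) of project KB: averaging the second derivative of a polynomial over the second column.
-/

set_option autoImplicit false

open MeasureTheory Filter Topology Module
open scoped Pointwise ENNReal
open Pool.Agent.Results.MP_6cdc09_gt.AlmostComplex

namespace H829KB

/-- both sides integrable with the same integral -/
private def AVG_R {m : ℕ} (A B : Un (m + 2) → ℂ) : Prop :=
  Integrable A (haarU (m + 2)) ∧ Integrable B (haarU (m + 2)) ∧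
    ∫ φ, A φ ∂(haarU (m + 2)) = ∫ φ, B φ ∂(haarU (m + 2))

private lemma AVG_R_sum {m : ℕ} {ι : Type} (s : Finset ι) (A B : ι → Un (m + 2) → ℂ)
    (h : ∀ i ∈ s, AVG_R (A i) (B i)) :
    AVG_R (fun φ => ∑ i ∈ s, A i φ) (fun φ => ∑ i ∈ s, B i φ) := by
  refine ⟨integrable_finsetSum _ fun i hi => (h i hi).1,
    integrable_finsetSum _ fun i hi => (h i hi).2.1, ?_⟩
  rw [integral_finsetSum _ fun i hi => (h i hi).1, integral_finsetSum _ fun i hi => (h i hi).2.1]
  exact Finset.sum_congr rfl fun i hi => (h i hi).2.2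

private lemma AVG_R_add {m : ℕ} {A B A' B' : Un (m + 2) → ℂ} (h : AVG_R A B) (h' : AVG_R A' B') :
    AVG_R (fun φ => A φ + A' φ) (fun φ => B φ + B' φ) := by
  refine ⟨h.1.add h'.1, h.2.1.add h'.2.1, ?_⟩
  rw [integral_add h.1 h'.1, integral_add h.2.1 h'.2.1, h.2.2, h'.2.2]

private lemma AVG_int {m : ℕ} (h1 : S_HAA) {A : Un (m + 2) → ℂ} (h : Continuous A) :
    Integrable A (haarU (m + 2)) := by
  have := (h1 (m + 2)).1
  exact h.integrable_of_hasCompactSupport (HasCompactSupport.of_compactSpace A)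

private lemma AVG_ci {m : ℕ} (i : Fin (m + 2)) : Continuous fun x : Cn (m + 2) => x i := by
  fun_prop

private lemma AVG_cc {m : ℕ} (i : Fin (m + 2)) :
    Continuous fun x : Cn (m + 2) => starRingEnd ℂ (x i) := by
  exact Complex.continuous_conj.comp (AVG_ci i)

private lemma AVG_ev {m : ℕ} (P : Po m) : Continuous fun x : Cn (m + 2) => ev P x := by
  unfold ev
  refine (MvPolynomial.continuous_eval P).comp (continuous_pi fun i => ?_)
  rcases i with i | i
  · exact AVG_ci i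
  · exact AVG_cc i

private lemma AVG_bb {m : ℕ} (c : ℝ) (φ : Un (m + 2)) (i : Fin (m + 2)) :
    (actU φ (bb m c)) i = Complex.I * c * (actU φ (e1 m)) i
      + ((Real.sqrt (1 - c ^ 2) : ℝ) : ℂ) * (actU φ (e2 m)) i := by
  have h : ∀ x : Cn (m + 2), actU φ x = isoU φ x := fun _ => rfl
  rw [h, h, h, bb, map_add, map_smul, map_smul]
  rfl

private lemma AVG_bbc {m : ℕ} (c : ℝ) (φ : Un (m + 2)) (i : Fin (m + 2)) :
    starRingEnd ℂ ((actU φ (bb m c)) i) = - (Complex.I * c * starRingEnd ℂ ((actU φ (e1 m)) i))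
      + ((Real.sqrt (1 - c ^ 2) : ℝ) : ℂ) * starRingEnd ℂ ((actU φ (e2 m)) i) := by
  rw [AVG_bb, map_add, map_mul, map_mul, map_mul, Complex.conj_I, Complex.conj_ofReal,
    Complex.conj_ofReal]
  ring

/-! ### polynomial identities -/

private lemma AVG_dl_X {m : ℕ} (i j : Fin (m + 2)) (P : Po m) :
    dl i (MvPolynomial.X (Sum.inl j) * P)
      = (if i = j then 1 else 0) * P + MvPolynomial.X (Sum.inl j) * dl i P := by
  show MvPolynomial.pderiv (Sum.inl i) (MvPolynomial.X (Sum.inl j) * P) = _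
  rw [MvPolynomial.pderiv_mul]
  by_cases h : i = j
  · subst h
    rw [MvPolynomial.pderiv_X_self, if_pos rfl]
    rfl
  · rw [MvPolynomial.pderiv_X_of_ne (fun e => h (Sum.inl.inj e).symm), if_neg h]
    rfl

private lemma AVG_dr_X {m : ℕ} (i j : Fin (m + 2)) (P : Po m) :
    dr i (MvPolynomial.X (Sum.inr j) * P)
      = (if i = j then 1 else 0) * P + MvPolynomial.X (Sum.inr j) * dr i P := by
  show MvPolynomial.pderiv (Sum.inr i) (MvPolynomial.X (Sum.inr j) * P) = _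
  rw [MvPolynomial.pderiv_mul]
  by_cases h : i = j
  · subst h
    rw [MvPolynomial.pderiv_X_self, if_pos rfl]
    rfl
  · rw [MvPolynomial.pderiv_X_of_ne (fun e => h (Sum.inr.inj e).symm), if_neg h]
    rfl

private lemma AVG_dl_Y {m : ℕ} (i j : Fin (m + 2)) (P : Po m) :
    dl i (MvPolynomial.X (Sum.inr j) * P) = MvPolynomial.X (Sum.inr j) * dl i P := by
  show MvPolynomial.pderiv (Sum.inl i) (MvPolynomial.X (Sum.inr j) * P) = _
  rw [MvPolynomial.pderiv_mul, MvPolynomial.pderiv_X_of_ne (by simp), zero_mul, zero_add]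
  rfl

private lemma AVG_dr_Y {m : ℕ} (i j : Fin (m + 2)) (P : Po m) :
    dr i (MvPolynomial.X (Sum.inl j) * P) = MvPolynomial.X (Sum.inl j) * dr i P := by
  show MvPolynomial.pderiv (Sum.inr i) (MvPolynomial.X (Sum.inl j) * P) = _
  rw [MvPolynomial.pderiv_mul, MvPolynomial.pderiv_X_of_ne (by simp), zero_mul, zero_add]
  rfl

private lemma AVG_comm {m : ℕ} (i j : Fin (m + 2)) (P : Po m) :
    dl i (dr j P) = dr j (dl i P) := by
  have h : ⁅(MvPolynomial.pderiv (Sum.inl i) : Derivation ℂ (Po m) (Po m)),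
      (MvPolynomial.pderiv (Sum.inr j) : Derivation ℂ (Po m) (Po m))⁆ = 0 := by
    refine MvPolynomial.derivation_ext fun k => ?_
    rw [Derivation.commutator_apply]
    rcases k with k | k <;> simp [MvPolynomial.pderiv_X, Pi.single_apply, apply_ite]
  have h' := congrArg (fun D : Derivation ℂ (Po m) (Po m) => D P) h
  simp only [Derivation.commutator_apply, Derivation.coe_zero, Pi.zero_apply] at h'
  exact sub_eq_zero.1 h'

private lemma AVG_EL {m : ℕ} (P : Po m) :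
    EL P = ∑ i, MvPolynomial.X (Sum.inl i) * dl i P := by
  simp [EL, LinearMap.sum_apply]

private lemma AVG_ER {m : ℕ} (P : Po m) :
    ER P = ∑ i, MvPolynomial.X (Sum.inr i) * dr i P := by
  simp [ER, LinearMap.sum_apply]

private lemma AVG_LL {m : ℕ} (P : Po m) : LL P = ∑ i, dl i (dr i P) := by
  simp [LL, LinearMap.sum_apply]

private lemma AVG_ELEL {m : ℕ} (P : Po m) :
    EL (EL P) = EL P + ∑ i, ∑ j, MvPolynomial.X (Sum.inl i) * MvPolynomial.X (Sum.inl j)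
      * dl i (dl j P) := by
  rw [AVG_EL (EL P), AVG_EL P, ← Finset.sum_add_distrib]
  refine Finset.sum_congr rfl fun i _ => ?_
  rw [map_sum, Finset.mul_sum]
  have h : ∀ j : Fin (m + 2), MvPolynomial.X (Sum.inl i) * dl i (MvPolynomial.X (Sum.inl j) * dl j P)
      = (if i = j then MvPolynomial.X (Sum.inl j) * dl j P else 0)
        + MvPolynomial.X (Sum.inl i) * MvPolynomial.X (Sum.inl j) * dl i (dl j P) := by
    intro j
    rw [AVG_dl_X]
    split_ifs with e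
    · subst e; ring
    · ring
  rw [Finset.sum_congr rfl fun j _ => h j, Finset.sum_add_distrib]
  simp

private lemma AVG_ERER {m : ℕ} (P : Po m) :
    ER (ER P) = ER P + ∑ i, ∑ j, MvPolynomial.X (Sum.inr i) * MvPolynomial.X (Sum.inr j)
      * dr i (dr j P) := by
  rw [AVG_ER (ER P), AVG_ER P, ← Finset.sum_add_distrib]
  refine Finset.sum_congr rfl fun i _ => ?_
  rw [map_sum, Finset.mul_sum]
  have h : ∀ j : Fin (m + 2), MvPolynomial.X (Sum.inr i) * dr i (MvPolynomial.X (Sum.inr j) * dr j P)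
      = (if i = j then MvPolynomial.X (Sum.inr j) * dr j P else 0)
        + MvPolynomial.X (Sum.inr i) * MvPolynomial.X (Sum.inr j) * dr i (dr j P) := by
    intro j
    rw [AVG_dr_X]
    split_ifs with e
    · subst e; ring
    · ring
  rw [Finset.sum_congr rfl fun j _ => h j, Finset.sum_add_distrib]
  simp

private lemma AVG_ELER {m : ℕ} (P : Po m) :
    EL (ER P) = ∑ i, ∑ j, MvPolynomial.X (Sum.inl i) * MvPolynomial.X (Sum.inr j)
      * dl i (dr j P) := by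
  rw [AVG_EL (ER P), AVG_ER P]
  refine Finset.sum_congr rfl fun i _ => ?_
  rw [map_sum, Finset.mul_sum]
  refine Finset.sum_congr rfl fun j _ => ?_
  rw [AVG_dl_Y, mul_assoc]

private lemma AVG_EREL {m : ℕ} (P : Po m) : ER (EL P) = EL (ER P) := by
  rw [AVG_ELER, AVG_ER (EL P), AVG_EL P, Finset.sum_comm]
  refine Finset.sum_congr rfl fun i _ => ?_
  rw [map_sum, Finset.mul_sum]
  refine Finset.sum_congr rfl fun j _ => ?_
  rw [AVG_dr_Y, AVG_comm]
  ring

private lemma AVG_DO {m : ℕ} (c : ℝ) (P : Po m) :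
    DO m c P = ((c ^ 2 : ℝ) : ℂ) • (EL (EL P) + ER (ER P) - 2 • EL (ER P))
      + ((1 - c ^ 2 : ℝ) : ℂ) • (EL P + ER P)
      + ((2 * (1 - c ^ 2) / (m + 1) : ℝ) : ℂ) • (EL (ER P) - LL P) := by
  have h : (EL - ER : Po m →ₗ[ℂ] Po m) ((EL - ER : Po m →ₗ[ℂ] Po m) P) = EL (EL P) + ER (ER P) - 2 • EL (ER P) := by
    rw [LinearMap.sub_apply, LinearMap.sub_apply, map_sub, map_sub, AVG_EREL, two_nsmul]
    abel
  rw [DO, LinearMap.add_apply, LinearMap.add_apply, LinearMap.smul_apply, LinearMap.smul_apply,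
    LinearMap.smul_apply, LinearMap.comp_apply, h, LinearMap.add_apply, LinearMap.sub_apply,
    LinearMap.comp_apply]

/-! ### values -/

private lemma AVG_evadd {m : ℕ} (P Q : Po m) (x : Cn (m + 2)) : ev (P + Q) x = ev P x + ev Q x :=
  map_add _ _ _

private lemma AVG_evsub {m : ℕ} (P Q : Po m) (x : Cn (m + 2)) : ev (P - Q) x = ev P x - ev Q x :=
  map_sub _ _ _

private lemma AVG_evsmul {m : ℕ} (z : ℂ) (P : Po m) (x : Cn (m + 2)) :
    ev (z • P) x = z * ev P x := by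
  rw [ev, MvPolynomial.smul_eval]
  rfl

private lemma AVG_evmul {m : ℕ} (P Q : Po m) (x : Cn (m + 2)) : ev (P * Q) x = ev P x * ev Q x :=
  map_mul _ _ _

private lemma AVG_evsum {m : ℕ} {ι : Type} (s : Finset ι) (P : ι → Po m) (x : Cn (m + 2)) :
    ev (∑ i ∈ s, P i) x = ∑ i ∈ s, ev (P i) x :=
  map_sum _ _ _

private lemma AVG_evX {m : ℕ} (i : Fin (m + 2)) (x : Cn (m + 2)) :
    ev (MvPolynomial.X (Sum.inl i) : Po m) x = x i := by
  simp [ev]

private lemma AVG_evY {m : ℕ} (i : Fin (m + 2)) (x : Cn (m + 2)) :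
    ev (MvPolynomial.X (Sum.inr i) : Po m) x = starRingEnd ℂ (x i) := by
  simp [ev]

private lemma AVG_D1 {m : ℕ} (P : Po m) (x : Cn (m + 2)) :
    D1 P x x = ev (EL P) x + ev (ER P) x := by
  rw [D1, Finset.sum_add_distrib, AVG_EL, AVG_ER, AVG_evsum, AVG_evsum]
  congr 1
  · refine Finset.sum_congr rfl fun i _ => ?_
    rw [AVG_evmul, AVG_evX]; ring
  · refine Finset.sum_congr rfl fun i _ => ?_
    rw [AVG_evmul, AVG_evY]; ring

/-- the averaged second derivative -/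
private noncomputable def AVG_T {m : ℕ} (c : ℝ) (P : Po m) (x : Cn (m + 2)) : ℂ :=
  ∑ i, ∑ j, (ev (dl i (dl j P)) x * (-(c : ℂ) ^ 2 * (x i * x j))
    + 2 * ev (dl i (dr j P)) x * ((c : ℂ) ^ 2 * (x i * starRingEnd ℂ (x j))
      + (1 - (c : ℂ) ^ 2) * (1 / (m + 1 : ℂ)) * ((if i = j then 1 else 0) - x i * starRingEnd ℂ (x j)))
    + ev (dr i (dr j P)) x * (-(c : ℂ) ^ 2 * (starRingEnd ℂ (x i) * starRingEnd ℂ (x j))))

private lemma AVG_alg {m : ℕ} (c : ℝ) (P : Po m) (x : Cn (m + 2)) :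
    AVG_T c P x - D1 P x x = - ev (DO m c P) x := by
  have e1 : ∑ i, ∑ j, ev (dl i (dl j P)) x * (x i * x j) = ev (EL (EL P)) x - ev (EL P) x := by
    rw [AVG_ELEL, AVG_evadd, add_sub_cancel_left, AVG_evsum]
    refine Finset.sum_congr rfl fun i _ => ?_
    rw [AVG_evsum]
    refine Finset.sum_congr rfl fun j _ => ?_
    rw [AVG_evmul, AVG_evmul, AVG_evX, AVG_evX]; ring
  have e2 : ∑ i, ∑ j, ev (dl i (dr j P)) x * (x i * starRingEnd ℂ (x j)) = ev (EL (ER P)) x := by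
    rw [AVG_ELER, AVG_evsum]
    refine Finset.sum_congr rfl fun i _ => ?_
    rw [AVG_evsum]
    refine Finset.sum_congr rfl fun j _ => ?_
    rw [AVG_evmul, AVG_evmul, AVG_evX, AVG_evY]; ring
  have e3 : ∑ i, ∑ j, ev (dr i (dr j P)) x * (starRingEnd ℂ (x i) * starRingEnd ℂ (x j))
      = ev (ER (ER P)) x - ev (ER P) x := by
    rw [AVG_ERER, AVG_evadd, add_sub_cancel_left, AVG_evsum]
    refine Finset.sum_congr rfl fun i _ => ?_
    rw [AVG_evsum]
    refine Finset.sum_congr rfl fun j _ => ?_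
    rw [AVG_evmul, AVG_evmul, AVG_evY, AVG_evY]; ring
  have e4 : ∑ i, ∑ j, ev (dl i (dr j P)) x * (if i = j then 1 else 0) = ev (LL P) x := by
    rw [AVG_LL, AVG_evsum]
    refine Finset.sum_congr rfl fun i _ => ?_
    simp
  have e5 : AVG_T c P x = -(c : ℂ) ^ 2 * ∑ i, ∑ j, ev (dl i (dl j P)) x * (x i * x j)
      + (2 * (c : ℂ) ^ 2 - 2 * (1 - (c : ℂ) ^ 2) * (1 / (m + 1 : ℂ))) *
        ∑ i, ∑ j, ev (dl i (dr j P)) x * (x i * starRingEnd ℂ (x j))
      + 2 * (1 - (c : ℂ) ^ 2) * (1 / (m + 1 : ℂ)) *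
        ∑ i, ∑ j, ev (dl i (dr j P)) x * (if i = j then 1 else 0)
      + -(c : ℂ) ^ 2 * ∑ i, ∑ j, ev (dr i (dr j P)) x * (starRingEnd ℂ (x i) * starRingEnd ℂ (x j)) := by
    simp only [AVG_T, Finset.mul_sum, ← Finset.sum_add_distrib]
    refine Finset.sum_congr rfl fun i _ => Finset.sum_congr rfl fun j _ => ?_
    ring
  rw [e5, e1, e2, e3, e4, AVG_D1, AVG_DO, AVG_evadd, AVG_evadd, AVG_evsmul, AVG_evsmul, AVG_evsmul,
    AVG_evsub, AVG_evsub, AVG_evadd, AVG_evadd, two_nsmul, AVG_evadd]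
  push_cast
  ring

/-! ### the averages -/

section

variable {m : ℕ} (h1 : S_HAA) (h2 : S_MOM)

include h1

private lemma AVG_c1 : Continuous fun φ : Un (m + 2) => actU φ (e1 m) := (h1 (m + 2)).2.2.2 _

private lemma AVG_c2 : Continuous fun φ : Un (m + 2) => actU φ (e2 m) := (h1 (m + 2)).2.2.2 _

private lemma AVG_refl (K : Cn (m + 2) → ℂ) (hK : Continuous K) :
    AVG_R (fun φ : Un (m + 2) => K (actU φ (e1 m))) (fun φ => K (actU φ (e1 m))) :=
  ⟨AVG_int h1 (hK.comp (AVG_c1 h1)), AVG_int h1 (hK.comp (AVG_c1 h1)), rfl⟩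

include h2

private lemma AVG_m1 (K : Cn (m + 2) → ℂ) (hK : Continuous K) (i : Fin (m + 2)) :
    AVG_R (fun φ : Un (m + 2) => K (actU φ (e1 m)) * (actU φ (e2 m)) i) (fun _ => 0) := by
  refine ⟨AVG_int h1 ((hK.comp (AVG_c1 h1)).mul ((AVG_ci i).comp (AVG_c2 h1))),
    integrable_zero _ _ _, ?_⟩
  rw [(h2 m K hK i i).1, integral_zero]

private lemma AVG_m2 (K : Cn (m + 2) → ℂ) (hK : Continuous K) (i : Fin (m + 2)) :
    AVG_R (fun φ : Un (m + 2) => K (actU φ (e1 m)) * starRingEnd ℂ ((actU φ (e2 m)) i))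
      (fun _ => 0) := by
  refine ⟨AVG_int h1 ((hK.comp (AVG_c1 h1)).mul ((AVG_cc i).comp (AVG_c2 h1))),
    integrable_zero _ _ _, ?_⟩
  rw [(h2 m K hK i i).2.1, integral_zero]

private lemma AVG_m3 (K : Cn (m + 2) → ℂ) (hK : Continuous K) (i j : Fin (m + 2)) :
    AVG_R (fun φ : Un (m + 2) => K (actU φ (e1 m)) * ((actU φ (e2 m)) i * (actU φ (e2 m)) j))
      (fun _ => 0) := by
  refine ⟨AVG_int h1 ((hK.comp (AVG_c1 h1)).mul (((AVG_ci i).comp (AVG_c2 h1)).mul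
    ((AVG_ci j).comp (AVG_c2 h1)))), integrable_zero _ _ _, ?_⟩
  rw [(h2 m K hK i j).2.2.1, integral_zero]

private lemma AVG_m4 (K : Cn (m + 2) → ℂ) (hK : Continuous K) (i j : Fin (m + 2)) :
    AVG_R (fun φ : Un (m + 2) => K (actU φ (e1 m)) * (starRingEnd ℂ ((actU φ (e2 m)) i) *
      starRingEnd ℂ ((actU φ (e2 m)) j))) (fun _ => 0) := by
  refine ⟨AVG_int h1 ((hK.comp (AVG_c1 h1)).mul (((AVG_cc i).comp (AVG_c2 h1)).mul
    ((AVG_cc j).comp (AVG_c2 h1)))), integrable_zero _ _ _, ?_⟩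
  rw [(h2 m K hK i j).2.2.2.1, integral_zero]

private lemma AVG_m5 (K : Cn (m + 2) → ℂ) (hK : Continuous K) (i j : Fin (m + 2)) :
    AVG_R (fun φ : Un (m + 2) => K (actU φ (e1 m)) * ((actU φ (e2 m)) i *
      starRingEnd ℂ ((actU φ (e2 m)) j))) (fun φ => (1 / (m + 1 : ℂ)) * (K (actU φ (e1 m)) *
        ((if i = j then 1 else 0) - (actU φ (e1 m)) i * starRingEnd ℂ ((actU φ (e1 m)) j)))) := by
  refine ⟨AVG_int h1 ((hK.comp (AVG_c1 h1)).mul (((AVG_ci i).comp (AVG_c2 h1)).mul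
    ((AVG_cc j).comp (AVG_c2 h1)))), AVG_int h1 (continuous_const.mul
      ((hK.comp (AVG_c1 h1)).mul (continuous_const.sub (((AVG_ci i).comp (AVG_c1 h1)).mul
    ((AVG_cc j).comp (AVG_c1 h1)))))), ?_⟩
  rw [(h2 m K hK i j).2.2.2.2, integral_const_mul]

private lemma AVG_k1 (c : ℝ) (K : Cn (m + 2) → ℂ) (hK : Continuous K) (i j : Fin (m + 2)) :
    AVG_R (fun φ : Un (m + 2) => K (actU φ (e1 m)) * ((actU φ (bb m c)) i * (actU φ (bb m c)) j))
      (fun φ => K (actU φ (e1 m)) * (-(c : ℂ) ^ 2 * ((actU φ (e1 m)) i * (actU φ (e1 m)) j))) := by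
  have r0 := AVG_refl h1 (fun x => K x * (-(c : ℂ) ^ 2 * (x i * x j)))
    (hK.mul (continuous_const.mul ((AVG_ci i).mul (AVG_ci j))))
  have r1 := AVG_m1 h1 h2 (fun x => K x * (Complex.I * c * ((Real.sqrt (1 - c ^ 2) : ℝ) : ℂ) * x i))
    (hK.mul (continuous_const.mul (AVG_ci i))) j
  have r2 := AVG_m1 h1 h2 (fun x => K x * (Complex.I * c * ((Real.sqrt (1 - c ^ 2) : ℝ) : ℂ) * x j))
    (hK.mul (continuous_const.mul (AVG_ci j))) i
  have r3 := AVG_m3 h1 h2 (fun x => K x * (((Real.sqrt (1 - c ^ 2) : ℝ) : ℂ) ^ 2))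
    (hK.mul continuous_const) i j
  have r := AVG_R_add (AVG_R_add (AVG_R_add r0 r1) r2) r3
  convert r using 2 with φ φ
  · rw [AVG_bb, AVG_bb]
    linear_combination (K (actU φ (e1 m)) * (c : ℂ) ^ 2 * ((actU φ (e1 m)) i * (actU φ (e1 m)) j))
      * Complex.I_mul_I
  · ring

private lemma AVG_k3 (c : ℝ) (K : Cn (m + 2) → ℂ) (hK : Continuous K) (i j : Fin (m + 2)) :
    AVG_R (fun φ : Un (m + 2) => K (actU φ (e1 m)) * (starRingEnd ℂ ((actU φ (bb m c)) i) *
        starRingEnd ℂ ((actU φ (bb m c)) j)))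
      (fun φ => K (actU φ (e1 m)) * (-(c : ℂ) ^ 2 * (starRingEnd ℂ ((actU φ (e1 m)) i) *
        starRingEnd ℂ ((actU φ (e1 m)) j)))) := by
  have r0 := AVG_refl h1 (fun x => K x * (-(c : ℂ) ^ 2 * (starRingEnd ℂ (x i) *
    starRingEnd ℂ (x j)))) (hK.mul (continuous_const.mul ((AVG_cc i).mul (AVG_cc j))))
  have r1 := AVG_m2 h1 h2 (fun x => K x * (-(Complex.I * c * ((Real.sqrt (1 - c ^ 2) : ℝ) : ℂ)) *
    starRingEnd ℂ (x i))) (hK.mul (continuous_const.mul (AVG_cc i))) j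
  have r2 := AVG_m2 h1 h2 (fun x => K x * (-(Complex.I * c * ((Real.sqrt (1 - c ^ 2) : ℝ) : ℂ)) *
    starRingEnd ℂ (x j))) (hK.mul (continuous_const.mul (AVG_cc j))) i
  have r3 := AVG_m4 h1 h2 (fun x => K x * (((Real.sqrt (1 - c ^ 2) : ℝ) : ℂ) ^ 2))
    (hK.mul continuous_const) i j
  have r := AVG_R_add (AVG_R_add (AVG_R_add r0 r1) r2) r3
  convert r using 2 with φ φ
  · rw [AVG_bbc, AVG_bbc]
    linear_combination (K (actU φ (e1 m)) * (c : ℂ) ^ 2 * (starRingEnd ℂ ((actU φ (e1 m)) i) *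
      starRingEnd ℂ ((actU φ (e1 m)) j))) * Complex.I_mul_I
  · ring

private lemma AVG_k2 (c : ℝ) (hc : c ^ 2 ≤ 1) (K : Cn (m + 2) → ℂ) (hK : Continuous K)
    (i j : Fin (m + 2)) :
    AVG_R (fun φ : Un (m + 2) => K (actU φ (e1 m)) * ((actU φ (bb m c)) i *
        starRingEnd ℂ ((actU φ (bb m c)) j)))
      (fun φ => K (actU φ (e1 m)) * ((c : ℂ) ^ 2 * ((actU φ (e1 m)) i *
        starRingEnd ℂ ((actU φ (e1 m)) j)) + (1 - (c : ℂ) ^ 2) * (1 / (m + 1 : ℂ)) *
        ((if i = j then 1 else 0) - (actU φ (e1 m)) i * starRingEnd ℂ ((actU φ (e1 m)) j)))) := by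
  have hs : ((Real.sqrt (1 - c ^ 2) : ℝ) : ℂ) * ((Real.sqrt (1 - c ^ 2) : ℝ) : ℂ)
      = 1 - (c : ℂ) ^ 2 := by
    rw [← Complex.ofReal_mul, Real.mul_self_sqrt (by linarith)]
    push_cast
    rfl
  have r0 := AVG_refl h1 (fun x => K x * ((c : ℂ) ^ 2 * (x i *
    starRingEnd ℂ (x j)))) (hK.mul (continuous_const.mul ((AVG_ci i).mul (AVG_cc j))))
  have r1 := AVG_m2 h1 h2 (fun x => K x * ((Complex.I * c * ((Real.sqrt (1 - c ^ 2) : ℝ) : ℂ)) *
    x i)) (hK.mul (continuous_const.mul (AVG_ci i))) j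
  have r2 := AVG_m1 h1 h2 (fun x => K x * (-(Complex.I * c * ((Real.sqrt (1 - c ^ 2) : ℝ) : ℂ)) *
    starRingEnd ℂ (x j))) (hK.mul (continuous_const.mul (AVG_cc j))) i
  have r3 := AVG_m5 h1 h2 (fun x => K x * (1 - (c : ℂ) ^ 2))
    (hK.mul continuous_const) i j
  have r := AVG_R_add (AVG_R_add (AVG_R_add r0 r1) r2) r3
  convert r using 2 with φ φ
  · rw [AVG_bb, AVG_bbc]
    linear_combination (-(K (actU φ (e1 m)) * (c : ℂ) ^ 2 * ((actU φ (e1 m)) i *
      starRingEnd ℂ ((actU φ (e1 m)) j)))) * Complex.I_mul_I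
      + (K (actU φ (e1 m)) * ((actU φ (e2 m)) i * starRingEnd ℂ ((actU φ (e2 m)) j))) * hs
  · ring

end

theorem t_AVG (h1 : S_HAA) (h2 : S_MOM) : S_AVG := by
  intro m c hc F hF P
  have key : AVG_R (fun φ : Un (m + 2) => F (actU φ (e1 m)) * D2 P (actU φ (e1 m)) (actU φ (bb m c))
      - F (actU φ (e1 m)) * D1 P (actU φ (e1 m)) (actU φ (e1 m)))
      (fun φ => F (actU φ (e1 m)) * AVG_T c P (actU φ (e1 m))
        - F (actU φ (e1 m)) * D1 P (actU φ (e1 m)) (actU φ (e1 m))) := by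
    have a : AVG_R (fun φ : Un (m + 2) =>
        ∑ i, ∑ j, ((F (actU φ (e1 m)) * ev (dl i (dl j P)) (actU φ (e1 m))) *
            ((actU φ (bb m c)) i * (actU φ (bb m c)) j)
          + (F (actU φ (e1 m)) * (2 * ev (dl i (dr j P)) (actU φ (e1 m)))) *
            ((actU φ (bb m c)) i * starRingEnd ℂ ((actU φ (bb m c)) j))
          + (F (actU φ (e1 m)) * ev (dr i (dr j P)) (actU φ (e1 m))) *
            (starRingEnd ℂ ((actU φ (bb m c)) i) * starRingEnd ℂ ((actU φ (bb m c)) j))))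
        (fun φ => ∑ i, ∑ j, ((F (actU φ (e1 m)) * ev (dl i (dl j P)) (actU φ (e1 m))) *
            (-(c : ℂ) ^ 2 * ((actU φ (e1 m)) i * (actU φ (e1 m)) j))
          + (F (actU φ (e1 m)) * (2 * ev (dl i (dr j P)) (actU φ (e1 m)))) *
            ((c : ℂ) ^ 2 * ((actU φ (e1 m)) i *
        starRingEnd ℂ ((actU φ (e1 m)) j)) + (1 - (c : ℂ) ^ 2) * (1 / (m + 1 : ℂ)) *
        ((if i = j then 1 else 0) - (actU φ (e1 m)) i * starRingEnd ℂ ((actU φ (e1 m)) j)))
          + (F (actU φ (e1 m)) * ev (dr i (dr j P)) (actU φ (e1 m))) *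
            (-(c : ℂ) ^ 2 * (starRingEnd ℂ ((actU φ (e1 m)) i) *
        starRingEnd ℂ ((actU φ (e1 m)) j))))) := by
      refine AVG_R_sum _ _ _ fun i _ => AVG_R_sum _ _ _ fun j _ => ?_
      refine AVG_R_add (AVG_R_add ?_ ?_) ?_
      · exact AVG_k1 h1 h2 c (fun x => F x * ev (dl i (dl j P)) x) (hF.mul (AVG_ev _)) i j
      · exact AVG_k2 h1 h2 c hc (fun x => F x * (2 * ev (dl i (dr j P)) x))
          (hF.mul (continuous_const.mul (AVG_ev _))) i j
      · exact AVG_k3 h1 h2 c (fun x => F x * ev (dr i (dr j P)) x) (hF.mul (AVG_ev _)) i j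
    have b := AVG_refl h1 (fun x => -(F x * (ev (EL P) x + ev (ER P) x)))
      (hF.mul ((AVG_ev _).add (AVG_ev _))).neg
    have r := AVG_R_add a b
    convert r using 2 with φ φ
    · rw [AVG_D1, sub_eq_add_neg, D2, Finset.mul_sum]
      congr 1
      refine Finset.sum_congr rfl fun i _ => ?_
      rw [Finset.mul_sum]
      refine Finset.sum_congr rfl fun j _ => ?_
      ring
    · rw [AVG_D1, sub_eq_add_neg, AVG_T, Finset.mul_sum]
      congr 1
      refine Finset.sum_congr rfl fun i _ => ?_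
      rw [Finset.mul_sum]
      refine Finset.sum_congr rfl fun j _ => ?_
      ring
  have e : ∀ φ : Un (m + 2), F (actU φ (e1 m)) * AVG_T c P (actU φ (e1 m))
        - F (actU φ (e1 m)) * D1 P (actU φ (e1 m)) (actU φ (e1 m))
      = -(F (actU φ (e1 m)) * ev (DO m c P) (actU φ (e1 m))) := by
    intro φ
    rw [← mul_sub, AVG_alg, mul_neg]
  rw [← integral_neg]
  simp_rw [← e, mul_sub]
  exact key.2.2

end H829KB
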