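import Pool.Agent.H829R2.KB.Defs

set_option autoImplicit false

open MeasureTheory Filter Topology Module
open scoped Pointwise ENNReal
open Pool.Agent.Results.MP_6cdc09_gt.AlmostComplex

namespace H829KB

/-- the coordinate functions on the sphere -/
noncomputable def DEN_c (m : ℕ) (i : Fin (m + 2)) : C(Metric.sphere (0 : Cn (m + 2)) 1, ℂ) :=
  ⟨fun x => (x : Cn (m + 2)) i, by fun_prop⟩

/-- the coordinate functions on the sphere and their conjugates -/
noncomputable def DEN_g (m : ℕ) : Fin (m + 2) ⊕ Fin (m + 2) →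
    C(Metric.sphere (0 : Cn (m + 2)) 1, ℂ) :=
  Sum.elim (DEN_c m) (fun i => star (DEN_c m i))

theorem DEN_aeval (m : ℕ) (P : Po m) (x : Metric.sphere (0 : Cn (m + 2)) 1) :
    (MvPolynomial.aeval (DEN_g m) P) x = ev P (x : Cn (m + 2)) := by
  induction P using MvPolynomial.induction_on with
  | C a => simp [ev]
  | add p q hp hq =>
    rw [map_add, ContinuousMap.add_apply, hp, hq]
    simp [ev]
  | mul_X p i hp =>
    rw [map_mul, ContinuousMap.mul_apply, hp, MvPolynomial.aeval_X]
    rcases i with i | i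
    · simp [ev, DEN_g, DEN_c]
    · simp [ev, DEN_g, DEN_c]

theorem t_DEN : S_DEN := by
  intro m f hf ε hε
  let A : StarSubalgebra ℂ C(Metric.sphere (0 : Cn (m + 2)) 1, ℂ) :=
    StarAlgebra.adjoin ℂ (Set.range (DEN_c m))
  have hA : A.SeparatesPoints := by
    intro x y hxy
    have h1 : ∃ i, (x : Cn (m + 2)) i ≠ (y : Cn (m + 2)) i := by
      by_contra hcon
      push Not at hcon
      exact hxy (Subtype.ext (by ext i; exact hcon i))
    obtain ⟨i, hi⟩ := h1
    exact ⟨_, ⟨DEN_c m i, StarAlgebra.subset_adjoin ℂ _ ⟨i, rfl⟩, rfl⟩, hi⟩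
  have htop := ContinuousMap.starSubalgebra_topologicalClosure_eq_top_of_separatesPoints A hA
  let F : C(Metric.sphere (0 : Cn (m + 2)) 1, ℂ) :=
    ⟨fun x => ((f x : ℝ) : ℂ), Complex.continuous_ofReal.comp (hf.comp continuous_subtype_val)⟩
  have hF : F ∈ closure (A : Set C(Metric.sphere (0 : Cn (m + 2)) 1, ℂ)) := by
    have h2 : F ∈ A.topologicalClosure := by
      rw [htop]
      exact StarSubalgebra.mem_top
    exact h2
  obtain ⟨a, haA, had⟩ := Metric.mem_closure_iff.1 hF ε hε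
  have h3 : a ∈ Algebra.adjoin ℂ (Set.range (DEN_g m)) := by
    have h4 : a ∈ A.toSubalgebra := haA
    rw [StarAlgebra.adjoin_toSubalgebra] at h4
    refine Algebra.adjoin_mono ?_ h4
    rintro b (⟨i, rfl⟩ | hb)
    · exact ⟨Sum.inl i, rfl⟩
    · obtain ⟨i, hi⟩ := Set.mem_star.1 hb
      refine ⟨Sum.inr i, ?_⟩
      show star (DEN_c m i) = b
      rw [hi, star_star]
  rw [Algebra.adjoin_range_eq_range_aeval] at h3
  obtain ⟨P, hP⟩ := h3
  refine ⟨P, fun x hx => ?_⟩
  let x' : Metric.sphere (0 : Cn (m + 2)) 1 := ⟨x, by simpa using hx⟩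
  have h5 : a x' = ev P x := by
    rw [← hP]
    exact DEN_aeval m P x'
  have h6 := ContinuousMap.dist_apply_le_dist (f := F) (g := a) x'
  rw [dist_eq_norm, h5] at h6
  exact lt_of_le_of_lt h6 had

end H829KB
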