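import Pool.Agent.H829R2.KB.Defs

set_option autoImplicit false

open MeasureTheory Filter Topology Module
open scoped Pointwise ENNReal
open Pool.Agent.Results.MP_6cdc09_gt.AlmostComplex

namespace H829KB

/-- scaling of the first coordinate -/
noncomputable def ELL_S (m : ℕ) (c : ℝ) : Cn (m + 2) →ₗ[ℝ] Cn (m + 2) where
  toFun x := WithLp.toLp 2 (fun i => if i = 0 then c • x i else x i)
  map_add' x y := by
    ext i
    by_cases hi : i = 0
    · simp [hi]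
      try ring
    · simp [hi]
  map_smul' r x := by
    ext i
    by_cases hi : i = 0
    · simp [hi]
      try ring
    · simp [hi]

theorem ELL_S0 (m : ℕ) (c : ℝ) (x : Cn (m + 2)) : ELL_S m c x 0 = c • x 0 := by
  simp [ELL_S]

theorem ELL_S1 (m : ℕ) (c : ℝ) (x : Cn (m + 2)) (i : Fin (m + 1)) : ELL_S m c x i.succ = x i.succ := by
  simp [ELL_S, Fin.succ_ne_zero]

theorem ELL_norm (m : ℕ) (c : ℝ) (x : Cn (m + 2)) :
    ‖ELL_S m c x‖ ^ 2 = ‖x‖ ^ 2 + (c ^ 2 - 1) * ‖x 0‖ ^ 2 := by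
  rw [EuclideanSpace.norm_sq_eq, EuclideanSpace.norm_sq_eq,
    Fin.sum_univ_succ (fun i => ‖(ELL_S m c x) i‖ ^ 2), Fin.sum_univ_succ (fun i => ‖x i‖ ^ 2),
    ELL_S0]
  simp only [ELL_S1]
  rw [norm_smul, mul_pow, Real.norm_eq_abs, sq_abs]
  ring

theorem ELL_inner (m : ℕ) (c : ℝ) (x y : Cn (m + 2)) :
    (inner ℝ (ELL_S m c x) y : ℝ) = inner ℝ x (ELL_S m c y) := by
  rw [PiLp.inner_apply, PiLp.inner_apply,
    Fin.sum_univ_succ (fun i => (inner ℝ ((ELL_S m c x) i) (y i) : ℝ)),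
    Fin.sum_univ_succ (fun i => (inner ℝ (x i) ((ELL_S m c y) i) : ℝ)), ELL_S0, ELL_S0]
  simp only [ELL_S1]
  rw [real_inner_smul_left, real_inner_smul_right]

theorem ELL_comp (m : ℕ) (c d : ℝ) (h : c * d = 1) (x : Cn (m + 2)) :
    ELL_S m c (ELL_S m d x) = x := by
  ext i
  refine Fin.cases ?_ (fun j => ?_) i
  · rw [ELL_S0, ELL_S0, smul_smul, h, one_smul]
  · rw [ELL_S1, ELL_S1]

/-- ELL -/
theorem t_ELL : S_ELL := by
  intro m τ hτ
  set σ := Real.sqrt (1 + τ) with hσ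
  have hσ0 : 0 < σ := Real.sqrt_pos.2 (by linarith)
  have hσ2 : σ ^ 2 = 1 + τ := Real.sq_sqrt (by linarith)
  have h1 : σ * σ⁻¹ = 1 := mul_inv_cancel₀ hσ0.ne'
  have h2 : σ⁻¹ * σ = 1 := inv_mul_cancel₀ hσ0.ne'
  have hmem : ∀ x : Cn (m + 2), x ∈ Ell m τ ↔ ‖ELL_S m σ⁻¹ x‖ ≤ 1 := by
    intro x
    rw [← sq_le_one_iff₀ (norm_nonneg _), ELL_norm, inv_pow, hσ2]
    unfold Ell
    rw [Set.mem_setOf_eq]
    have e : (1 + τ)⁻¹ - 1 = -(τ / (1 + τ)) := by
      have : (1 + τ) ≠ 0 := by positivity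
      field_simp
      ring
    rw [e]
    constructor <;> intro h <;> linarith
  have hEll : Ell m τ = (ELL_S m σ⁻¹) ⁻¹' Metric.closedBall 0 1 := by
    ext x
    rw [hmem, Set.mem_preimage, mem_closedBall_zero_iff]
  have hcont : ∀ c : ℝ, Continuous (ELL_S m c) := fun c => LinearMap.continuous_of_finiteDimensional _
  have himg : Ell m τ = (ELL_S m σ) '' Metric.closedBall 0 1 := by
    ext x
    rw [hmem]
    constructor
    · intro h
      exact ⟨ELL_S m σ⁻¹ x, mem_closedBall_zero_iff.2 h, ELL_comp m σ σ⁻¹ h1 x⟩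
    · rintro ⟨y, hy, rfl⟩
      rw [ELL_comp m σ⁻¹ σ h2]
      exact mem_closedBall_zero_iff.1 hy
  have hB : B0 (Ell m τ) := by
    refine ⟨?_, ?_, ?_⟩
    · rw [himg]
      exact (isCompact_closedBall _ _).image (hcont _)
    · rw [hEll]
      exact (convex_closedBall (0 : Cn (m + 2)) 1).linear_preimage (ELL_S m σ⁻¹)
    · refine mem_interior.2 ⟨(ELL_S m σ⁻¹) ⁻¹' Metric.ball 0 1, ?_,
        Metric.isOpen_ball.preimage (hcont _), ?_⟩
      · rw [hEll]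
        exact Set.preimage_mono Metric.ball_subset_closedBall
      · rw [Set.mem_preimage, map_zero]
        exact Metric.mem_ball_self one_pos
  refine ⟨hB, fun u => ?_⟩
  have hn : Real.sqrt (‖u‖ ^ 2 + τ * ‖u 0‖ ^ 2) = ‖ELL_S m σ u‖ := by
    rw [← Real.sqrt_sq (norm_nonneg (ELL_S m σ u)), ELL_norm, hσ2]
    congr 2
    ring
  rw [hn]
  have key : ∀ x : Cn (m + 2), (inner ℝ u x : ℝ) = inner ℝ (ELL_S m σ u) (ELL_S m σ⁻¹ x) := by
    intro x
    rw [ELL_inner, ELL_comp m σ σ⁻¹ h1]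
  have hg : IsGreatest ((fun x => (inner ℝ u x : ℝ)) '' Ell m τ) ‖ELL_S m σ u‖ := by
    constructor
    · by_cases h0 : ELL_S m σ u = 0
      · refine ⟨0, interior_subset hB.2.2, ?_⟩
        simp only [inner_zero_right, h0, norm_zero]
      · have hpos : 0 < ‖ELL_S m σ u‖ := norm_pos_iff.2 h0
        refine ⟨ELL_S m σ (‖ELL_S m σ u‖⁻¹ • ELL_S m σ u), ?_, ?_⟩
        · rw [hmem, ELL_comp m σ⁻¹ σ h2, norm_smul, norm_inv, norm_norm,
            inv_mul_cancel₀ hpos.ne']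
        · show (inner ℝ u (ELL_S m σ (‖ELL_S m σ u‖⁻¹ • ELL_S m σ u)) : ℝ) = _
          rw [key, ELL_comp m σ⁻¹ σ h2, real_inner_smul_right, real_inner_self_eq_norm_sq, sq,
            ← mul_assoc, inv_mul_cancel₀ hpos.ne', one_mul]
    · rintro _ ⟨x, hx, rfl⟩
      show (inner ℝ u x : ℝ) ≤ _
      rw [key]
      refine (real_inner_le_norm _ _).trans ?_
      exact mul_le_of_le_one_right (norm_nonneg _) ((hmem x).1 hx)
  exact hg.csSup_eq

end H829KB
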