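import Pool.Agent.H829R2.KB.Defs

set_option autoImplicit false

open MeasureTheory Filter Topology Module
open scoped Pointwise ENNReal
open Pool.Agent.Results.MP_6cdc09_gt.AlmostComplex

namespace H829KB

theorem FAI_norm {n : ℕ} (φ : Un n) (x : Cn n) : ‖actU φ x‖ = ‖x‖ := (isoU φ).norm_map x

theorem FAI_int {n : ℕ} (F : Un n → ℝ) (hF : Continuous F) : Integrable F (haarU n) :=
  hF.integrable_of_hasCompactSupport (HasCompactSupport.of_compactSpace F)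

theorem FAI_sqrt (τ x y : ℝ) (hτ : 0 < τ) (hx : 0 ≤ x) (hx1 : x ≤ 1) (hy : 0 ≤ y) (hy1 : y ≤ 1) :
    (Real.sqrt (1 + τ * x) - Real.sqrt (1 + τ * y)) ^ 2 ≤ τ ^ 2 / 4 * (x - y) ^ 2 ∧
    τ ^ 2 / (4 * (1 + τ)) * (x - y) ^ 2 ≤ (Real.sqrt (1 + τ * x) - Real.sqrt (1 + τ * y)) ^ 2 := by
  have p0 := Real.sq_sqrt (show 0 ≤ 1 + τ * x by positivity)
  have q0 := Real.sq_sqrt (show 0 ≤ 1 + τ * y by positivity)
  have p1 : 1 ≤ Real.sqrt (1 + τ * x) := Real.one_le_sqrt.2 (by nlinarith [mul_nonneg hτ.le hx])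
  have q1 : 1 ≤ Real.sqrt (1 + τ * y) := Real.one_le_sqrt.2 (by nlinarith [mul_nonneg hτ.le hy])
  have p2 : Real.sqrt (1 + τ * x) ≤ Real.sqrt (1 + τ) := Real.sqrt_le_sqrt (by nlinarith)
  have q2 : Real.sqrt (1 + τ * y) ≤ Real.sqrt (1 + τ) := Real.sqrt_le_sqrt (by nlinarith)
  have r0 := Real.sq_sqrt (show 0 ≤ 1 + τ by positivity)
  set p := Real.sqrt (1 + τ * x)
  set q := Real.sqrt (1 + τ * y)
  set r := Real.sqrt (1 + τ)
  have e : (p - q) ^ 2 * (p + q) ^ 2 = τ ^ 2 * (x - y) ^ 2 := by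
    have : (p - q) * (p + q) = τ * (x - y) := by nlinarith
    rw [← mul_pow, this, mul_pow]
  have s1 : 4 ≤ (p + q) ^ 2 := by nlinarith
  have s2 : (p + q) ^ 2 ≤ 4 * (1 + τ) := by
    have : p + q ≤ 2 * r := by linarith
    have := pow_le_pow_left₀ (by linarith : 0 ≤ p + q) this 2
    nlinarith
  constructor
  · nlinarith [mul_le_mul_of_nonneg_left s1 (sq_nonneg (p - q))]
  · rw [div_mul_eq_mul_div, ← e, div_le_iff₀ (by positivity)]
    exact mul_le_mul_of_nonneg_left s2 (sq_nonneg (p - q))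

theorem FAI_lin {X : Type} [MeasurableSpace X] (μ : Measure X) [IsProbabilityMeasure μ]
    (F G : X → ℝ) (iF : Integrable F μ) (iG : Integrable G μ) (b c : ℝ) :
    ∫ x, (F x + b * G x + c) ∂μ = (∫ x, F x ∂μ) + b * (∫ x, G x ∂μ) + c := by
  have e1 : ∫ x, (F x + b * G x + c) ∂μ = (∫ x, (F x + b * G x) ∂μ) + ∫ _ : X, c ∂μ :=
    integral_add (iF.add (iG.const_mul b)) (integrable_const c)
  have e2 : ∫ x, (F x + b * G x) ∂μ = (∫ x, F x ∂μ) + ∫ x, b * G x ∂μ :=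
    integral_add iF (iG.const_mul b)
  rw [e1, e2, integral_const_mul]
  simp

theorem FAI_var {X : Type} [MeasurableSpace X] (μ : Measure X) [IsProbabilityMeasure μ]
    (g : X → ℝ) (τ : ℝ) (hτ : 0 < τ) (g0 : ∀ x, 0 ≤ g x) (g1 : ∀ x, g x ≤ 1)
    (ig : Integrable g μ) (ig2 : Integrable (fun x => g x ^ 2) μ)
    (ih : Integrable (fun x => Real.sqrt (1 + τ * g x)) μ)
    (ih2 : Integrable (fun x => Real.sqrt (1 + τ * g x) ^ 2) μ) :
    1 ≤ ∫ x, Real.sqrt (1 + τ * g x) ∂μ ∧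
    τ ^ 2 / (4 * (1 + τ)) * ((∫ x, g x ^ 2 ∂μ) - (∫ x, g x ∂μ) ^ 2) ≤
      (∫ x, Real.sqrt (1 + τ * g x) ^ 2 ∂μ) - (∫ x, Real.sqrt (1 + τ * g x) ∂μ) ^ 2 := by
  set q := ∫ x, Real.sqrt (1 + τ * g x) ∂μ with hq
  have q1 : 1 ≤ q := by
    have : ∫ _ : X, (1 : ℝ) ∂μ ≤ q := by
      refine integral_mono (integrable_const _) ih fun x => ?_
      exact Real.one_le_sqrt.2 (by nlinarith [mul_nonneg hτ.le (g0 x)])
    simpa using this
  have q2 : q ≤ Real.sqrt (1 + τ) := by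
    have : q ≤ ∫ _ : X, Real.sqrt (1 + τ) ∂μ := by
      refine integral_mono ih (integrable_const _) fun x => ?_
      exact Real.sqrt_le_sqrt (by nlinarith [g1 x])
    simpa using this
  have q3 : q ^ 2 ≤ 1 + τ := by
    have := pow_le_pow_left₀ (by linarith : 0 ≤ q) q2 2
    rwa [Real.sq_sqrt (by positivity)] at this
  refine ⟨q1, ?_⟩
  set y := (q ^ 2 - 1) / τ with hy
  have y0 : 0 ≤ y := div_nonneg (by nlinarith) hτ.le
  have y1 : y ≤ 1 := by rw [hy, div_le_one hτ]; linarith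
  have ys : Real.sqrt (1 + τ * y) = q := by
    have : 1 + τ * y = q ^ 2 := by rw [hy]; field_simp; ring
    rw [this, Real.sqrt_sq (by linarith)]
  have e1 : ∫ x, τ ^ 2 / (4 * (1 + τ)) * (g x - y) ^ 2 ∂μ ≤
      ∫ x, (Real.sqrt (1 + τ * g x) - q) ^ 2 ∂μ := by
    refine integral_mono ?_ ?_ fun x => ?_
    · have : (fun x => τ ^ 2 / (4 * (1 + τ)) * (g x - y) ^ 2) = fun x =>
          τ ^ 2 / (4 * (1 + τ)) * (g x ^ 2 - 2 * y * g x + y ^ 2) := by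
        funext x; ring
      rw [this]
      exact ((ig2.sub (ig.const_mul (2 * y))).add (integrable_const _)).const_mul _
    · have : (fun x => (Real.sqrt (1 + τ * g x) - q) ^ 2) = fun x =>
          Real.sqrt (1 + τ * g x) ^ 2 - 2 * q * Real.sqrt (1 + τ * g x) + q ^ 2 := by
        funext x; ring
      rw [this]
      exact (ih2.sub (ih.const_mul (2 * q))).add (integrable_const _)
    · have := (FAI_sqrt τ (g x) y hτ (g0 x) (g1 x) y0 y1).2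
      rw [ys] at this
      exact this
  have e2 : ∫ x, τ ^ 2 / (4 * (1 + τ)) * (g x - y) ^ 2 ∂μ =
      τ ^ 2 / (4 * (1 + τ)) * ((∫ x, g x ^ 2 ∂μ) - 2 * y * (∫ x, g x ∂μ) + y ^ 2) := by
    rw [integral_const_mul]
    congr 1
    have : (fun x => (g x - y) ^ 2) = fun x => g x ^ 2 + (-(2 * y)) * g x + y ^ 2 := by
      funext x; ring
    rw [this, FAI_lin μ (fun x => g x ^ 2) g ig2 ig]
    ring
  have e3 : ∫ x, (Real.sqrt (1 + τ * g x) - q) ^ 2 ∂μ =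
      (∫ x, Real.sqrt (1 + τ * g x) ^ 2 ∂μ) - q ^ 2 := by
    have : (fun x => (Real.sqrt (1 + τ * g x) - q) ^ 2) = fun x =>
        Real.sqrt (1 + τ * g x) ^ 2 + (-(2 * q)) * Real.sqrt (1 + τ * g x) + q ^ 2 := by
      funext x; ring
    rw [this, FAI_lin μ (fun x => Real.sqrt (1 + τ * g x) ^ 2) (fun x => Real.sqrt (1 + τ * g x))
      ih2 ih, ← hq]
    ring
  rw [e2, e3] at e1
  refine le_trans (mul_le_mul_of_nonneg_left ?_ (by positivity)) e1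
  nlinarith [sq_nonneg ((∫ x, g x ∂μ) - y)]

theorem FAI_st : Tendsto (fun k : ℕ => st (2 ^ k)) atTop (𝓝 0) := by
  unfold st
  exact tendsto_const_nhds.div_atTop (tendsto_natCast_atTop_atTop.comp
    (tendsto_pow_atTop_atTop_of_one_lt one_lt_two))

theorem t_FAI (h1 : S_HS) (h2 : S_HSA) (h3 : S_HAA) (h4 : S_QF) (h5 : S_GDG) (h6 : S_MO4)
    (h7 : S_ELL) (h8 : S_STD) : S_FAI := by
  intro m E a b hE ha hb na nb hab hc hBM
  obtain ⟨hc1, ψ, hψ1, hψ2⟩ := h8 m a b na nb hab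
  have qq := h4 m E a b hE ha hb na nb hab
  generalize (inner ℂ a b : ℂ).im = c at hc hc1 hψ2 qq
  have nee : ∀ t, ‖ee m c t‖ = 1 := by
    intro t
    have e : actU ψ (ee m c t) = Real.cos t • a + Real.sin t • b := by
      rw [← hψ1, ← hψ2, ← act_apply, ← act_apply, ← act_apply]
      unfold ee
      rw [map_add, map_smul, map_smul]
    rw [← FAI_norm ψ, e]
    have : ‖Real.cos t • a + Real.sin t • b‖ ^ 2 = 1 := by
      rw [norm_add_sq_real, norm_smul, norm_smul, real_inner_smul_left, real_inner_smul_right,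
        hab, na, nb]
      simp
    exact (pow_eq_one_iff_of_nonneg (norm_nonneg _) two_ne_zero).1 this
  have ne1 : ‖e1 m‖ = 1 := by simp [e1]
  have A0 : ∀ φ : Un (m + 2), ‖actU φ (e1 m)‖ = 1 := fun φ => by rw [FAI_norm, ne1]
  have A1 : ∀ (φ : Un (m + 2)) (t : ℝ), ‖actU φ (ee m c t)‖ = 1 := fun φ t => by
    rw [FAI_norm, nee]
  have hs0 : 0 ≤ 1 - c ^ 2 := by linarith
  obtain ⟨τ, hτ, hτ2⟩ : ∃ τ : ℝ, 0 < τ ∧
      2 * ((m : ℝ) + 2) * (1 - c ^ 2) * (1 + τ) < (m : ℝ) + 1 := by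
    have A : 0 ≤ 2 * ((m : ℝ) + 2) * (1 - c ^ 2) := by positivity
    have B : 2 * ((m : ℝ) + 2) * (1 - c ^ 2) < (m : ℝ) + 1 := by nlinarith
    generalize 2 * ((m : ℝ) + 2) * (1 - c ^ 2) = u at A B
    refine ⟨((m : ℝ) + 1 - u) / (u + 1), div_pos (by linarith) (by linarith), ?_⟩
    have : u * (((m : ℝ) + 1 - u) / (u + 1)) < (m : ℝ) + 1 - u := by
      rw [mul_div_assoc', div_lt_iff₀ (by linarith)]
      nlinarith
    linarith
  obtain ⟨K0, hK⟩ := h7 m 0 le_rfl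
  obtain ⟨L0, hL⟩ := h7 m τ hτ.le
  obtain ⟨KL0, hKL⟩ := h2 (Ell m 0) (Ell m τ) K0 L0
  have kval : ∀ u : Cn (m + 2), ‖u‖ = 1 → hs (Ell m 0) u = 1 := by
    intro u hu; rw [hK, hu]; simp
  have lval : ∀ u : Cn (m + 2), ‖u‖ = 1 →
      hs (Ell m τ) u = Real.sqrt (1 + τ * ‖u 0‖ ^ 2) := by
    intro u hu; rw [hL, hu]; norm_num
  have g01 : ∀ u : Cn (m + 2), ‖u‖ = 1 → ‖u 0‖ ^ 2 ≤ 1 := by
    intro u hu
    have := PiLp.norm_apply_le u 0
    rw [hu] at this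
    exact pow_le_one₀ (norm_nonneg _) this
  have cont : Continuous (hs (Ell m τ)) := (h1 _ L0).1
  have cg : Continuous fun x : Cn (m + 2) => ‖x 0‖ ^ 2 := by fun_prop
  have ca : ∀ x : Cn (m + 2), Continuous fun φ : Un (m + 2) => actU φ x := (h3 (m + 2)).2.2.2
  have qK := qq (Ell m 0) K0
  have qL := qq (Ell m τ) L0
  have qKL := qq (Ell m 0 + Ell m τ) KL0
  have m2K : M2 (hs (Ell m 0)) = 1 := by
    unfold M2
    simp only [kval _ (A0 _)]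
    simp
  have gdK : ∀ t, GD c t (hs (Ell m 0)) = 0 := by
    intro t
    unfold GD
    simp only [kval _ (A0 _), kval _ (A1 _ _)]
    simp
  have VK : V E (Ell m 0) = Real.pi := by
    refine tendsto_nhds_unique qK ?_
    simp only [m2K, gdK]
    simp
  have i1 : Integrable (fun φ : Un (m + 2) => hs (Ell m τ) (actU φ (e1 m))) (haarU _) :=
    FAI_int _ (cont.comp (ca _))
  have i2 : Integrable (fun φ : Un (m + 2) => hs (Ell m τ) (actU φ (e1 m)) ^ 2) (haarU _) :=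
    FAI_int _ ((cont.comp (ca _)).pow 2)
  have m2KL : M2 (hs (Ell m 0 + Ell m τ)) =
      1 + 2 * M1 (hs (Ell m τ)) + M2 (hs (Ell m τ)) := by
    unfold M2 M1
    simp only [hKL, kval _ (A0 _)]
    have : (fun φ : Un (m + 2) => (1 + hs (Ell m τ) (actU φ (e1 m))) ^ 2) = fun φ =>
        hs (Ell m τ) (actU φ (e1 m)) ^ 2 + 2 * hs (Ell m τ) (actU φ (e1 m)) + 1 := by
      funext φ; ring
    rw [this, FAI_lin (haarU (m + 2)) (fun φ => hs (Ell m τ) (actU φ (e1 m)) ^ 2)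
      (fun φ => hs (Ell m τ) (actU φ (e1 m))) i2 i1]
    ring
  have gdKL : ∀ t, GD c t (hs (Ell m 0 + Ell m τ)) = GD c t (hs (Ell m τ)) := by
    intro t
    unfold GD
    simp only [hKL, kval _ (A0 _), kval _ (A1 _ _)]
    congr 1
    funext φ
    ring
  have VKL : V E (Ell m 0 + Ell m τ) =
      (Real.pi + 2 * Real.pi * M1 (hs (Ell m τ))) + V E (Ell m τ) := by
    refine tendsto_nhds_unique qKL ?_
    refine (qL.const_add (Real.pi + 2 * Real.pi * M1 (hs (Ell m τ)))).congr fun k => ?_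
    rw [m2KL, gdKL]; ring
  -- the variance
  have ig : Integrable (fun φ : Un (m + 2) => ‖(actU φ (e1 m)) 0‖ ^ 2) (haarU _) :=
    FAI_int _ (cg.comp (ca _))
  have ig2 : Integrable (fun φ : Un (m + 2) => (‖(actU φ (e1 m)) 0‖ ^ 2) ^ 2) (haarU _) :=
    FAI_int _ ((cg.comp (ca _)).pow 2)
  have hv := FAI_var (haarU (m + 2)) (fun φ => ‖(actU φ (e1 m)) 0‖ ^ 2) τ hτ
    (fun φ => by positivity) (fun φ => g01 _ (A0 φ)) ig ig2
    (by simpa only [lval _ (A0 _)] using i1) (by simpa only [lval _ (A0 _)] using i2)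
  have m1e : M1 (hs (Ell m τ)) =
      ∫ φ : Un (m + 2), Real.sqrt (1 + τ * ‖(actU φ (e1 m)) 0‖ ^ 2) ∂(haarU _) := by
    unfold M1
    simp only [lval _ (A0 _)]
  have m2e : M2 (hs (Ell m τ)) =
      ∫ φ : Un (m + 2), Real.sqrt (1 + τ * ‖(actU φ (e1 m)) 0‖ ^ 2) ^ 2 ∂(haarU _) := by
    unfold M2
    simp only [lval _ (A0 _)]
  rw [← m1e, ← m2e] at hv
  obtain ⟨mo1, mo2, -⟩ := h6 m
  have mo2' : ∫ φ : Un (m + 2), (‖(actU φ (e1 m)) 0‖ ^ 2) ^ 2 ∂(haarU _) =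
      2 / (((m : ℝ) + 2) * ((m : ℝ) + 3)) := by
    rw [← mo2]
    congr 1
    funext φ
    ring
  rw [mo1, mo2'] at hv
  obtain ⟨hM, hv⟩ := hv
  -- the difference form
  obtain ⟨C, hC⟩ := h5 m c hc1
  have gdle : ∀ t, GD c t (hs (Ell m τ)) ≤ τ ^ 2 / 4 * GD (m := m) c t (fun x => ‖x 0‖ ^ 2) := by
    intro t
    unfold GD
    rw [← integral_const_mul]
    refine integral_mono (FAI_int _ (((cont.comp (ca _)).sub (cont.comp (ca _))).pow 2))
      ((FAI_int _ (((cg.comp (ca _)).sub (cg.comp (ca _))).pow 2)).const_mul _) fun φ => ?_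
    show (hs (Ell m τ) (actU φ (ee m c t)) - hs (Ell m τ) (actU φ (e1 m))) ^ 2 ≤ _
    rw [lval _ (A0 _), lval _ (A1 _ _)]
    exact (FAI_sqrt τ _ _ hτ (by positivity) (g01 _ (A1 φ t)) (by positivity) (g01 _ (A0 φ))).1
  have VL : Real.pi * (M2 (hs (Ell m τ)) -
      τ ^ 2 / 4 * (2 * (1 - c ^ 2) / (((m : ℝ) + 2) * ((m : ℝ) + 3)))) ≤ V E (Ell m τ) := by
    have l1 : Tendsto (fun k : ℕ => Real.pi * (M2 (hs (Ell m τ)) -
      τ ^ 2 / 4 * (2 * (1 - c ^ 2) / (((m : ℝ) + 2) * ((m : ℝ) + 3)) + C * st (2 ^ k) ^ 2))) atTop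
      (𝓝 (Real.pi * (M2 (hs (Ell m τ)) -
      τ ^ 2 / 4 * (2 * (1 - c ^ 2) / (((m : ℝ) + 2) * ((m : ℝ) + 3)) + C * 0 ^ 2)))) :=
      ((((FAI_st.pow 2).const_mul C).const_add _).const_mul _).const_sub _ |>.const_mul _
    simp only [ne_eq, OfNat.ofNat_ne_zero, not_false_eq_true, zero_pow, mul_zero, add_zero] at l1
    refine le_of_tendsto_of_tendsto' l1 qL fun k => ?_
    have d0 : 0 < st (2 ^ k) := by unfold st; positivity
    generalize st (2 ^ k) = d at d0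
    refine mul_le_mul_of_nonneg_left ?_ Real.pi_pos.le
    have := (gdle d).trans (mul_le_mul_of_nonneg_left (hC d) (by positivity : 0 ≤ τ ^ 2 / 4))
    have : GD c d (hs (Ell m τ)) / d ^ 2 ≤
        τ ^ 2 / 4 * (2 * (1 - c ^ 2) / (((m : ℝ) + 2) * ((m : ℝ) + 3)) + C * d ^ 2) := by
      rw [div_le_iff₀ (by positivity)]
      refine this.trans (le_of_eq ?_)
      ring
    linarith
  -- Brunn-Minkowski
  have hbm := hBM (Ell m 0) (Ell m τ) ⟨K0.1, K0.2.1, ⟨0, K0.2.2⟩⟩ ⟨L0.1, L0.2.1, ⟨0, L0.2.2⟩⟩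
  unfold BMineq at hbm
  rw [hE] at hbm
  have e2 : (1 / ((2 : ℕ) : ℝ)) = 1 / 2 := by norm_num
  rw [e2, ← Real.sqrt_eq_rpow, ← Real.sqrt_eq_rpow, ← Real.sqrt_eq_rpow, VK, VKL] at hbm
  have v0 : 0 ≤ V E (Ell m τ) := V_nonneg _ _
  set M := M1 (hs (Ell m τ)) with hMdef
  have up : V E (Ell m τ) ≤ Real.pi * M ^ 2 := by
    have a1 := Real.sq_sqrt Real.pi_pos.le
    have a2 := Real.sq_sqrt v0
    have a3 : 0 < Real.sqrt Real.pi := Real.sqrt_pos.2 Real.pi_pos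
    have a4 := Real.sqrt_nonneg (V E (Ell m τ))
    have a5 := pow_le_pow_left₀ (by positivity) hbm 2
    rw [Real.sq_sqrt (by have := Real.pi_pos; positivity)] at a5
    set sp := Real.sqrt Real.pi
    set sv := Real.sqrt (V E (Ell m τ))
    have a6 : sp * sv ≤ sp * (sp * M) := by nlinarith
    have a7 : sv ≤ sp * M := le_of_mul_le_mul_left a6 a3
    have a8 := pow_le_pow_left₀ a4 a7 2
    rw [mul_pow, a1, a2] at a8
    exact a8
  have fin1 : M2 (hs (Ell m τ)) - τ ^ 2 / 4 * (2 * (1 - c ^ 2) / (((m : ℝ) + 2) * ((m : ℝ) + 3)))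
      ≤ M ^ 2 := le_of_mul_le_mul_left (VL.trans up) Real.pi_pos
  have fin2 : τ ^ 2 / (4 * (1 + τ)) * (2 / (((m : ℝ) + 2) * ((m : ℝ) + 3)) - (1 / ((m : ℝ) + 2)) ^ 2)
      ≤ τ ^ 2 / 4 * (2 * (1 - c ^ 2) / (((m : ℝ) + 2) * ((m : ℝ) + 3))) := by linarith
  have fin3 : 2 / (((m : ℝ) + 2) * ((m : ℝ) + 3)) - (1 / ((m : ℝ) + 2)) ^ 2 =
      ((m : ℝ) + 1) / (((m : ℝ) + 2) ^ 2 * ((m : ℝ) + 3)) := by
    field_simp
    ring
  rw [fin3] at fin2
  have fin4 : ((m : ℝ) + 1) ≤ 2 * ((m : ℝ) + 2) * (1 - c ^ 2) * (1 + τ) := by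
    have l : τ ^ 2 / (4 * (1 + τ)) * (((m : ℝ) + 1) / (((m : ℝ) + 2) ^ 2 * ((m : ℝ) + 3))) =
        τ ^ 2 / (4 * (1 + τ) * (((m : ℝ) + 2) ^ 2 * ((m : ℝ) + 3))) * ((m : ℝ) + 1) := by
      field_simp
    have r : τ ^ 2 / 4 * (2 * (1 - c ^ 2) / (((m : ℝ) + 2) * ((m : ℝ) + 3))) =
        τ ^ 2 / (4 * (1 + τ) * (((m : ℝ) + 2) ^ 2 * ((m : ℝ) + 3))) *
          (2 * ((m : ℝ) + 2) * (1 - c ^ 2) * (1 + τ)) := by
      field_simp
    rw [l, r] at fin2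
    exact le_of_mul_le_mul_left fin2 (by positivity)
  linarith

end H829KB
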