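import Pool.Agent.H829R2.KB.Defs

set_option autoImplicit false

open MeasureTheory Filter Topology Module
open scoped Pointwise ENNReal
open Pool.Agent.Results.MP_6cdc09_gt.AlmostComplex

namespace H829KB

lemma GAP_ev_cont {m : ℕ} (P : Po m) : Continuous (fun x : Cn (m + 2) => ev P x) := by
  unfold ev
  refine (MvPolynomial.continuous_eval P).comp ?_
  refine continuous_pi fun s => ?_
  cases s with
  | inl i => simp only [Sum.elim_inl]; fun_prop
  | inr i => simp only [Sum.elim_inr]; exact Complex.continuous_conj.comp (by fun_prop)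

lemma GAP_conj_cont {m : ℕ} (P : Po m) :
    Continuous (fun x : Cn (m + 2) => starRingEnd ℂ (ev P x)) :=
  Complex.continuous_conj.comp (GAP_ev_cont P)

/-- the continuous function on the group -/
noncomputable def GAP_cm (m : ℕ) (hX : Continuous fun φ : Un (m + 2) => actU φ (e1 m)) :
    Po m →ₗ[ℂ] C(Un (m + 2), ℂ) where
  toFun P := ⟨fun φ => ev P (actU φ (e1 m)), (GAP_ev_cont P).comp hX⟩
  map_add' P Q := by
    ext φ
    simp [ev]
  map_smul' z P := by
    ext φ
    simp [ev, MvPolynomial.smul_eval]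

noncomputable def GAP_J (m : ℕ) (hX : Continuous fun φ : Un (m + 2) => actU φ (e1 m)) :
    Po m →ₗ[ℂ] Lp ℂ 2 (haarU (m + 2)) :=
  (ContinuousMap.toLp (E := ℂ) 2 (haarU (m + 2)) ℂ).toLinearMap ∘ₗ GAP_cm m hX

lemma GAP_inner (m : ℕ) (hX : Continuous fun φ : Un (m + 2) => actU φ (e1 m)) (P Q : Po m) :
    (inner ℂ (GAP_J m hX P) (GAP_J m hX Q) : ℂ) =
      ∫ φ : Un (m + 2), starRingEnd ℂ (ev P (actU φ (e1 m))) * ev Q (actU φ (e1 m))
        ∂(haarU (m + 2)) := by
  have h := ContinuousMap.inner_toLp (𝕜 := ℂ) (haarU (m + 2)) (GAP_cm m hX P) (GAP_cm m hX Q)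
  refine h.trans ?_
  refine integral_congr_ae (Filter.Eventually.of_forall fun φ => ?_)
  exact mul_comm _ _

lemma GAP_GB_conj {m : ℕ} (c t : ℝ) (P Q : Po m) :
    GB c t (fun x => starRingEnd ℂ (ev P x)) (ev Q) =
      starRingEnd ℂ (GB c t (fun x => starRingEnd ℂ (ev Q x)) (ev P)) := by
  unfold GB
  rw [← integral_conj]
  refine integral_congr_ae (Filter.Eventually.of_forall fun φ => ?_)
  simp only [map_mul, map_sub, Complex.conj_conj]
  ring

lemma GAP_symm (h2 : S_LIM) (m : ℕ) (c : ℝ) (hc : c ^ 2 ≤ 1) (P Q : Po m) :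
    ∫ φ : Un (m + 2), starRingEnd ℂ (ev P (actU φ (e1 m))) * ev (DO m c Q) (actU φ (e1 m))
        ∂(haarU (m + 2)) =
    ∫ φ : Un (m + 2), starRingEnd ℂ (ev (DO m c P) (actU φ (e1 m))) * ev Q (actU φ (e1 m))
        ∂(haarU (m + 2)) := by
  have a1 := h2 m c hc (fun x => starRingEnd ℂ (ev P x)) (GAP_conj_cont P) Q
  have a2 := h2 m c hc (fun x => starRingEnd ℂ (ev Q x)) (GAP_conj_cont Q) P
  have a3 := (Complex.continuous_conj.tendsto _).comp a2
  have a4 : Tendsto (fun t : ℝ => GB c t (fun x => starRingEnd ℂ (ev P x)) (ev Q) / (t : ℂ) ^ 2)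
      (𝓝[>] 0) (𝓝 (starRingEnd ℂ (∫ φ : Un (m + 2),
        starRingEnd ℂ (ev Q (actU φ (e1 m))) * ev (DO m c P) (actU φ (e1 m))
          ∂(haarU (m + 2))))) := by
    refine a3.congr fun t => ?_
    simp only [Function.comp]
    rw [map_div₀, map_pow, Complex.conj_ofReal, GAP_GB_conj, Complex.conj_conj]
  rw [tendsto_nhds_unique a1 a4, ← integral_conj]
  refine integral_congr_ae (Filter.Eventually.of_forall fun φ => ?_)
  simp only [map_mul, Complex.conj_conj]
  ring

theorem t_GAP (h1 : S_HAA) (h2 : S_LIM) (h3 : S_LAB) (h4 : S_MON) (h5 : S_ABS) : S_GAP := by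
  intro m c hc hlab P hP
  have hX : Continuous fun φ : Un (m + 2) => actU φ (e1 m) := (h1 (m + 2)).2.2.2 (e1 m)
  have key := h5 (Lp ℂ 2 (haarU (m + 2))) (Po m) (GAP_J m hX) (DO m c) (UU m) 1 (SL m c)
    (fun P Q => by rw [GAP_inner, GAP_inner]; exact GAP_symm h2 m c hc P Q)
    (fun k => by infer_instance)
    (fun k => by
      intro Q hQ
      rw [MvPolynomial.mem_restrictTotalDegree] at hQ ⊢
      omega)
    (fun k => (h4 m c k).1)
    (fun Q hQ => by
      rw [MvPolynomial.mem_restrictTotalDegree] at hQ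
      have h0 : Q.totalDegree = 0 := by omega
      rw [MvPolynomial.totalDegree_eq_zero_iff_eq_C] at h0
      refine ⟨Q.coeff 0, ?_⟩
      rw [MvPolynomial.smul_eq_C_mul, mul_one]
      exact h0)
    (fun k s hs => by
      unfold SL at hs
      rw [List.mem_map] at hs
      obtain ⟨p, hp, rfl⟩ := hs
      rw [List.mem_range] at hp
      have := h3 m c hlab p (k + 1 - p) (by omega)
      have e : ((k + 1 - p : ℕ) : ℝ) = ((k + 1 - p : ℕ) : ℝ) := rfl
      exact this)
    (fun k => (h4 m c k).2)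
    P.totalDegree P (by rw [MvPolynomial.mem_restrictTotalDegree])
    (by
      rw [GAP_inner]
      have : ∀ φ : Un (m + 2), starRingEnd ℂ (ev (1 : Po m) (actU φ (e1 m))) *
          ev P (actU φ (e1 m)) = ev P (actU φ (e1 m)) := by
        intro φ
        simp [ev]
      simp only [this]
      exact hP)
  rw [GAP_inner] at key
  refine le_trans (le_of_eq ?_) key
  have h6 : ((‖GAP_J m hX P‖ ^ 2 : ℝ) : ℂ) = inner ℂ (GAP_J m hX P) (GAP_J m hX P) := by
    rw [inner_self_eq_norm_sq_to_K]; norm_cast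
  rw [GAP_inner] at h6
  have h7 : ∀ φ : Un (m + 2), starRingEnd ℂ (ev P (actU φ (e1 m))) * ev P (actU φ (e1 m)) =
      ((‖ev P (actU φ (e1 m))‖ ^ 2 : ℝ) : ℂ) := by
    intro φ
    rw [mul_comm, Complex.mul_conj, Complex.normSq_eq_norm_sq]
  simp only [h7] at h6
  rw [integral_complex_ofReal] at h6
  exact_mod_cast h6.symm

end H829KB
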