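import Pool.Agent.H829R2.KB.Defs

set_option autoImplicit false

open MeasureTheory Filter Topology Module
open scoped Pointwise ENNReal
open Pool.Agent.Results.MP_6cdc09_gt.AlmostComplex

namespace H829KB

/-- the diagonal unitary matrix with entry `u` at `1` and `1` elsewhere -/
noncomputable def GDG_psi (m : ℕ) (u : ℂ) (hu : u * star u = 1) : Un (m + 2) :=
  ⟨Matrix.diagonal (fun i => if i = 1 then u else 1), by
    rw [Matrix.mem_unitaryGroup_iff, Matrix.star_eq_conjTranspose, Matrix.diagonal_conjTranspose,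
      Matrix.diagonal_mul_diagonal, ← Matrix.diagonal_one]
    congr 1
    funext i
    simp only [Pi.star_apply]
    by_cases h : i = 1
    · rw [if_pos h, hu]
    · rw [if_neg h]; simp⟩

lemma GDG_act {m : ℕ} (φ : Un (m + 2)) (x : Cn (m + 2)) :
    (actU φ x) 0 = ∑ k, (φ : Matrix (Fin (m + 2)) (Fin (m + 2)) ℂ) 0 k * x k := rfl

lemma GDG_e1 {m : ℕ} (φ : Un (m + 2)) :
    (actU φ (e1 m)) 0 = (φ : Matrix (Fin (m + 2)) (Fin (m + 2)) ℂ) 0 0 := by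
  rw [GDG_act, Finset.sum_eq_single 0]
  · simp [e1]
  · intro k _ hk
    simp [e1, hk]
  · simp

lemma GDG_e2 {m : ℕ} (φ : Un (m + 2)) :
    (actU φ (e2 m)) 0 = (φ : Matrix (Fin (m + 2)) (Fin (m + 2)) ℂ) 0 1 := by
  rw [GDG_act, Finset.sum_eq_single 1]
  · simp [e2]
  · intro k _ hk
    simp [e2, hk]
  · simp

lemma GDG_ee {m : ℕ} (φ : Un (m + 2)) (c t : ℝ) :
    (actU φ (ee m c t)) 0 = ((Real.cos t : ℂ) + Real.sin t * (Complex.I * c)) *
      (φ : Matrix (Fin (m + 2)) (Fin (m + 2)) ℂ) 0 0 +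
      ((Real.sin t * Real.sqrt (1 - c ^ 2) : ℝ) : ℂ) *
      (φ : Matrix (Fin (m + 2)) (Fin (m + 2)) ℂ) 0 1 := by
  rw [GDG_act, Fin.sum_univ_succ, Fin.sum_univ_succ]
  have h0 : (ee m c t) 0 = (Real.cos t : ℂ) + Real.sin t * (Complex.I * c) := by
    simp [ee, bb, e1, e2]
  have h1 : (ee m c t) 1 = ((Real.sin t * Real.sqrt (1 - c ^ 2) : ℝ) : ℂ) := by
    simp [ee, bb, e1, e2]
  have h2 : ∀ k : Fin m, (ee m c t) k.succ.succ = 0 := by
    intro k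
    have a1 : (k.succ.succ : Fin (m + 2)) ≠ 0 := Fin.succ_ne_zero _
    have a2 : (k.succ.succ : Fin (m + 2)) ≠ 1 := by
      intro h
      have := congrArg Fin.val h
      simp at this
    simp [ee, bb, e1, e2, a1, a2]
  have hs : ∑ k : Fin m, (φ : Matrix (Fin (m + 2)) (Fin (m + 2)) ℂ) 0 k.succ.succ *
      (ee m c t) k.succ.succ = 0 := Finset.sum_eq_zero (fun k _ => by rw [h2, mul_zero])
  rw [hs, Fin.succ_zero_eq_one, h0, h1]
  ring

lemma GDG_mul0 {m : ℕ} (φ : Un (m + 2)) (u : ℂ) (hu : u * star u = 1) :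
    ((φ * GDG_psi m u hu : Un (m + 2)) : Matrix (Fin (m + 2)) (Fin (m + 2)) ℂ) 0 0 =
      (φ : Matrix (Fin (m + 2)) (Fin (m + 2)) ℂ) 0 0 := by
  have h : ((φ * GDG_psi m u hu : Un (m + 2)) : Matrix (Fin (m + 2)) (Fin (m + 2)) ℂ) =
    (φ : Matrix (Fin (m + 2)) (Fin (m + 2)) ℂ) * Matrix.diagonal (fun i => if i = 1 then u else 1) := rfl
  rw [h, Matrix.mul_diagonal]
  simp

lemma GDG_mul1 {m : ℕ} (φ : Un (m + 2)) (u : ℂ) (hu : u * star u = 1) :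
    ((φ * GDG_psi m u hu : Un (m + 2)) : Matrix (Fin (m + 2)) (Fin (m + 2)) ℂ) 0 1 =
      (φ : Matrix (Fin (m + 2)) (Fin (m + 2)) ℂ) 0 1 * u := by
  have h : ((φ * GDG_psi m u hu : Un (m + 2)) : Matrix (Fin (m + 2)) (Fin (m + 2)) ℂ) =
    (φ : Matrix (Fin (m + 2)) (Fin (m + 2)) ℂ) * Matrix.diagonal (fun i => if i = 1 then u else 1) := rfl
  rw [h, Matrix.mul_diagonal]
  simp

lemma GDG_int {n : ℕ} [IsProbabilityMeasure (haarU n)] (F : Un n → ℝ) (hF : Continuous F) :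
    Integrable F (haarU n) :=
  hF.integrable_of_hasCompactSupport (HasCompactSupport.of_compactSpace F)

lemma GDG_inv (h1 : S_HAA) {n : ℕ} (ψ : Un n) (F : Un n → ℝ) :
    ∫ φ, F (φ * ψ) ∂(haarU n) = ∫ φ, F φ ∂(haarU n) := by
  have h := (h1 n).2.1 ψ (fun φ => (F φ : ℂ))
  rw [integral_complex_ofReal, integral_complex_ofReal] at h
  exact_mod_cast h

/-- the algebraic identity -/
lemma GDG_alg (z X W : ℂ) (y : ℝ) (hz : ‖z‖ ^ 2 + y ^ 2 = 1) :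
    (‖z * X + (y : ℂ) * W‖ ^ 2 - ‖X‖ ^ 2) ^ 2 =
      y ^ 4 * (‖W‖ ^ 2 - ‖X‖ ^ 2) ^ 2 +
      4 * y ^ 3 * ((‖W‖ ^ 2 - ‖X‖ ^ 2) * (z * X * star W).re) +
      4 * y ^ 2 * (z * X * star W).re ^ 2 := by
  have h : ‖z * X + (y : ℂ) * W‖ ^ 2 - ‖X‖ ^ 2 =
      y ^ 2 * (‖W‖ ^ 2 - ‖X‖ ^ 2) + 2 * y * (z * X * star W).re := by
    have hz' : z.re * z.re + z.im * z.im = 1 - y ^ 2 := by
      have := Complex.sq_norm z
      rw [Complex.normSq_apply] at this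
      linarith
    rw [Complex.sq_norm, Complex.sq_norm, Complex.sq_norm, Complex.normSq_apply,
      Complex.normSq_apply, Complex.normSq_apply]
    simp only [Complex.add_re, Complex.add_im, Complex.mul_re, Complex.mul_im, Complex.ofReal_re,
      Complex.ofReal_im, Complex.star_def, Complex.conj_re, Complex.conj_im, zero_mul, sub_zero,
      add_zero]
    linear_combination (X.re * X.re + X.im * X.im) * hz'
  rw [h]
  ring

theorem t_GDG (h1 : S_HAA) (h2 : S_MO4) : S_GDG := by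
  intro m c hc
  have : IsProbabilityMeasure (haarU (m + 2)) := (h1 (m + 2)).1
  obtain ⟨X, hX⟩ : ∃ X : Un (m + 2) → ℂ,
    X = fun φ : Un (m + 2) => (φ : Matrix (Fin (m + 2)) (Fin (m + 2)) ℂ) 0 0 := ⟨_, rfl⟩
  obtain ⟨W, hW⟩ : ∃ W : Un (m + 2) → ℂ,
    W = fun φ : Un (m + 2) => (φ : Matrix (Fin (m + 2)) (Fin (m + 2)) ℂ) 0 1 := ⟨_, rfl⟩
  have hXc : Continuous X := by
    have h := (h1 (m + 2)).2.2.2 (e1 m)
    have h' : X = fun φ => (actU φ (e1 m)) 0 := by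
      funext φ; rw [hX, GDG_e1]
    rw [h']
    exact (PiLp.continuous_apply 2 (fun _ : Fin (m + 2) => ℂ) 0).comp h
  have hWc : Continuous W := by
    have h := (h1 (m + 2)).2.2.2 (e2 m)
    have h' : W = fun φ => (actU φ (e2 m)) 0 := by
      funext φ; rw [hW, GDG_e2]
    rw [h']
    exact (PiLp.continuous_apply 2 (fun _ : Fin (m + 2) => ℂ) 0).comp h
  have hX1 : ∀ φ, ‖X φ‖ ≤ 1 := fun φ => by rw [hX]; exact entry_norm_bound_of_unitary φ.2 0 0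
  have hW1 : ∀ φ, ‖W φ‖ ≤ 1 := fun φ => by rw [hW]; exact entry_norm_bound_of_unitary φ.2 0 1
  have hκ : ∫ φ, ‖X φ‖ ^ 2 * ‖W φ‖ ^ 2 ∂(haarU (m + 2)) = 1 / (((m : ℝ) + 2) * ((m : ℝ) + 3)) := by
    rw [← (h2 m).2.2]
    refine integral_congr_ae (Eventually.of_forall fun φ => ?_)
    simp only
    rw [GDG_e1, GDG_e2, hX, hW]
  refine ⟨1, fun t => ?_⟩
  obtain ⟨z, hz⟩ : ∃ z : ℂ, z = (Real.cos t : ℂ) + Real.sin t * (Complex.I * c) := ⟨_, rfl⟩
  obtain ⟨y, hy⟩ : ∃ y : ℝ, y = Real.sin t * Real.sqrt (1 - c ^ 2) := ⟨_, rfl⟩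
  have hy2 : y ^ 2 = Real.sin t ^ 2 * (1 - c ^ 2) := by
    rw [hy, mul_pow, Real.sq_sqrt (by linarith)]
  have hz2 : ‖z‖ ^ 2 + y ^ 2 = 1 := by
    rw [hy2, Complex.sq_norm, Complex.normSq_apply, hz]
    have e1 : ((Real.cos t : ℂ) + Real.sin t * (Complex.I * c)).re = Real.cos t := by
      simp only [Complex.add_re, Complex.mul_re, Complex.mul_im, Complex.ofReal_re,
        Complex.ofReal_im, Complex.I_re, Complex.I_im]
      ring
    have e2 : ((Real.cos t : ℂ) + Real.sin t * (Complex.I * c)).im = Real.sin t * c := by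
      simp only [Complex.add_im, Complex.mul_re, Complex.mul_im, Complex.ofReal_re,
        Complex.ofReal_im, Complex.I_re, Complex.I_im]
      ring
    rw [e1, e2]
    nlinarith [Real.sin_sq_add_cos_sq t]
  obtain ⟨Q, hQ⟩ : ∃ Q : Un (m + 2) → ℂ, Q = fun φ => z * X φ * star (W φ) := ⟨_, rfl⟩
  have hQc : Continuous Q := by
    rw [hQ]
    exact (continuous_const.mul hXc).mul hWc.star
  obtain ⟨D, hD⟩ : ∃ D : Un (m + 2) → ℝ, D = fun φ => ‖W φ‖ ^ 2 - ‖X φ‖ ^ 2 := ⟨_, rfl⟩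
  have hDc : Continuous D := by
    rw [hD]
    exact (hWc.norm.pow 2).sub (hXc.norm.pow 2)
  have hval : GD (m := m) c t (fun x => ‖x 0‖ ^ 2) =
      ∫ φ, (y ^ 4 * D φ ^ 2 + 4 * y ^ 3 * (D φ * (Q φ).re) + 4 * y ^ 2 * (Q φ).re ^ 2)
        ∂(haarU (m + 2)) := by
    unfold GD
    refine integral_congr_ae (Eventually.of_forall fun φ => ?_)
    simp only
    rw [GDG_ee, GDG_e1, ← hz, ← hy, hD, hQ, hX, hW]
    exact GDG_alg z _ _ y hz2
  have i1 : Integrable (fun φ => y ^ 4 * D φ ^ 2) (haarU (m + 2)) :=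
    GDG_int _ (continuous_const.mul (hDc.pow 2))
  have i2 : Integrable (fun φ => 4 * y ^ 3 * (D φ * (Q φ).re)) (haarU (m + 2)) :=
    GDG_int _ (continuous_const.mul (hDc.mul (Complex.continuous_re.comp hQc)))
  have i3 : Integrable (fun φ => 4 * y ^ 2 * (Q φ).re ^ 2) (haarU (m + 2)) :=
    GDG_int _ (continuous_const.mul ((Complex.continuous_re.comp hQc).pow 2))
  have hsum : GD (m := m) c t (fun x => ‖x 0‖ ^ 2) =
      y ^ 4 * ∫ φ, D φ ^ 2 ∂(haarU (m + 2)) + 4 * y ^ 3 * ∫ φ, D φ * (Q φ).re ∂(haarU (m + 2)) +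
        4 * y ^ 2 * ∫ φ, (Q φ).re ^ 2 ∂(haarU (m + 2)) := by
    have i12 : Integrable (fun φ => y ^ 4 * D φ ^ 2 + 4 * y ^ 3 * (D φ * (Q φ).re))
        (haarU (m + 2)) := i1.add i2
    rw [hval, integral_add i12 i3, integral_add i1 i2, integral_const_mul,
      integral_const_mul, integral_const_mul]
  -- the cross term vanishes
  have hcross : ∫ φ, D φ * (Q φ).re ∂(haarU (m + 2)) = 0 := by
    have hu : (-1 : ℂ) * star (-1 : ℂ) = 1 := by simp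
    have h := GDG_inv h1 (GDG_psi m (-1) hu) (fun φ => D φ * (Q φ).re)
    have h' : ∀ φ : Un (m + 2), D (φ * GDG_psi m (-1) hu) * (Q (φ * GDG_psi m (-1) hu)).re =
        -(D φ * (Q φ).re) := by
      intro φ
      rw [hD, hQ]
      simp only [hX, hW, GDG_mul0, GDG_mul1]
      simp
      ring
    simp only [h'] at h
    rw [integral_neg] at h
    linarith
  -- the quadratic term
  have hquad : ∫ φ, (Q φ).re ^ 2 ∂(haarU (m + 2)) =
      ‖z‖ ^ 2 / 2 * (1 / (((m : ℝ) + 2) * ((m : ℝ) + 3))) := by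
    have hu : Complex.I * star Complex.I = 1 := by simp
    have h := GDG_inv h1 (GDG_psi m Complex.I hu) (fun φ => (Q φ).re ^ 2)
    have h' : ∀ φ : Un (m + 2), (Q (φ * GDG_psi m Complex.I hu)).re ^ 2 = (Q φ).im ^ 2 := by
      intro φ
      rw [hQ]
      simp only [hX, hW, GDG_mul0, GDG_mul1]
      have e : z * (φ : Matrix (Fin (m + 2)) (Fin (m + 2)) ℂ) 0 0 *
          star ((φ : Matrix (Fin (m + 2)) (Fin (m + 2)) ℂ) 0 1 * Complex.I) =
          -Complex.I * (z * (φ : Matrix (Fin (m + 2)) (Fin (m + 2)) ℂ) 0 0 *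
            star ((φ : Matrix (Fin (m + 2)) (Fin (m + 2)) ℂ) 0 1)) := by
        rw [star_mul]
        simp only [Complex.star_def, Complex.conj_I]
        ring
      rw [e, Complex.mul_re]
      simp
    simp only [h'] at h
    have hsq : ∀ φ, (Q φ).re ^ 2 + (Q φ).im ^ 2 = ‖z‖ ^ 2 * (‖X φ‖ ^ 2 * ‖W φ‖ ^ 2) := by
      intro φ
      have e1 : (Q φ).re ^ 2 + (Q φ).im ^ 2 = ‖Q φ‖ ^ 2 := by
        rw [Complex.sq_norm, Complex.normSq_apply]; ring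
      rw [e1, hQ]
      simp only [norm_mul, norm_star]
      ring
    have ire : Integrable (fun φ => (Q φ).re ^ 2) (haarU (m + 2)) :=
      GDG_int _ ((Complex.continuous_re.comp hQc).pow 2)
    have iim : Integrable (fun φ => (Q φ).im ^ 2) (haarU (m + 2)) :=
      GDG_int _ ((Complex.continuous_im.comp hQc).pow 2)
    have h3 : ∫ φ, ((Q φ).re ^ 2 + (Q φ).im ^ 2) ∂(haarU (m + 2)) =
        ‖z‖ ^ 2 * (1 / (((m : ℝ) + 2) * ((m : ℝ) + 3))) := by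
      simp only [hsq]
      rw [integral_const_mul, hκ]
    rw [integral_add ire iim, h] at h3
    linarith
  have hD2 : ∫ φ, D φ ^ 2 ∂(haarU (m + 2)) ≤ 1 := by
    have h3 : ∫ φ, D φ ^ 2 ∂(haarU (m + 2)) ≤ ∫ _φ, (1 : ℝ) ∂(haarU (m + 2)) := by
      refine integral_mono (GDG_int _ (hDc.pow 2)) (integrable_const _) (fun φ => ?_)
      have a1 := hX1 φ
      have a2 := hW1 φ
      have b1 : ‖X φ‖ ^ 2 ≤ 1 := pow_le_one₀ (norm_nonneg _) a1
      have b2 : ‖W φ‖ ^ 2 ≤ 1 := pow_le_one₀ (norm_nonneg _) a2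
      have c1 : 0 ≤ ‖X φ‖ ^ 2 := sq_nonneg _
      have c2 : 0 ≤ ‖W φ‖ ^ 2 := sq_nonneg _
      rw [hD]
      simp only
      rw [sq_le_one_iff_abs_le_one, abs_le]
      constructor <;> linarith
    simpa using h3
  rw [hsum, hcross, hquad]
  obtain ⟨κ, hκ'⟩ : ∃ κ : ℝ, κ = 1 / (((m : ℝ) + 2) * ((m : ℝ) + 3)) := ⟨_, rfl⟩
  have hκ0 : 0 ≤ κ := by rw [hκ']; positivity
  have e0 : 2 * (1 - c ^ 2) / (((m : ℝ) + 2) * ((m : ℝ) + 3)) = 2 * (1 - c ^ 2) * κ := by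
    rw [hκ']; ring
  rw [← hκ', e0]
  have hsin : Real.sin t ^ 2 ≤ t ^ 2 := by
    rw [sq_le_sq]
    exact Real.abs_sin_le_abs
  have hcc : 0 ≤ 1 - c ^ 2 := by linarith
  have hc1 : 1 - c ^ 2 ≤ 1 := by nlinarith [sq_nonneg c]
  have hyt : y ^ 2 ≤ (1 - c ^ 2) * t ^ 2 := by
    rw [hy2]
    nlinarith
  have hyt' : y ^ 2 ≤ t ^ 2 := by nlinarith [sq_nonneg t]
  have hy4 : y ^ 4 ≤ t ^ 4 := by
    have : (y ^ 2) ^ 2 ≤ (t ^ 2) ^ 2 := pow_le_pow_left₀ (sq_nonneg y) hyt' 2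
    nlinarith
  have hz1 : ‖z‖ ^ 2 ≤ 1 := by nlinarith [sq_nonneg y]
  have hy40 : 0 ≤ y ^ 4 := by positivity
  have t1 : y ^ 4 * ∫ φ, D φ ^ 2 ∂(haarU (m + 2)) ≤ t ^ 4 := by
    calc y ^ 4 * ∫ φ, D φ ^ 2 ∂(haarU (m + 2)) ≤ y ^ 4 * 1 := mul_le_mul_of_nonneg_left hD2 hy40
      _ ≤ t ^ 4 := by linarith
  have t2 : 4 * y ^ 2 * (‖z‖ ^ 2 / 2 * κ) ≤ 2 * (1 - c ^ 2) * κ * t ^ 2 := by
    have a1 : y ^ 2 * ‖z‖ ^ 2 ≤ (1 - c ^ 2) * t ^ 2 := by
      calc y ^ 2 * ‖z‖ ^ 2 ≤ y ^ 2 * 1 := mul_le_mul_of_nonneg_left hz1 (sq_nonneg y)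
        _ ≤ (1 - c ^ 2) * t ^ 2 := by linarith
    have a2 := mul_le_mul_of_nonneg_right a1 hκ0
    linarith
  linarith

end H829KB
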