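import Pool.Agent.H829R2.KB.Defs

set_option autoImplicit false

open MeasureTheory Filter Topology Module
open scoped Pointwise ENNReal
open Pool.Agent.Results.MP_6cdc09_gt.AlmostComplex

namespace H829KB

theorem HAA_right (n : ℕ) : (haarU n).IsMulRightInvariant := by
  constructor
  intro g
  haveI h1 : (Measure.map (· * g) (haarU n)).IsHaarMeasure :=
    Measure.isHaarMeasure_map_mul_right (haarU n) g
  haveI h2 : IsProbabilityMeasure (Measure.map (· * g) (haarU n)) :=
    Measure.isProbabilityMeasure_map (measurable_mul_const g).aemeasurable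
  exact Measure.isHaarMeasure_eq_of_isProbabilityMeasure _ _

theorem t_HAA : S_HAA := by
  intro n
  refine ⟨inferInstance, fun ψ F => ?_, fun ψ F => integral_mul_left_eq_self F ψ, fun x => ?_⟩
  · haveI := HAA_right n
    exact integral_mul_right_eq_self F ψ
  · have h1 : Continuous (fun φ : Un n => ((φ : Matrix (Fin n) (Fin n) ℂ).mulVec x.ofLp)) :=
      Continuous.matrix_mulVec continuous_subtype_val continuous_const
    exact (PiLp.continuous_toLp 2 _).comp h1

end H829KB
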