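import Pool.Agent.H829R2.KB.Defs

/-! Task HOL: the Brunn-Minkowski property for planes with small Kaehler angle. -/

set_option autoImplicit false

open MeasureTheory Filter Topology Module
open scoped Pointwise ENNReal
open Pool.Agent.Results.MP_6cdc09_gt.AlmostComplex

namespace H829KB

private theorem hol_int {n : ℕ} (F : Un n → ℝ) (hF : Continuous F) :
    Integrable F (haarU n) :=
  hF.integrable_of_hasCompactSupport (HasCompactSupport.of_compactSpace F)

private theorem hol_quad {n : ℕ} (a b : Un n → ℝ) (ha : Continuous a) (hb : Continuous b) (r : ℝ) :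
    ∫ φ, (a φ - r * b φ) ^ 2 ∂(haarU n) = (1 + r) * ∫ φ, a φ ^ 2 ∂(haarU n)
      + (r ^ 2 + r) * ∫ φ, b φ ^ 2 ∂(haarU n) - r * ∫ φ, (a φ + b φ) ^ 2 ∂(haarU n) := by
  have i1 : Integrable (fun φ => (1 + r) * a φ ^ 2) (haarU n) :=
    hol_int _ (continuous_const.mul (ha.pow 2))
  have i2 : Integrable (fun φ => (r ^ 2 + r) * b φ ^ 2) (haarU n) :=
    hol_int _ (continuous_const.mul (hb.pow 2))
  have i3 : Integrable (fun φ => r * (a φ + b φ) ^ 2) (haarU n) :=
    hol_int _ (continuous_const.mul ((ha.add hb).pow 2))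
  have i12 : Integrable (fun φ => (1 + r) * a φ ^ 2 + (r ^ 2 + r) * b φ ^ 2) (haarU n) := i1.add i2
  rw [← integral_const_mul, ← integral_const_mul, ← integral_const_mul, ← integral_add i1 i2,
    ← integral_sub i12 i3]
  apply integral_congr_ae
  filter_upwards with φ
  ring

private theorem hol_norm {n : ℕ} (φ : Un n) (x : Cn n) : ‖actU φ x‖ = ‖x‖ := by
  have h : isoU φ x = actU φ x := by rw [isoU_apply]; rfl
  rw [← h, LinearIsometryEquiv.norm_map]

private theorem hol_V_nonneg {n : ℕ} (E : Submodule ℝ (Cn n)) (K : Set (Cn n)) : 0 ≤ V E K := by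
  unfold V
  apply integral_nonneg
  intro φ
  exact ENNReal.toReal_nonneg

private theorem hol_st_tendsto : Tendsto (fun k : ℕ => st (2 ^ k)) atTop (𝓝[>] (0 : ℝ)) := by
  rw [tendsto_nhdsWithin_iff]
  constructor
  · have h1 : Tendsto (fun k : ℕ => (2 * Real.pi) * (1 / 2 : ℝ) ^ k) atTop
        (𝓝 ((2 * Real.pi) * 0)) :=
      (tendsto_pow_atTop_nhds_zero_of_lt_one (by norm_num) (by norm_num)).const_mul _
    rw [mul_zero] at h1
    refine h1.congr fun k => ?_
    unfold st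
    push_cast
    rw [one_div, inv_pow]
    rfl
  · filter_upwards with k
    have := Real.pi_pos
    unfold st
    rw [Set.mem_Ioi]
    positivity

private theorem hol_core (h1 : S_HS) (h2 : S_HSA) (h3 : S_HAA) (h4 : S_QF) (h5 : S_KEY)
    (h7 : S_STD) (m : ℕ) (E : Submodule ℝ (Cn (m + 2))) (a b : Cn (m + 2))
    (hE : finrank ℝ E = 2) (ha : a ∈ E) (hb : b ∈ E) (na : ‖a‖ = 1) (nb : ‖b‖ = 1)
    (hab : inner ℝ a b = 0)
    (hc : 2 * (m + 2) * (inner ℂ a b : ℂ).im ^ 2 ≤ (m + 2 : ℝ) + 1) (K L : Set (Cn (m + 2)))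
    (hK : B0 K) (hL : B0 L) :
    ∃ r : ℝ, 0 < r ∧ (1 + r) * V E K + (r ^ 2 + r) * V E L ≤ r * V E (K + L) := by
  obtain ⟨hprob, -, -, hcont⟩ := h3 (m + 2)
  obtain ⟨hKc, hKp, -⟩ := h1 K hK
  obtain ⟨hLc, hLp, -⟩ := h1 L hL
  obtain ⟨hKL, hadd⟩ := h2 K L hK hL
  set c : ℝ := (inner ℂ a b : ℂ).im with hcdef
  have hc1 : c ^ 2 ≤ 1 := (h7 m a b na nb hab).1
  have ne1 : ‖e1 m‖ = 1 := by simp [e1]
  have hpos : ∀ f : Cn (m + 2) → ℝ, Continuous f → (∀ u, u ≠ 0 → 0 < f u) → 0 < M1 f := by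
    intro f hf hfp
    have hp : ∀ φ : Un (m + 2), 0 < f (actU φ (e1 m)) := by
      intro φ
      apply hfp
      rw [← norm_ne_zero_iff, hol_norm, ne1]
      exact one_ne_zero
    have hcf : Continuous fun φ : Un (m + 2) => f (actU φ (e1 m)) := hf.comp (hcont _)
    unfold M1
    exact hcf.integral_pos_of_hasCompactSupport_nonneg_nonzero
      (HasCompactSupport.of_compactSpace _) (fun φ => (hp φ).le) (hp 1).ne'
  have hM1K := hpos (hs K) hKc hKp
  have hM1L := hpos (hs L) hLc hLp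
  set r : ℝ := M1 (hs K) / M1 (hs L) with hr
  have hr0 : 0 < r := div_pos hM1K hM1L
  refine ⟨r, hr0, ?_⟩
  set f : Cn (m + 2) → ℝ := fun x => hs K x - r * hs L x with hf
  have hfc : Continuous f := hKc.sub (continuous_const.mul hLc)
  have hM1f : M1 f = 0 := by
    unfold M1
    have e1' : ∫ φ : Un (m + 2), f (actU φ (e1 m)) ∂(haarU _) =
        ∫ φ : Un (m + 2), hs K (actU φ (e1 m)) ∂(haarU _) -
          r * ∫ φ : Un (m + 2), hs L (actU φ (e1 m)) ∂(haarU _) := by
      have j1 : Integrable (fun φ : Un (m + 2) => hs K (actU φ (e1 m))) (haarU _) :=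
        hol_int _ (hKc.comp (hcont _))
      have j2 : Integrable (fun φ : Un (m + 2) => r * hs L (actU φ (e1 m))) (haarU _) :=
        hol_int _ (continuous_const.mul (hLc.comp (hcont _)))
      rw [← integral_const_mul, ← integral_sub j1 j2]
    rw [e1']
    change M1 (hs K) - r * M1 (hs L) = 0
    rw [hr, div_mul_cancel₀ _ hM1L.ne', sub_self]
  have hsum : hs (K + L) = fun u => hs K u + hs L u := funext hadd
  have hM2 : M2 f = (1 + r) * M2 (hs K) + (r ^ 2 + r) * M2 (hs L) - r * M2 (hs (K + L)) := by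
    unfold M2
    rw [hsum]
    exact hol_quad _ _ (hKc.comp (hcont _)) (hLc.comp (hcont _)) r
  have hGD : ∀ t : ℝ, GD c t f = (1 + r) * GD c t (hs K) + (r ^ 2 + r) * GD c t (hs L)
      - r * GD c t (hs (K + L)) := by
    intro t
    unfold GD
    rw [hsum]
    have h := hol_quad (fun φ : Un (m + 2) => hs K (actU φ (ee m c t)) - hs K (actU φ (e1 m)))
      (fun φ : Un (m + 2) => hs L (actU φ (ee m c t)) - hs L (actU φ (e1 m)))
      ((hKc.comp (hcont _)).sub (hKc.comp (hcont _)))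
      ((hLc.comp (hcont _)).sub (hLc.comp (hcont _))) r
    have e2 : ∫ φ : Un (m + 2), (f (actU φ (ee m c t)) - f (actU φ (e1 m))) ^ 2 ∂(haarU _) =
        ∫ φ : Un (m + 2), ((hs K (actU φ (ee m c t)) - hs K (actU φ (e1 m))) -
          r * (hs L (actU φ (ee m c t)) - hs L (actU φ (e1 m)))) ^ 2 ∂(haarU _) := by
      apply integral_congr_ae
      filter_upwards with φ
      rw [hf]
      ring
    have e3 : ∫ φ : Un (m + 2), ((hs K (actU φ (ee m c t)) + hs L (actU φ (ee m c t))) -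
          (hs K (actU φ (e1 m)) + hs L (actU φ (e1 m)))) ^ 2 ∂(haarU _) =
        ∫ φ : Un (m + 2), ((hs K (actU φ (ee m c t)) - hs K (actU φ (e1 m))) +
          (hs L (actU φ (ee m c t)) - hs L (actU φ (e1 m)))) ^ 2 ∂(haarU _) := by
      apply integral_congr_ae
      filter_upwards with φ
      ring
    rw [e2, e3]
    exact h
  have q1 := h4 m E a b hE ha hb na nb hab K hK
  have q2 := h4 m E a b hE ha hb na nb hab L hL
  have q3 := h4 m E a b hE ha hb na nb hab (K + L) hKL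
  have hlim : Tendsto (fun k : ℕ => Real.pi * (M2 f - GD c (st (2 ^ k)) f / st (2 ^ k) ^ 2)) atTop
      (𝓝 ((1 + r) * V E K + (r ^ 2 + r) * V E L - r * V E (K + L))) := by
    refine (((q1.const_mul (1 + r)).add (q2.const_mul (r ^ 2 + r))).sub (q3.const_mul r)).congr
      fun k => ?_
    rw [hM2, hGD]
    ring
  have hle : ∀ ε : ℝ, 0 < ε → (1 + r) * V E K + (r ^ 2 + r) * V E L - r * V E (K + L) ≤
      Real.pi * ε := by
    intro ε hε
    have hk := h5 m c hc1 hc f hfc hM1f ε hε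
    have hk' := hol_st_tendsto.eventually hk
    refine le_of_tendsto hlim ?_
    filter_upwards [hk'] with k hk
    exact mul_le_mul_of_nonneg_left (by linarith) Real.pi_pos.le
  have hle0 : (1 + r) * V E K + (r ^ 2 + r) * V E L - r * V E (K + L) ≤ 0 := by
    by_contra hcon
    rw [not_le] at hcon
    set X := (1 + r) * V E K + (r ^ 2 + r) * V E L - r * V E (K + L) with hX
    have hpi := Real.pi_pos
    have := hle (X / (2 * Real.pi)) (by positivity)
    have e : Real.pi * (X / (2 * Real.pi)) = X / 2 := by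
      field_simp
    rw [e] at this
    linarith
  linarith

private theorem hol_arith (A B C r : ℝ) (hA : 0 ≤ A) (hB : 0 ≤ B) (hr : 0 < r)
    (h : (1 + r) * A + (r ^ 2 + r) * B ≤ r * C) : Real.sqrt A + Real.sqrt B ≤ Real.sqrt C := by
  apply Real.le_sqrt_of_sq_le
  have e1 := Real.sq_sqrt hA
  have e2 := Real.sq_sqrt hB
  set x := Real.sqrt A
  set y := Real.sqrt B
  rw [← e1, ← e2] at h
  have h1 : 0 ≤ (x - r * y) ^ 2 := sq_nonneg _
  have h2 : r * (x + y) ^ 2 ≤ r * C := by nlinarith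
  exact le_of_mul_le_mul_left h2 hr

private theorem hol_B0 {n : ℕ} (K : Set (Cn n)) (hK : IsBody K) :
    ∃ v : Cn n, B0 ((fun x => x + v) '' K) := by
  obtain ⟨hc, hconv, x, hx⟩ := hK
  refine ⟨-x, hc.image (by fun_prop), ?_, ?_⟩
  · have := hconv.translate (-x)
    have e : (fun z => -x + z) '' K = (fun z => z + -x) '' K := by
      congr 1
      funext z
      abel
    rw [← e]
    exact this
  · have e : interior ((fun z => z + -x) '' K) = (fun z => z + -x) '' interior K :=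
      ((Homeomorph.addRight (-x)).image_interior K).symm
    rw [e]
    exact ⟨x, hx, by simp⟩

private theorem hol_sum {n : ℕ} (K L : Set (Cn n)) (v w : Cn n) :
    (fun x => x + v) '' K + (fun x => x + w) '' L = (fun x => x + (v + w)) '' (K + L) := by
  ext z
  simp only [Set.mem_add, Set.mem_image]
  constructor
  · rintro ⟨_, ⟨x, hx, rfl⟩, _, ⟨y, hy, rfl⟩, rfl⟩
    exact ⟨x + y, ⟨x, hx, y, hy, rfl⟩, by abel⟩
  · rintro ⟨_, ⟨x, hx, y, hy, rfl⟩, rfl⟩
    exact ⟨x + v, ⟨x, hx, rfl⟩, y + w, ⟨y, hy, rfl⟩, by abel⟩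

theorem t_HOL (h1 : S_HS) (h2 : S_HSA) (h3 : S_HAA) (h4 : S_QF) (h5 : S_KEY) (h6 : S_TRA)
    (h7 : S_STD) : S_HOL := by
  intro m E a b hE ha hb na nb hab hc K L hK hL
  obtain ⟨v, hv⟩ := hol_B0 K hK
  obtain ⟨w, hw⟩ := hol_B0 L hL
  obtain ⟨r, hr0, hr⟩ := hol_core h1 h2 h3 h4 h5 h7 m E a b hE ha hb na nb hab hc _ _ hv hw
  rw [hol_sum, h6, h6, h6] at hr
  have h := hol_arith _ _ _ r (hol_V_nonneg E K) (hol_V_nonneg E L) hr0 hr
  unfold BMineq
  rw [hE]
  rw [Real.sqrt_eq_rpow, Real.sqrt_eq_rpow, Real.sqrt_eq_rpow] at h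
  push_cast
  exact h

end H829KB
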