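import Pool.Agent.H829R2.KB.Defs

set_option autoImplicit false

open MeasureTheory Filter Topology Module
open scoped Pointwise ENNReal
open Pool.Agent.Results.MP_6cdc09_gt.AlmostComplex

namespace H829KB

theorem HS_max {W : Type} [NormedAddCommGroup W] [InnerProductSpace ℝ W] (K : Set W)
    (hK : IsCompact K) (hne : K.Nonempty) (u : W) :
    ∃ x ∈ K, (∀ y ∈ K, inner ℝ u y ≤ (inner ℝ u x : ℝ)) ∧ hs K u = inner ℝ u x := by
  have hc : ContinuousOn (fun x => (inner ℝ u x : ℝ)) K := by fun_prop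
  obtain ⟨x, hx, hm⟩ := hK.exists_isMaxOn hne hc
  refine ⟨x, hx, fun y hy => hm hy, ?_⟩
  have hg : IsGreatest ((fun x => (inner ℝ u x : ℝ)) '' K) (inner ℝ u x) := by
    refine ⟨⟨x, hx, rfl⟩, ?_⟩
    rintro _ ⟨y, hy, rfl⟩
    exact hm hy
  exact hg.csSup_eq

/-- HS -/
theorem t_HS : S_HS := by
  intro W _ _ K hK
  obtain ⟨hc, -, hi⟩ := hK
  have h0 : (0 : W) ∈ K := interior_subset hi
  have hmax := HS_max K hc ⟨0, h0⟩
  have hle : ∀ x ∈ K, ∀ u, (inner ℝ u x : ℝ) ≤ hs K u := by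
    intro x hx u
    obtain ⟨y, hy, h1, h2⟩ := hmax u
    rw [h2]
    exact h1 x hx
  have hat : ∀ u, ∃ x ∈ K, (inner ℝ u x : ℝ) = hs K u := by
    intro u
    obtain ⟨y, hy, h1, h2⟩ := hmax u
    exact ⟨y, hy, h2.symm⟩
  refine ⟨?_, ?_, ?_, ?_, ?_, hle, hat⟩
  · obtain ⟨R, hR⟩ := hc.isBounded.subset_closedBall (0 : W)
    have hR' : ∀ x ∈ K, ‖x‖ ≤ max R 0 := fun x hx =>
      (mem_closedBall_zero_iff.1 (hR hx)).trans (le_max_left _ _)
    have hL : LipschitzWith ⟨max R 0, le_max_right _ _⟩ (hs K) := by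
      refine LipschitzWith.of_le_add_mul _ fun u v => ?_
      obtain ⟨x, hx, h1⟩ := hat u
      rw [← h1]
      have e : (inner ℝ u x : ℝ) = inner ℝ v x + inner ℝ (u - v) x := by
        rw [inner_sub_left]; ring
      rw [e]
      have h2 : (inner ℝ (u - v) x : ℝ) ≤ ‖u - v‖ * ‖x‖ := real_inner_le_norm _ _
      have h3 : ‖u - v‖ * ‖x‖ ≤ max R 0 * dist u v := by
        rw [dist_eq_norm, mul_comm]
        exact mul_le_mul_of_nonneg_right (hR' x hx) (norm_nonneg _)
      have h4 := hle x hx v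
      show _ ≤ hs K v + max R 0 * dist u v
      linarith
    exact hL.continuous
  · intro u hu
    obtain ⟨r, hr, hb⟩ := Metric.isOpen_iff.1 isOpen_interior 0 hi
    have hun : 0 < ‖u‖ := norm_pos_iff.2 hu
    have hx : (r / 2 / ‖u‖) • u ∈ K := by
      apply interior_subset
      apply hb
      rw [mem_ball_zero_iff, norm_smul, Real.norm_eq_abs, abs_of_pos (by positivity),
        div_mul_cancel₀ _ hun.ne']
      linarith
    refine lt_of_lt_of_le ?_ (hle _ hx u)
    rw [inner_smul_right, real_inner_self_eq_norm_sq]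
    positivity
  · obtain ⟨x, hx, h1⟩ := hat 0
    rw [← h1, inner_zero_left]
  · intro t u ht
    obtain ⟨x, hx, h1⟩ := hat u
    obtain ⟨y, hy, h2⟩ := hat (t • u)
    apply le_antisymm
    · rw [← h2, real_inner_smul_left]
      exact mul_le_mul_of_nonneg_left (hle y hy u) ht
    · rw [← h1, ← real_inner_smul_left]
      exact hle x hx (t • u)
  · intro u v
    obtain ⟨x, hx, h1⟩ := hat (u + v)
    rw [← h1, inner_add_left]
    exact add_le_add (hle x hx u) (hle x hx v)

end H829KB
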