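import Pool.Agent.H829R2.KB.Defs

set_option autoImplicit false

open MeasureTheory Filter Topology Module
open scoped Pointwise ENNReal
open Pool.Agent.Results.MP_6cdc09_gt.AlmostComplex

namespace H829KB

theorem hsa_max {W : Type} [NormedAddCommGroup W] [InnerProductSpace ℝ W] (K : Set W)
    (hK : B0 K) (u : W) : IsGreatest ((fun x => inner ℝ u x) '' K) (hs K u) := by
  have hne : K.Nonempty := ⟨0, interior_subset hK.2.2⟩
  obtain ⟨x, hx, hmax⟩ := hK.1.exists_isMaxOn hne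
    (f := fun x => inner ℝ u x) (by fun_prop)
  have h1 : IsGreatest ((fun x => inner ℝ u x) '' K) (inner ℝ u x) := by
    refine ⟨⟨x, hx, rfl⟩, ?_⟩
    rintro _ ⟨y, hy, rfl⟩
    exact hmax hy
  rw [hs, h1.csSup_eq]
  exact h1

theorem t_HSA : S_HSA := by
  intro W _ _ K L hK hL
  refine ⟨⟨hK.1.add hL.1, hK.2.1.add hL.2.1, ?_⟩, ?_⟩
  · have h0 : (0 : W) ∈ L := interior_subset hL.2.2
    have hsub : K ⊆ K + L := fun x hx => ⟨x, hx, 0, h0, add_zero x⟩
    exact interior_mono hsub hK.2.2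
  · intro u
    obtain ⟨⟨x, hx, hxe⟩, hxu⟩ := hsa_max K hK u
    obtain ⟨⟨y, hy, hye⟩, hyu⟩ := hsa_max L hL u
    dsimp only at hxe hye
    have h1 : IsGreatest ((fun x => inner ℝ u x) '' (K + L)) (hs K u + hs L u) := by
      refine ⟨⟨x + y, ⟨x, hx, y, hy, rfl⟩, ?_⟩, ?_⟩
      · dsimp only
        rw [inner_add_right, hxe, hye]
      · rintro _ ⟨_, ⟨a, ha, b, hb, rfl⟩, rfl⟩
        dsimp only
        rw [inner_add_right]
        exact add_le_add (hxu ⟨a, ha, rfl⟩) (hyu ⟨b, hb, rfl⟩)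
    exact h1.csSup_eq

end H829KB
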