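import Pool.Agent.H829R2.KB.Defs

/-! KB, task KEY -/

set_option autoImplicit false

open MeasureTheory Filter Topology Module
open scoped Pointwise ENNReal
open Pool.Agent.Results.MP_6cdc09_gt.AlmostComplex

namespace H829KB

theorem KEY_ev_cont {m : ℕ} (P : Po m) : Continuous (ev P) := by
  unfold ev
  refine (MvPolynomial.continuous_eval P).comp (continuous_pi fun i => ?_)
  cases i with
  | inl i =>
    simp only [Sum.elim_inl]
    fun_prop
  | inr i =>
    simp only [Sum.elim_inr]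
    fun_prop

theorem KEY_ev_one {m : ℕ} (x : Cn (m + 2)) : ev (1 : Po m) x = 1 := by
  simp [ev]

/-- pointwise inequality 1 -/
theorem KEY_pw1 (b η : ℝ) (q p : ℂ) (h : ‖(b : ℂ) - p‖ ≤ η) :
    b ^ 2 - ‖q‖ ^ 2 - 2 * (((b : ℂ) - q) * starRingEnd ℂ p).re ≤ η ^ 2 := by
  have h1 : ‖(b : ℂ) - p‖ ^ 2 ≤ η ^ 2 := pow_le_pow_left₀ (norm_nonneg _) h 2
  have h2 : 0 ≤ ‖q - p‖ ^ 2 := by positivity
  rw [← Complex.normSq_eq_norm_sq, Complex.normSq_apply] at h1 h2 ⊢
  simp only [Complex.mul_re, Complex.sub_re, Complex.sub_im, Complex.ofReal_re,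
    Complex.ofReal_im, Complex.conj_re, Complex.conj_im] at h1 h2 ⊢
  nlinarith

/-- pointwise inequality 2 -/
theorem KEY_pw2 (a b : ℝ) (p q : ℂ) :
    0 ≤ (a - b) ^ 2 - 2 * (((a : ℂ) - b) * (p - q)).re +
      ((starRingEnd ℂ p - starRingEnd ℂ q) * (p - q)).re := by
  simp only [Complex.mul_re, Complex.sub_re, Complex.sub_im, Complex.ofReal_re,
    Complex.ofReal_im, Complex.conj_re, Complex.conj_im]
  nlinarith [sq_nonneg ((a - b) - (p.re - q.re)), sq_nonneg (p.im - q.im)]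

section abs

variable {X : Type} [TopologicalSpace X] [CompactSpace X] [MeasurableSpace X] [BorelSpace X]
  (μ : Measure X) [IsProbabilityMeasure μ]

theorem KEY_int {E : Type} [NormedAddCommGroup E] [NormedSpace ℝ E]
    (F : X → E) (hF : Continuous F) : Integrable F μ :=
  hF.integrable_of_hasCompactSupport (HasCompactSupport.of_compactSpace _)

theorem KEY_re (F : X → ℂ) (hF : Continuous F) : (∫ x, F x ∂μ).re = ∫ x, (F x).re ∂μ :=
  (integral_re (KEY_int μ F hF)).symm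

theorem KEY_A1 (b : X → ℝ) (q : X → ℂ) (hb : Continuous b) (hq : Continuous q)
    (h0 : ∫ x, b x ∂μ = 0) (h : ∫ x, ((b x : ℂ) - q x) * starRingEnd ℂ 1 ∂μ = 0) :
    ∫ x, q x ∂μ = 0 := by
  have hbC : Continuous fun x => (b x : ℂ) := Complex.continuous_ofReal.comp hb
  simp only [map_one, mul_one] at h
  rw [integral_sub (KEY_int μ _ hbC) (KEY_int μ _ hq), integral_complex_ofReal, h0] at h
  simpa using h

theorem KEY_A2 (b : X → ℝ) (q d : X → ℂ) (hb : Continuous b) (hq : Continuous q)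
    (hd : Continuous d) (h : ∫ x, ((b x : ℂ) - q x) * starRingEnd ℂ (d x) ∂μ = 0) :
    ∫ x, (b x : ℂ) * d x ∂μ = ∫ x, starRingEnd ℂ (q x) * d x ∂μ := by
  have hbC : Continuous fun x => (b x : ℂ) := Complex.continuous_ofReal.comp hb
  have hqC : Continuous fun x => starRingEnd ℂ (q x) := Complex.continuous_conj.comp hq
  have i1 : Integrable (fun x => (b x : ℂ) * d x) μ := KEY_int μ _ (hbC.mul hd)
  have i2 : Integrable (fun x => starRingEnd ℂ (q x) * d x) μ := KEY_int μ _ (hqC.mul hd)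
  rw [← sub_eq_zero, ← integral_sub i1 i2]
  have h' := congrArg (starRingEnd ℂ) h
  rw [← integral_conj, map_zero] at h'
  rw [← h']
  congr 1
  funext x
  simp only [map_mul, map_sub, Complex.conj_ofReal, Complex.conj_conj]
  ring

theorem KEY_A3 (b : X → ℝ) (q p : X → ℂ) (η : ℝ) (hb : Continuous b) (hq : Continuous q)
    (hp : Continuous p) (h : ∫ x, ((b x : ℂ) - q x) * starRingEnd ℂ (p x) ∂μ = 0)
    (hη : ∀ x, ‖(b x : ℂ) - p x‖ ≤ η) :
    ∫ x, b x ^ 2 ∂μ - η ^ 2 ≤ ∫ x, ‖q x‖ ^ 2 ∂μ := by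
  have hbC : Continuous fun x => (b x : ℂ) := Complex.continuous_ofReal.comp hb
  have hpC : Continuous fun x => starRingEnd ℂ (p x) := Complex.continuous_conj.comp hp
  have c3 : Continuous fun x => ((b x : ℂ) - q x) * starRingEnd ℂ (p x) := (hbC.sub hq).mul hpC
  have c4 : Continuous fun x => 2 * (((b x : ℂ) - q x) * starRingEnd ℂ (p x)).re :=
    continuous_const.mul (Complex.continuous_re.comp c3)
  have i1 : Integrable (fun x => b x ^ 2) μ := KEY_int μ _ (hb.pow 2)
  have i2 : Integrable (fun x => ‖q x‖ ^ 2) μ := KEY_int μ _ (hq.norm.pow 2)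
  have i3 : Integrable (fun x => 2 * (((b x : ℂ) - q x) * starRingEnd ℂ (p x)).re) μ :=
    KEY_int μ _ c4
  have i5 : Integrable (fun x => b x ^ 2 - ‖q x‖ ^ 2) μ := i1.sub i2
  have i6 : Integrable (fun x => b x ^ 2 - ‖q x‖ ^ 2 -
    2 * (((b x : ℂ) - q x) * starRingEnd ℂ (p x)).re) μ := i5.sub i3
  have h1 := integral_mono i6 (integrable_const (μ := μ) (η ^ 2))
    (fun x => KEY_pw1 (b x) η (q x) (p x) (hη x))
  have h3 : ∫ x, 2 * (((b x : ℂ) - q x) * starRingEnd ℂ (p x)).re ∂μ = 0 := by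
    rw [integral_const_mul, ← KEY_re μ _ c3, h]; simp
  rw [integral_sub i5 i3, integral_sub i1 i2, h3, integral_const] at h1
  simp at h1
  linarith

theorem KEY_A4 (a b : X → ℝ) (p q : X → ℂ) (ha : Continuous a) (hb : Continuous b)
    (hp : Continuous p) (hq : Continuous q) :
    2 * (∫ x, ((a x : ℂ) - b x) * (p x - q x) ∂μ).re -
      (∫ x, (starRingEnd ℂ (p x) - starRingEnd ℂ (q x)) * (p x - q x) ∂μ).re ≤
      ∫ x, (a x - b x) ^ 2 ∂μ := by
  have haC : Continuous fun x => (a x : ℂ) := Complex.continuous_ofReal.comp ha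
  have hbC : Continuous fun x => (b x : ℂ) := Complex.continuous_ofReal.comp hb
  have hpC : Continuous fun x => starRingEnd ℂ (p x) := Complex.continuous_conj.comp hp
  have hqC : Continuous fun x => starRingEnd ℂ (q x) := Complex.continuous_conj.comp hq
  have c1 : Continuous fun x => ((a x : ℂ) - b x) * (p x - q x) :=
    (haC.sub hbC).mul (hp.sub hq)
  have c2 : Continuous fun x => (starRingEnd ℂ (p x) - starRingEnd ℂ (q x)) * (p x - q x) :=
    (hpC.sub hqC).mul (hp.sub hq)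
  have i0 : Integrable (fun x => (a x - b x) ^ 2) μ := KEY_int μ _ ((ha.sub hb).pow 2)
  have i1 : Integrable (fun x => 2 * (((a x : ℂ) - b x) * (p x - q x)).re) μ :=
    KEY_int μ _ (continuous_const.mul (Complex.continuous_re.comp c1))
  have i2 : Integrable (fun x => ((starRingEnd ℂ (p x) - starRingEnd ℂ (q x)) *
    (p x - q x)).re) μ := KEY_int μ _ (Complex.continuous_re.comp c2)
  have i3 : Integrable (fun x => (a x - b x) ^ 2 - 2 * (((a x : ℂ) - b x) * (p x - q x)).re) μ :=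
    i0.sub i1
  have h := integral_nonneg (μ := μ) (f := fun x => (a x - b x) ^ 2 -
    2 * (((a x : ℂ) - b x) * (p x - q x)).re +
      ((starRingEnd ℂ (p x) - starRingEnd ℂ (q x)) * (p x - q x)).re)
    (fun x => KEY_pw2 (a x) (b x) (p x) (q x))
  rw [integral_add i3 i2, integral_sub i0 i1, integral_const_mul, ← KEY_re μ _ c1,
    ← KEY_re μ _ c2] at h
  linarith

end abs

theorem t_KEY (h1 : S_HAA) (h2 : S_LIM) (h3 : S_GAP) (h4 : S_DEN) (h5 : S_PRO) (h6 : S_MON) :
    S_KEY := by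
  intro m c hc hc2 f hf hM1 ε hε
  have hact := (h1 (m + 2)).2.2.2
  have hnorm : ∀ φ : Un (m + 2), ‖actU φ (e1 m)‖ = 1 := by
    intro φ
    have : actU φ (e1 m) = isoU φ (e1 m) := rfl
    rw [this, LinearIsometryEquiv.norm_map]
    simp [e1]
  obtain ⟨η, hη, hη2⟩ : ∃ η : ℝ, 0 < η ∧ η ^ 2 ≤ ε / 2 := by
    refine ⟨Real.sqrt (ε / 2), Real.sqrt_pos.2 (by linarith), ?_⟩
    rw [Real.sq_sqrt (by linarith)]
  obtain ⟨P', hP'⟩ := h4 m f hf η hη
  obtain ⟨P, hP, horth⟩ := h5 m P'.totalDegree f hf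
  -- functions
  have cb : ∀ x : Cn (m + 2), Continuous fun φ : Un (m + 2) => f (actU φ x) := fun x =>
    hf.comp (hact x)
  have cev : ∀ (Q : Po m) (x : Cn (m + 2)), Continuous fun φ : Un (m + 2) => ev Q (actU φ x) :=
    fun Q x => (KEY_ev_cont Q).comp (hact x)
  -- orthogonality relations
  have ho1 : ∫ φ : Un (m + 2), ev P (actU φ (e1 m)) ∂(haarU _) = 0 := by
    have h := horth 1 (by
      rw [MvPolynomial.mem_restrictTotalDegree, MvPolynomial.totalDegree_one]; exact Nat.zero_le _)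
    simp only [KEY_ev_one] at h
    exact KEY_A1 _ _ _ (cb _) (cev _ _) hM1 h
  have ho2 := horth P' (by rw [MvPolynomial.mem_restrictTotalDegree])
  have ho3 := horth (DO m c P) ((h6 m c P'.totalDegree).1 P hP)
  have hbd := KEY_A2 _ _ _ _ (cb _) (cev _ _) (cev _ _) ho3
  have hM2 := KEY_A3 _ _ _ _ η (cb _) (cev _ _) (cev _ _) ho2
    (fun φ => (hP' _ (hnorm φ)).le)
  have hgap := h3 m c hc hc2 P ho1
  -- limits
  have hfC : Continuous fun x : Cn (m + 2) => (f x : ℂ) := Complex.continuous_ofReal.comp hf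
  have hPC : Continuous fun x : Cn (m + 2) => starRingEnd ℂ (ev P x) :=
    Complex.continuous_conj.comp (KEY_ev_cont P)
  have l1 := h2 m c hc _ hfC P
  have l2 := h2 m c hc _ hPC P
  rw [hbd] at l1
  have l3 := ((Complex.continuous_re.tendsto _).comp l1).const_mul 2
  have l4 := l3.sub ((Complex.continuous_re.tendsto _).comp l2)
  have hval : M2 f - ε < 2 * (∫ φ : Un (m + 2), starRingEnd ℂ (ev P (actU φ (e1 m))) *
      ev (DO m c P) (actU φ (e1 m)) ∂(haarU _)).re -
      (∫ φ : Un (m + 2), starRingEnd ℂ (ev P (actU φ (e1 m))) *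
      ev (DO m c P) (actU φ (e1 m)) ∂(haarU _)).re := by
    have : M2 f - η ^ 2 ≤ ∫ φ : Un (m + 2), ‖ev P (actU φ (e1 m))‖ ^ 2 ∂(haarU _) := hM2
    linarith
  filter_upwards [l4.eventually_const_lt hval, self_mem_nhdsWithin] with t ht ht0
  have ht0' : (0 : ℝ) < t := ht0
  have ht2 : (0 : ℝ) < t ^ 2 := by positivity
  have h7 := KEY_A4 (haarU (m + 2)) (fun φ : Un (m + 2) => f (actU φ (ee m c t)))
    (fun φ : Un (m + 2) => f (actU φ (e1 m))) (fun φ : Un (m + 2) => ev P (actU φ (ee m c t)))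
    (fun φ : Un (m + 2) => ev P (actU φ (e1 m))) (cb _) (cb _) (cev _ _) (cev _ _)
  have e7 : ∀ z : ℂ, (z / (t : ℂ) ^ 2).re = z.re / t ^ 2 := by
    intro z
    rw [← Complex.ofReal_pow, Complex.div_ofReal_re]
  have h8 : 2 * (GB (m := m) c t (fun x => (f x : ℂ)) (ev P) / (t : ℂ) ^ 2).re -
      (GB (m := m) c t (fun x => starRingEnd ℂ (ev P x)) (ev P) / (t : ℂ) ^ 2).re ≤
      GD c t f / t ^ 2 := by
    rw [e7, e7, ← mul_div_assoc, ← sub_div]
    exact (div_le_div_iff_of_pos_right ht2).2 h7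
  exact (ht.trans_le h8).le

end H829KB
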