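import Pool.Agent.H829R2.KB.Defs

set_option autoImplicit false

open MeasureTheory Filter Topology Module
open scoped Pointwise ENNReal
open Pool.Agent.Results.MP_6cdc09_gt.AlmostComplex

namespace H829KB

/-- LAB -/
theorem t_LAB : S_LAB := by
  intro m c hc p q hpq
  have hm : (0 : ℝ) ≤ m := Nat.cast_nonneg m
  have hs : ((m : ℝ) + 1) / (2 * (m + 2)) ≤ 1 - c ^ 2 := by
    rw [div_le_iff₀ (by positivity)]
    nlinarith
  have hs0 : 0 < 1 - c ^ 2 := lt_of_lt_of_le (by positivity) hs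
  unfold lam
  set s := 1 - c ^ 2 with hsd
  rcases Nat.eq_zero_or_pos p with hp | hp
  · subst hp
    have hq : (1 : ℝ) ≤ q := by exact_mod_cast (by omega : 1 ≤ q)
    have hc2 : 0 ≤ c ^ 2 := sq_nonneg c
    have h1 : (1 : ℝ) ≤ (q : ℝ) ^ 2 := by nlinarith
    have h2 : c ^ 2 ≤ c ^ 2 * (q : ℝ) ^ 2 := le_mul_of_one_le_right hc2 h1
    have h3 : s ≤ s * (q : ℝ) := le_mul_of_one_le_right hs0.le hq
    have e : c ^ 2 * (((0 : ℕ) : ℝ) - q) ^ 2 + s * (((0 : ℕ) : ℝ) + q) +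
        2 * s / (m + 1) * (((0 : ℕ) : ℝ) * q) = c ^ 2 * (q : ℝ) ^ 2 + s * q := by
      push_cast
      ring
    rw [e]
    linarith
  · rcases Nat.eq_zero_or_pos q with hq | hq
    · subst hq
      have hp' : (1 : ℝ) ≤ p := by exact_mod_cast hp
      have hc2 : 0 ≤ c ^ 2 := sq_nonneg c
      have h1 : (1 : ℝ) ≤ (p : ℝ) ^ 2 := by nlinarith
      have h2 : c ^ 2 ≤ c ^ 2 * (p : ℝ) ^ 2 := le_mul_of_one_le_right hc2 h1
      have h3 : s ≤ s * (p : ℝ) := le_mul_of_one_le_right hs0.le hp'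
      have e : c ^ 2 * ((p : ℝ) - ((0 : ℕ) : ℝ)) ^ 2 + s * ((p : ℝ) + ((0 : ℕ) : ℝ)) +
          2 * s / (m + 1) * ((p : ℝ) * ((0 : ℕ) : ℝ)) = c ^ 2 * (p : ℝ) ^ 2 + s * p := by
        push_cast
        ring
      rw [e]
      linarith
    · have hp' : (1 : ℝ) ≤ p := by exact_mod_cast hp
      have hq' : (1 : ℝ) ≤ q := by exact_mod_cast hq
      have h0 : 0 ≤ c ^ 2 * ((p : ℝ) - q) ^ 2 := by positivity
      have h1 : s * 2 ≤ s * ((p : ℝ) + q) := mul_le_mul_of_nonneg_left (by linarith) hs0.le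
      have h2 : 2 * s / (m + 1) * 1 ≤ 2 * s / (m + 1) * ((p : ℝ) * q) := by
        refine mul_le_mul_of_nonneg_left ?_ (by positivity)
        nlinarith
      have h3 : 1 ≤ s * 2 + 2 * s / (m + 1) * 1 := by
        have e : s * 2 + 2 * s / (m + 1) * 1 = s * (2 * (m + 2) / (m + 1)) := by
          field_simp
          ring
        rw [e]
        calc (1 : ℝ) = ((m : ℝ) + 1) / (2 * (m + 2)) * (2 * (m + 2) / (m + 1)) := by
              field_simp
          _ ≤ s * (2 * (m + 2) / (m + 1)) := mul_le_mul_of_nonneg_right hs (by positivity)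
      linarith

end H829KB
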