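import Pool.Agent.H829R2.KB.Defs

/-! LIM (helper911) -/

set_option autoImplicit false

open MeasureTheory Filter Topology Module
open scoped Pointwise ENNReal
open Pool.Agent.Results.MP_6cdc09_gt.AlmostComplex

namespace H829KB

theorem LIM_ev_cont {m : ℕ} (P : Po m) : Continuous (ev P) := by
  unfold ev
  refine (MvPolynomial.continuous_eval P).comp ?_
  refine continuous_pi fun i => ?_
  rcases i with i | i
  · simp only [Sum.elim_inl]
    fun_prop
  · simp only [Sum.elim_inr]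
    fun_prop

theorem LIM_D_cont {X : Type} [TopologicalSpace X] {m : ℕ} (P : Po m) (x β : X → Cn (m + 2))
    (hx : Continuous x) (hβ : Continuous β) :
    Continuous fun φ => D2 P (x φ) (β φ) - D1 P (x φ) (x φ) := by
  have h : ∀ Q : Po m, Continuous fun φ => ev Q (x φ) := fun Q => (LIM_ev_cont Q).comp hx
  have hb : ∀ i, Continuous fun φ => (β φ) i := fun i => by fun_prop
  have ha : ∀ i, Continuous fun φ => (x φ) i := fun i => by fun_prop
  have hb' : ∀ i, Continuous fun φ => starRingEnd ℂ ((β φ) i) := fun i =>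
    Complex.continuous_conj.comp (hb i)
  have ha' : ∀ i, Continuous fun φ => starRingEnd ℂ ((x φ) i) := fun i =>
    Complex.continuous_conj.comp (ha i)
  unfold D2 D1
  refine Continuous.sub ?_ ?_
  · refine continuous_finsetSum _ fun i _ => continuous_finsetSum _ fun j _ => ?_
    exact (((h _).mul ((hb i).mul (hb j))).add
      (continuous_const.mul ((h _).mul ((hb i).mul (hb' j))))).add
      ((h _).mul ((hb' i).mul (hb' j)))
  · refine continuous_finsetSum _ fun i _ => ?_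
    exact ((h _).mul (ha i)).add ((h _).mul (ha' i))

theorem LIM_hD {X : Type} [TopologicalSpace X] {m : ℕ} (P : Po m) (F : Cn (m + 2) → ℂ)
    (x β : X → Cn (m + 2)) (hF : Continuous fun φ => F (x φ)) (hx : Continuous x)
    (hβ : Continuous β) :
    Continuous fun φ => F (x φ) * (D2 P (x φ) (β φ) - D1 P (x φ) (x φ)) :=
  hF.mul (LIM_D_cont P x β hx hβ)

theorem LIM_norm_actU {n : ℕ} (φ : Un n) (x : Cn n) : ‖actU φ x‖ = ‖x‖ := by
  have h : isoU φ x = actU φ x := rfl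
  rw [← h]
  exact (isoU φ).norm_map x

theorem LIM_norm_e1 (m : ℕ) : ‖e1 m‖ = 1 := by simp [e1]

theorem LIM_norm_bb (m : ℕ) (c : ℝ) (hc : c ^ 2 ≤ 1) : ‖bb m c‖ = 1 := by
  have h1 : ‖bb m c‖ ^ 2 = 1 := by
    rw [EuclideanSpace.norm_sq_eq, Fin.sum_univ_succ, Fin.sum_univ_succ]
    have h2 : (bb m c) 0 = Complex.I * c := by
      simp [bb, e1, e2]
    have h3 : (bb m c) (Fin.succ 0) = ((Real.sqrt (1 - c ^ 2) : ℝ) : ℂ) := by
      simp [bb, e1, e2]
    have h4 : ∀ i : Fin m, (bb m c) (Fin.succ (Fin.succ i)) = 0 := by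
      intro i
      simp [bb, e1, e2, Fin.ext_iff]
    rw [h2, h3]
    simp only [h4]
    rw [norm_mul, Complex.norm_I, one_mul, Complex.norm_real, Complex.norm_real,
      Real.norm_of_nonneg (Real.sqrt_nonneg _), Real.sq_sqrt (by linarith), Real.norm_eq_abs,
      sq_abs]
    simp
  have h2 : 0 ≤ ‖bb m c‖ := norm_nonneg _
  nlinarith

theorem LIM_act_ee {m : ℕ} (φ : Un (m + 2)) (c t : ℝ) :
    actU φ (ee m c t) = Real.cos t • actU φ (e1 m) + Real.sin t • actU φ (bb m c) := by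
  rw [← act_apply, ← act_apply, ← act_apply, ee, map_add, map_smul, map_smul]

/-- the pointwise estimate -/
theorem LIM_pt (f a b e d D : ℂ) (B C t : ℝ) (ht : 0 < t) (hB : 0 ≤ B)
    (hf : ‖f‖ ≤ B)
    (k1 : ‖a - (e + (t : ℂ) * d + (t : ℂ) ^ 2 / 2 * D)‖ ≤ C * t ^ 3)
    (k2 : ‖b - (e + ((-t : ℝ) : ℂ) * d + ((-t : ℝ) : ℂ) ^ 2 / 2 * D)‖ ≤ C * t ^ 3) :
    ‖f * (2 * e - a - b) / (t : ℂ) ^ 2 + f * D‖ ≤ 2 * B * C * t := by
  have htc : (t : ℂ) ≠ 0 := by exact_mod_cast ht.ne'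
  have e1 : f * (2 * e - a - b) / (t : ℂ) ^ 2 + f * D
      = (f / (t : ℂ) ^ 2) * (-(a - (e + t * d + (t : ℂ) ^ 2 / 2 * D))
        - (b - (e + ((-t : ℝ) : ℂ) * d + ((-t : ℝ) : ℂ) ^ 2 / 2 * D))) := by
    push_cast
    field_simp
    ring
  have k3 : ‖-(a - (e + t * d + (t : ℂ) ^ 2 / 2 * D))
      - (b - (e + ((-t : ℝ) : ℂ) * d + ((-t : ℝ) : ℂ) ^ 2 / 2 * D))‖ ≤ 2 * C * t ^ 3 := by
    refine (norm_sub_le _ _).trans ?_
    rw [norm_neg]
    linarith
  rw [e1, norm_mul, norm_div, norm_pow, Complex.norm_real, Real.norm_of_nonneg ht.le]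
  refine (mul_le_mul (div_le_div_of_nonneg_right hf (by positivity)) k3
    (norm_nonneg _) (by positivity)).trans (le_of_eq ?_)
  field_simp

theorem LIM_int {m : ℕ} (_hprob : IsProbabilityMeasure (haarU (m + 2))) (f : Un (m + 2) → ℂ)
    (hf : Continuous f) : Integrable f (haarU (m + 2)) :=
  hf.integrable_of_hasCompactSupport (HasCompactSupport.of_compactSpace f)

theorem LIM_main (m : ℕ) (_hprob : IsProbabilityMeasure (haarU (m + 2)))
    (f g : Un (m + 2) → ℂ) (hf : Continuous f) (hg : Continuous g) (K : ℝ) (t : ℝ)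
    (hk : ∀ φ, ‖f φ / (t : ℂ) ^ 2 + g φ‖ ≤ K) (J : ℂ)
    (hJ : ∫ φ, g φ ∂(haarU (m + 2)) = - J) :
    ‖(∫ φ, f φ ∂(haarU (m + 2))) / (t : ℂ) ^ 2 - J‖ ≤ K := by
  have h1 : (∫ φ, f φ ∂(haarU (m + 2))) / (t : ℂ) ^ 2 - J
      = ∫ φ, (f φ / (t : ℂ) ^ 2 + g φ) ∂(haarU (m + 2)) := by
    rw [integral_add ((LIM_int _hprob f hf).div_const _) (LIM_int _hprob g hg), hJ, integral_div,
      sub_eq_add_neg]
  rw [h1]
  have h6 := norm_integral_le_of_norm_le_const (μ := haarU (m + 2)) (Eventually.of_forall hk)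
  simpa using h6

theorem t_LIM (h1 : S_HAA) (h2 : S_SYM) (h3 : S_TAY) (h4 : S_AVG) : S_LIM := by
  intro m c hc F hF P
  obtain ⟨hprob, -, -, hcont⟩ := h1 (m + 2)
  obtain ⟨C, hC⟩ := h3 m P
  have hx : Continuous fun φ : Un (m + 2) => actU φ (e1 m) := hcont _
  have hb : Continuous fun φ : Un (m + 2) => actU φ (bb m c) := hcont _
  have hFx : Continuous fun φ : Un (m + 2) => F (actU φ (e1 m)) := hF.comp hx
  obtain ⟨B, hB⟩ := isCompact_univ.exists_bound_of_continuousOn hFx.continuousOn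
  have hB0 : 0 ≤ B := (norm_nonneg _).trans (hB 1 (Set.mem_univ _))
  have hD : Continuous fun φ : Un (m + 2) => F (actU φ (e1 m)) *
      (D2 P (actU φ (e1 m)) (actU φ (bb m c)) - D1 P (actU φ (e1 m)) (actU φ (e1 m))) :=
    LIM_hD P F _ _ hFx hx hb
  have hev : ∀ t : ℝ, Continuous fun φ : Un (m + 2) => ev P (actU φ (ee m c t)) := fun t =>
    (LIM_ev_cont P).comp (hcont _)
  have hE : ∀ t : ℝ, Continuous fun φ : Un (m + 2) => F (actU φ (e1 m)) *
      (2 * ev P (actU φ (e1 m)) - ev P (actU φ (ee m c t)) - ev P (actU φ (ee m c (-t)))) :=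
    fun t => hFx.mul (((continuous_const.mul ((LIM_ev_cont P).comp hx)).sub (hev t)).sub
      (hev (-t)))
  have h5 := h4 m c hc F hF P
  have h7 := h2 m c hc
  rw [tendsto_iff_norm_sub_tendsto_zero]
  have hlim : Tendsto (fun t : ℝ => 2 * B * |C| * t) (𝓝[>] 0) (𝓝 0) := by
    have : Tendsto (fun t : ℝ => 2 * B * |C| * t) (𝓝 0) (𝓝 (2 * B * |C| * 0)) :=
      (continuous_const.mul continuous_id).tendsto 0
    rw [mul_zero] at this
    exact this.mono_left nhdsWithin_le_nhds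
  have hev1 : ∀ᶠ t : ℝ in 𝓝[>] 0, t < 1 := nhdsWithin_le_nhds (gt_mem_nhds one_pos)
  refine squeeze_zero' (Eventually.of_forall fun _ => norm_nonneg _) ?_ hlim
  filter_upwards [hev1, self_mem_nhdsWithin] with t ht1 ht0
  have ht0' : 0 < t := ht0
  rw [h7 t F (ev P) hF (LIM_ev_cont P)]
  refine LIM_main m hprob _ _ (hE t) hD _ t ?_ _ h5
  intro φ
  have nx : ‖actU φ (e1 m)‖ ≤ 1 := by rw [LIM_norm_actU, LIM_norm_e1]
  have nβ : ‖actU φ (bb m c)‖ ≤ 1 := by rw [LIM_norm_actU, LIM_norm_bb m c hc]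
  have k1 := hC (actU φ (e1 m)) (actU φ (bb m c)) nx nβ t (by rw [abs_of_pos ht0']; exact ht1.le)
  have k2 := hC (actU φ (e1 m)) (actU φ (bb m c)) nx nβ (-t)
    (by rw [abs_neg, abs_of_pos ht0']; exact ht1.le)
  rw [← LIM_act_ee, abs_of_pos ht0'] at k1
  rw [← LIM_act_ee, abs_neg, abs_of_pos ht0'] at k2
  have hCt : C * t ^ 3 ≤ |C| * t ^ 3 :=
    mul_le_mul_of_nonneg_right (le_abs_self C) (by positivity)
  exact LIM_pt _ _ _ _ _ _ B |C| t ht0' hB0 (hB φ (Set.mem_univ _)) (k1.trans hCt)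
    (k2.trans hCt)

end H829KB
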