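import Pool.Agent.H829R2.KB.Defs

/-! Task MO4: moments of the entries of Haar unitary matrices (helper118). -/

set_option autoImplicit false

open MeasureTheory Filter Topology Module Matrix
open Pool.Agent.Results.MP_6cdc09_gt.AlmostComplex

namespace H829KB

namespace MO4

variable {m : ℕ}

/-- the first row -/
noncomputable def x (φ : Un (m + 2)) (j : Fin (m + 2)) : ℂ :=
  (φ : Matrix (Fin (m + 2)) (Fin (m + 2)) ℂ) 0 j

theorem x_cont (j : Fin (m + 2)) : Continuous fun φ : Un (m + 2) => x φ j :=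
  (continuous_apply_apply (0 : Fin (m + 2)) j).comp
    (continuous_subtype_val : Continuous fun φ : Un (m + 2) =>
      (φ : Matrix (Fin (m + 2)) (Fin (m + 2)) ℂ))

theorem int (F : Un (m + 2) → ℝ) (hF : Continuous F) : Integrable F (haarU (m + 2)) :=
  hF.integrable_of_hasCompactSupport (HasCompactSupport.of_compactSpace F)

theorem inv (h : S_HAA) (ψ : Un (m + 2)) (G : Un (m + 2) → ℝ) :
    ∫ φ, G (φ * ψ) ∂(haarU _) = ∫ φ, G φ ∂(haarU _) := by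
  have h1 := (h (m + 2)).2.1 ψ (fun φ => (G φ : ℂ))
  have e1 : ∫ φ, ((G (φ * ψ) : ℝ) : ℂ) ∂(haarU (m + 2)) =
      ((∫ φ, G (φ * ψ) ∂(haarU (m + 2)) : ℝ) : ℂ) := integral_ofReal
  have e2 : ∫ φ, ((G φ : ℝ) : ℂ) ∂(haarU (m + 2)) =
      ((∫ φ, G φ ∂(haarU (m + 2)) : ℝ) : ℂ) := integral_ofReal
  rw [e1, e2] at h1
  exact_mod_cast h1

theorem row (φ : Un (m + 2)) : ∑ j, ‖x φ j‖ ^ 2 = 1 := by
  have h1 := congrFun (congrFun (Matrix.mem_unitaryGroup_iff.1 φ.2) 0) 0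
  rw [Matrix.mul_apply, Matrix.one_apply_eq] at h1
  have h2 : ∀ j, (φ : Matrix (Fin (m + 2)) (Fin (m + 2)) ℂ) 0 j *
      (star (φ : Matrix (Fin (m + 2)) (Fin (m + 2)) ℂ)) j 0 = ((‖x φ j‖ ^ 2 : ℝ) : ℂ) := by
    intro j
    rw [Matrix.star_apply]
    show x φ j * (starRingEnd ℂ) (x φ j) = _
    rw [Complex.mul_conj, Complex.normSq_eq_norm_sq]
  rw [Finset.sum_congr rfl fun j _ => h2 j, ← Complex.ofReal_sum] at h1
  exact_mod_cast h1

theorem perm (h : S_HAA) (τ : Equiv.Perm (Fin (m + 2))) (G : (Fin (m + 2) → ℂ) → ℝ) :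
    ∫ φ : Un (m + 2), G (fun j => x φ (τ j)) ∂(haarU _) = ∫ φ : Un (m + 2), G (x φ) ∂(haarU _) := by
  rw [← inv h (permU τ.symm) (fun φ => G (x φ))]
  congr 1
  funext φ
  congr 1
  funext j
  show _ = ((φ : Matrix (Fin (m + 2)) (Fin (m + 2)) ℂ) *
    ((permU τ.symm : Un (m + 2)) : Matrix (Fin (m + 2)) (Fin (m + 2)) ℂ)) 0 j
  have : ((permU τ.symm : Un (m + 2)) : Matrix (Fin (m + 2)) (Fin (m + 2)) ℂ) =
    (τ.symm.toPEquiv.toMatrix : Matrix (Fin (m + 2)) (Fin (m + 2)) ℂ) := rfl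
  rw [this, PEquiv.mul_toMatrix_toPEquiv]
  rfl

/-- diagonal unitary matrix -/
noncomputable def dU (z : ℂ) (hz : z * star z = 1) : Un (m + 2) :=
  ⟨Matrix.diagonal (fun k => if k = 1 then z else 1), by
    rw [Matrix.mem_unitaryGroup_iff, Matrix.star_eq_conjTranspose, Matrix.diagonal_conjTranspose,
      Matrix.diagonal_mul_diagonal, ← Matrix.diagonal_one]
    congr 1
    funext k
    rw [Pi.star_apply]
    split_ifs
    · exact hz
    · simp⟩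

theorem dg (h : S_HAA) (z : ℂ) (hz : z * star z = 1) (G : ℂ → ℂ → ℝ) :
    ∫ φ : Un (m + 2), G (x φ 0) (x φ 1 * z) ∂(haarU _) =
      ∫ φ : Un (m + 2), G (x φ 0) (x φ 1) ∂(haarU _) := by
  rw [← inv h (dU z hz) (fun φ => G (x φ 0) (x φ 1))]
  congr 1
  funext φ
  have h0 : x (φ * dU z hz) 0 = x φ 0 := by
    show ((φ : Matrix (Fin (m + 2)) (Fin (m + 2)) ℂ) *
      Matrix.diagonal (fun k : Fin (m + 2) => if k = 1 then z else 1)) 0 0 = _
    rw [Matrix.mul_diagonal, if_neg (by simp), mul_one]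
    rfl
  have h1 : x (φ * dU z hz) 1 = x φ 1 * z := by
    show ((φ : Matrix (Fin (m + 2)) (Fin (m + 2)) ℂ) *
      Matrix.diagonal (fun k : Fin (m + 2) => if k = 1 then z else 1)) 0 1 = _
    rw [Matrix.mul_diagonal, if_pos rfl]
    rfl
  rw [h0, h1]

/-- the vector of the reflection -/
noncomputable def v (k : Fin (m + 2)) : ℂ := if k = 0 then 3 / 5 else if k = 1 then 4 / 5 else 0

theorem v_star : star (v : Fin (m + 2) → ℂ) = v := by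
  funext k
  rw [Pi.star_apply]
  unfold v
  split_ifs <;> simp

theorem v_sum (f : Fin (m + 2) → ℂ) : ∑ k, f k * v k = f 0 * (3 / 5) + f 1 * (4 / 5) := by
  rw [Fin.sum_univ_succ, Fin.sum_univ_succ, Finset.sum_eq_zero]
  · unfold v
    simp [Fin.succ_zero_eq_one]
  · intro i _
    unfold v
    rw [if_neg (Fin.succ_ne_zero _), if_neg, mul_zero]
    rw [← Fin.succ_zero_eq_one]
    intro h
    exact Fin.succ_ne_zero _ (Fin.succ_injective _ h)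

/-- the reflection -/
noncomputable def rU : Un (m + 2) :=
  ⟨1 - (2 : ℂ) • Matrix.vecMulVec v v, by
    rw [Matrix.mem_unitaryGroup_iff, Matrix.star_eq_conjTranspose, Matrix.conjTranspose_sub,
      Matrix.conjTranspose_one, Matrix.conjTranspose_smul, Matrix.conjTranspose_vecMulVec, v_star]
    have h2 : star (2 : ℂ) = 2 := by simp
    have h3 : (v : Fin (m + 2) → ℂ) ⬝ᵥ v = 1 := by
      show ∑ k, v k * v k = 1
      rw [v_sum]
      unfold v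
      simp
      norm_num
    rw [h2]
    have h4 : Matrix.vecMulVec v v * Matrix.vecMulVec v v =
        (Matrix.vecMulVec v v : Matrix (Fin (m + 2)) (Fin (m + 2)) ℂ) := by
      rw [Matrix.vecMulVec_mul_vecMulVec, h3, one_smul]
    rw [sub_mul, mul_sub, mul_sub, one_mul, mul_one, smul_mul_smul_comm, h4, one_mul]
    module⟩

theorem rot (h : S_HAA) (G : ℂ → ℝ) :
    ∫ φ : Un (m + 2), G ((7 / 25) * x φ 0 - (24 / 25) * x φ 1) ∂(haarU _) =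
      ∫ φ : Un (m + 2), G (x φ 0) ∂(haarU _) := by
  rw [← inv h rU (fun φ => G (x φ 0))]
  congr 1
  funext φ
  congr 1
  show _ = ((φ : Matrix (Fin (m + 2)) (Fin (m + 2)) ℂ) *
      (1 - (2 : ℂ) • Matrix.vecMulVec v v : Matrix (Fin (m + 2)) (Fin (m + 2)) ℂ) :
      Matrix (Fin (m + 2)) (Fin (m + 2)) ℂ) 0 0
  rw [mul_sub, mul_one, Matrix.sub_apply, mul_smul_comm, Matrix.smul_apply, Matrix.mul_apply]
  have : ∑ j, (φ : Matrix (Fin (m + 2)) (Fin (m + 2)) ℂ) 0 j *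
      (Matrix.vecMulVec v v : Matrix (Fin (m + 2)) (Fin (m + 2)) ℂ) j 0 =
      (∑ j, (φ : Matrix (Fin (m + 2)) (Fin (m + 2)) ℂ) 0 j * v j) * v (0 : Fin (m + 2)) := by
    rw [Finset.sum_mul]
    apply Finset.sum_congr rfl
    intro j _
    rw [Matrix.vecMulVec_apply]
    ring
  rw [this, v_sum]
  have hv : (v (0 : Fin (m + 2)) : ℂ) = 3 / 5 := by unfold v; rw [if_pos rfl]
  rw [hv, smul_eq_mul]
  unfold x
  ring

theorem two_perm (i j : Fin (m + 2)) (hij : i ≠ j) :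
    ∃ τ : Equiv.Perm (Fin (m + 2)), τ 0 = i ∧ τ 1 = j := by
  have h01 : (0 : Fin (m + 2)) ≠ 1 := by simp
  set k := (Equiv.swap 0 i) 1 with hk
  have hki : k ≠ i := by
    intro h
    have : (Equiv.swap 0 i) 1 = (Equiv.swap 0 i) 0 := by
      rw [← hk, h, Equiv.swap_apply_left]
    exact h01 ((Equiv.swap 0 i).injective this).symm
  refine ⟨Equiv.swap k j * Equiv.swap 0 i, ?_, ?_⟩
  · rw [Equiv.Perm.mul_apply, Equiv.swap_apply_left]
    exact Equiv.swap_apply_of_ne_of_ne hki.symm hij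
  · rw [Equiv.Perm.mul_apply, ← hk, Equiv.swap_apply_left]

theorem diagA (h : S_HAA) (j : Fin (m + 2)) :
    ∫ φ : Un (m + 2), ‖x φ j‖ ^ 2 * ‖x φ j‖ ^ 2 ∂(haarU _) =
      ∫ φ : Un (m + 2), ‖x φ 0‖ ^ 4 ∂(haarU _) := by
  have h1 := perm h (Equiv.swap 0 j) (fun y => ‖y 0‖ ^ 4)
  simp only [Equiv.swap_apply_left] at h1
  rw [← h1]
  congr 1
  funext φ
  ring

theorem one (h : S_HAA) (j : Fin (m + 2)) :
    ∫ φ : Un (m + 2), ‖x φ j‖ ^ 2 ∂(haarU _) = ∫ φ : Un (m + 2), ‖x φ 0‖ ^ 2 ∂(haarU _) := by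
  have h1 := perm h (Equiv.swap 0 j) (fun y => ‖y 0‖ ^ 2)
  simp only [Equiv.swap_apply_left] at h1
  exact h1

theorem offB (h : S_HAA) (i j : Fin (m + 2)) (hij : i ≠ j) :
    ∫ φ : Un (m + 2), ‖x φ i‖ ^ 2 * ‖x φ j‖ ^ 2 ∂(haarU _) =
      ∫ φ : Un (m + 2), ‖x φ 0‖ ^ 2 * ‖x φ 1‖ ^ 2 ∂(haarU _) := by
  obtain ⟨τ, h0, h1⟩ := two_perm i j hij
  have h2 := perm h τ (fun y => ‖y 0‖ ^ 2 * ‖y 1‖ ^ 2)
  simp only [h0, h1] at h2
  exact h2

theorem c2 (i j : Fin (m + 2)) :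
    Continuous fun φ : Un (m + 2) => ‖x φ i‖ ^ 2 * ‖x φ j‖ ^ 2 :=
  ((x_cont i).norm.pow 2).mul ((x_cont j).norm.pow 2)

theorem total1 (h : S_HAA) :
    ((m : ℝ) + 2) * ∫ φ : Un (m + 2), ‖x φ 0‖ ^ 2 ∂(haarU _) = 1 := by
  have := (h (m + 2)).1
  have h1 : ∫ φ : Un (m + 2), ∑ j, ‖x φ j‖ ^ 2 ∂(haarU _) = 1 := by
    simp only [row]
    simp
  have hI : ∀ j : Fin (m + 2), Integrable (fun φ : Un (m + 2) => ‖x φ j‖ ^ 2) (haarU (m + 2)) :=
    fun j => int _ ((x_cont j).norm.pow 2)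
  rw [integral_finsetSum _ fun j _ => hI j] at h1
  rw [Finset.sum_congr rfl fun j _ => one h j, Finset.sum_const, Finset.card_univ,
    Fintype.card_fin, nsmul_eq_mul] at h1
  push_cast at h1
  exact h1

theorem total2 (h : S_HAA) :
    ((m : ℝ) + 2) * ((∫ φ : Un (m + 2), ‖x φ 0‖ ^ 4 ∂(haarU _)) +
      ((m : ℝ) + 1) * ∫ φ : Un (m + 2), ‖x φ 0‖ ^ 2 * ‖x φ 1‖ ^ 2 ∂(haarU _)) = 1 := by
  have := (h (m + 2)).1
  have h1 : ∫ φ : Un (m + 2), ∑ i, ∑ j, ‖x φ i‖ ^ 2 * ‖x φ j‖ ^ 2 ∂(haarU _) = 1 := by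
    have : ∀ φ : Un (m + 2), ∑ i, ∑ j, ‖x φ i‖ ^ 2 * ‖x φ j‖ ^ 2 = 1 := by
      intro φ
      rw [← Finset.sum_mul_sum, row, mul_one]
    simp only [this]
    simp
  rw [integral_finsetSum _ fun i _ => int _ (continuous_finsetSum _ fun j _ => c2 i j)] at h1
  have h2 : ∀ i : Fin (m + 2), ∫ φ : Un (m + 2), ∑ j, ‖x φ i‖ ^ 2 * ‖x φ j‖ ^ 2 ∂(haarU _) =
      (∫ φ : Un (m + 2), ‖x φ 0‖ ^ 4 ∂(haarU _)) +
      ((m : ℝ) + 1) * ∫ φ : Un (m + 2), ‖x φ 0‖ ^ 2 * ‖x φ 1‖ ^ 2 ∂(haarU _) := by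
    intro i
    rw [integral_finsetSum _ fun j _ => int _ (c2 i j)]
    rw [← Finset.add_sum_erase _ _ (Finset.mem_univ i), diagA h i]
    congr 1
    rw [Finset.sum_congr rfl fun j hj => offB h i j (Finset.ne_of_mem_erase hj).symm,
      Finset.sum_const, Finset.card_erase_of_mem (Finset.mem_univ i), Finset.card_univ,
      Fintype.card_fin, nsmul_eq_mul]
    push_cast
    ring
  rw [Finset.sum_congr rfl fun i _ => h2 i, Finset.sum_const, Finset.card_univ,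
    Fintype.card_fin, nsmul_eq_mul] at h1
  push_cast at h1
  exact h1

/-- real part of `x_0 conj x_1` -/
noncomputable def r (a b : ℂ) : ℝ := a.re * b.re + a.im * b.im

/-- imaginary part -/
noncomputable def r' (a b : ℂ) : ℝ := a.im * b.re - a.re * b.im

theorem r_cont : Continuous fun φ : Un (m + 2) => r (x φ 0) (x φ 1) := by
  have h0 := x_cont (m := m) 0
  have h1 := x_cont (m := m) 1
  unfold r
  exact ((Complex.continuous_re.comp h0).mul (Complex.continuous_re.comp h1)).add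
    ((Complex.continuous_im.comp h0).mul (Complex.continuous_im.comp h1))

theorem r'_cont : Continuous fun φ : Un (m + 2) => r' (x φ 0) (x φ 1) := by
  have h0 := x_cont (m := m) 0
  have h1 := x_cont (m := m) 1
  unfold r'
  exact ((Complex.continuous_im.comp h0).mul (Complex.continuous_re.comp h1)).sub
    ((Complex.continuous_re.comp h0).mul (Complex.continuous_im.comp h1))

theorem odd (h : S_HAA) (C S : ℝ) :
    ∫ φ : Un (m + 2), r (x φ 0) (x φ 1) * (C * ‖x φ 0‖ ^ 2 + S * ‖x φ 1‖ ^ 2) ∂(haarU _) = 0 := by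
  have h1 := dg (m := m) h (-1) (by simp) (fun a b => r a b * (C * ‖a‖ ^ 2 + S * ‖b‖ ^ 2))
  have h2 : ∀ a b : ℂ, r a (b * -1) * (C * ‖a‖ ^ 2 + S * ‖b * -1‖ ^ 2) =
      -(r a b * (C * ‖a‖ ^ 2 + S * ‖b‖ ^ 2)) := by
    intro a b
    have e1 : ‖b * -1‖ = ‖b‖ := by rw [mul_neg_one, norm_neg]
    have e2 : r a (b * -1) = -r a b := by
      rw [mul_neg_one]
      unfold r
      rw [Complex.neg_re, Complex.neg_im]
      ring
    rw [e1, e2]
    ring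
  simp only [h2] at h1
  rw [integral_neg] at h1
  linarith

theorem rr (h : S_HAA) :
    ∫ φ : Un (m + 2), r (x φ 0) (x φ 1) ^ 2 ∂(haarU _) =
      (∫ φ : Un (m + 2), ‖x φ 0‖ ^ 2 * ‖x φ 1‖ ^ 2 ∂(haarU _)) / 2 := by
  have h1 := dg (m := m) h Complex.I (by simp) (fun a b => r a b ^ 2)
  have h2 : ∀ a b : ℂ, r a (b * Complex.I) ^ 2 = r' a b ^ 2 := by
    intro a b
    unfold r r'
    simp
    ring
  simp only [h2] at h1
  have h3 : ∀ φ : Un (m + 2), ‖x φ 0‖ ^ 2 * ‖x φ 1‖ ^ 2 =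
      r (x φ 0) (x φ 1) ^ 2 + r' (x φ 0) (x φ 1) ^ 2 := by
    intro φ
    rw [← Complex.normSq_eq_norm_sq, ← Complex.normSq_eq_norm_sq, Complex.normSq_apply,
      Complex.normSq_apply]
    unfold r r'
    ring
  have h4 : ∫ φ : Un (m + 2), ‖x φ 0‖ ^ 2 * ‖x φ 1‖ ^ 2 ∂(haarU _) =
      (∫ φ : Un (m + 2), r (x φ 0) (x φ 1) ^ 2 ∂(haarU _)) +
      ∫ φ : Un (m + 2), r' (x φ 0) (x φ 1) ^ 2 ∂(haarU _) := by
    have j1 : Integrable (fun φ : Un (m + 2) => r (x φ 0) (x φ 1) ^ 2) (haarU _) :=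
      int _ (r_cont.pow 2)
    have j2 : Integrable (fun φ : Un (m + 2) => r' (x φ 0) (x φ 1) ^ 2) (haarU _) :=
      int _ (r'_cont.pow 2)
    rw [← integral_add j1 j2]
    congr 1
    funext φ
    exact h3 φ
  rw [h4, h1]
  ring

theorem lin5 (f₁ f₂ f₃ f₄ f₅ : Un (m + 2) → ℝ) (h₁ : Integrable f₁ (haarU _))
    (h₂ : Integrable f₂ (haarU _)) (h₃ : Integrable f₃ (haarU _)) (h₄ : Integrable f₄ (haarU _))
    (h₅ : Integrable f₅ (haarU _)) (c₁ c₂ c₃ c₄ c₅ : ℝ) :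
    ∫ φ, c₁ * f₁ φ + c₂ * f₂ φ + c₃ * f₃ φ + c₄ * f₄ φ + c₅ * f₅ φ ∂(haarU _) =
      c₁ * (∫ φ, f₁ φ ∂(haarU _)) + c₂ * (∫ φ, f₂ φ ∂(haarU _)) + c₃ * (∫ φ, f₃ φ ∂(haarU _)) +
      c₄ * (∫ φ, f₄ φ ∂(haarU _)) + c₅ * (∫ φ, f₅ φ ∂(haarU _)) := by
  have a1 : Integrable (fun φ => c₁ * f₁ φ) (haarU _) := h₁.const_mul c₁
  have a2 : Integrable (fun φ => c₂ * f₂ φ) (haarU _) := h₂.const_mul c₂
  have a3 : Integrable (fun φ => c₃ * f₃ φ) (haarU _) := h₃.const_mul c₃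
  have a4 : Integrable (fun φ => c₄ * f₄ φ) (haarU _) := h₄.const_mul c₄
  have a5 : Integrable (fun φ => c₅ * f₅ φ) (haarU _) := h₅.const_mul c₅
  have b2 : Integrable (fun φ => c₁ * f₁ φ + c₂ * f₂ φ) (haarU _) := a1.add a2
  have b3 : Integrable (fun φ => c₁ * f₁ φ + c₂ * f₂ φ + c₃ * f₃ φ) (haarU _) := b2.add a3
  have b4 : Integrable (fun φ => c₁ * f₁ φ + c₂ * f₂ φ + c₃ * f₃ φ + c₄ * f₄ φ) (haarU _) :=
    b3.add a4
  rw [integral_add b4 a5, integral_add b3 a4, integral_add b2 a3, integral_add a1 a2,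
    integral_const_mul, integral_const_mul, integral_const_mul, integral_const_mul,
    integral_const_mul]

theorem key (h : S_HAA) : ∫ φ : Un (m + 2), ‖x φ 0‖ ^ 4 ∂(haarU _) =
    2 * ∫ φ : Un (m + 2), ‖x φ 0‖ ^ 2 * ‖x φ 1‖ ^ 2 ∂(haarU _) := by
  have h1 := rot (m := m) h (fun z => ‖z‖ ^ 4)
  have h2 : ∀ a b : ℂ, ‖(7 / 25) * a - (24 / 25) * b‖ ^ 4 =
      (7 / 25 : ℝ) ^ 4 * (‖a‖ ^ 2 * ‖a‖ ^ 2) + (24 / 25 : ℝ) ^ 4 * (‖b‖ ^ 2 * ‖b‖ ^ 2) +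
      2 * (7 / 25) ^ 2 * (24 / 25) ^ 2 * (‖a‖ ^ 2 * ‖b‖ ^ 2) +
      (-(4 * (7 / 25) * (24 / 25))) * (r a b * ((7 / 25) ^ 2 * ‖a‖ ^ 2 + (24 / 25) ^ 2 * ‖b‖ ^ 2)) +
      4 * (7 / 25) ^ 2 * (24 / 25) ^ 2 * r a b ^ 2 := by
    intro a b
    have e : ‖(7 / 25) * a - (24 / 25) * b‖ ^ 4 = (‖(7 / 25) * a - (24 / 25) * b‖ ^ 2) ^ 2 := by
      ring
    rw [e, ← Complex.normSq_eq_norm_sq, ← Complex.normSq_eq_norm_sq, ← Complex.normSq_eq_norm_sq,
      Complex.normSq_apply, Complex.normSq_apply, Complex.normSq_apply]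
    have e1 : ((7 / 25) * a - (24 / 25) * b).re = 7 / 25 * a.re - 24 / 25 * b.re := by
      simp
    have e2 : ((7 / 25) * a - (24 / 25) * b).im = 7 / 25 * a.im - 24 / 25 * b.im := by
      simp
    rw [e1, e2]
    unfold r
    ring
  simp only [h2] at h1
  have i1 := int _ (c2 (m := m) 0 0)
  have i2 := int _ (c2 (m := m) 1 1)
  have i3 := int _ (c2 (m := m) 0 1)
  have i4 : Integrable (fun φ : Un (m + 2) => r (x φ 0) (x φ 1) *
      ((7 / 25 : ℝ) ^ 2 * ‖x φ 0‖ ^ 2 + (24 / 25) ^ 2 * ‖x φ 1‖ ^ 2)) (haarU _) :=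
    int _ (r_cont.mul ((continuous_const.mul ((x_cont 0).norm.pow 2)).add
      (continuous_const.mul ((x_cont 1).norm.pow 2))))
  have i5 : Integrable (fun φ : Un (m + 2) => r (x φ 0) (x φ 1) ^ 2) (haarU _) :=
    int _ (r_cont.pow 2)
  rw [lin5 _ _ _ _ _ i1 i2 i3 i4 i5, diagA h 0, diagA h 1, odd h, rr h] at h1
  linarith

theorem x0 (φ : Un (m + 2)) : (actU φ (e1 m)) 0 = x φ 0 := by
  show ((φ : Matrix (Fin (m + 2)) (Fin (m + 2)) ℂ) *ᵥ (e1 m).ofLp) 0 = _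
  unfold e1 x
  rw [EuclideanSpace.single]
  simp

theorem x1 (φ : Un (m + 2)) : (actU φ (e2 m)) 0 = x φ 1 := by
  show ((φ : Matrix (Fin (m + 2)) (Fin (m + 2)) ℂ) *ᵥ (e2 m).ofLp) 0 = _
  unfold e2 x
  rw [EuclideanSpace.single]
  simp

end MO4

open MO4 in
theorem t_MO4 (h : S_HAA) : S_MO4 := by
  intro m
  have t1 := total1 (m := m) h
  have t2 := total2 (m := m) h
  have t3 := key (m := m) h
  simp only [x0, x1]
  have p1 : (0 : ℝ) < (m : ℝ) + 2 := by positivity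
  have p2 : (0 : ℝ) < (m : ℝ) + 3 := by positivity
  rw [t3] at t2
  have hB : ∫ φ : Un (m + 2), ‖x φ 0‖ ^ 2 * ‖x φ 1‖ ^ 2 ∂(haarU _)
      = 1 / (((m : ℝ) + 2) * ((m : ℝ) + 3)) := by
    rw [eq_div_iff (by positivity)]
    linarith
  refine ⟨?_, ?_, hB⟩
  · rw [eq_div_iff (by positivity)]
    linarith
  · rw [t3, hB]
    ring

end H829KB
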