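import Pool.Agent.H829R2.KB.Defs

/-! Task MOM (helper196): moments of the second column of a Haar unitary matrix. -/

set_option autoImplicit false

open MeasureTheory Filter Topology Module
open scoped Pointwise ENNReal
open Pool.Agent.Results.MP_6cdc09_gt.AlmostComplex

namespace H829KB

theorem MOM_mul {n : ℕ} (φ ψ : Un n) (x : Cn n) : actU (φ * ψ) x = actU φ (actU ψ x) := by
  unfold actU
  simp [Matrix.mulVec_mulVec]

theorem MOM_app {n : ℕ} (φ : Un n) (k i : Fin n) :
    (actU φ (EuclideanSpace.single k (1 : ℂ))) i = (φ : Matrix (Fin n) (Fin n) ℂ) i k := by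
  simp [actU]

theorem MOM_smul {n : ℕ} (φ : Un n) (w : ℂ) (x : Cn n) (i : Fin n) :
    (actU φ (w • x)) i = w * (actU φ x) i := by
  simp [actU, Matrix.mulVec_smul]

/-- the diagonal unitary matrix with entries `1`, except for the entry `w` at `1` -/
noncomputable def MOM_D (m : ℕ) (w : ℂ) (hw : w * starRingEnd ℂ w = 1) : Un (m + 2) :=
  ⟨Matrix.diagonal (Function.update (fun _ => (1 : ℂ)) 1 w), by
    rw [Matrix.mem_unitaryGroup_iff, Matrix.star_eq_conjTranspose,
      Matrix.diagonal_conjTranspose, Matrix.diagonal_mul_diagonal, ← Matrix.diagonal_one]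
    congr 1
    funext i
    by_cases h : i = 1
    · subst h
      simpa using hw
    · simp [Function.update_of_ne h]⟩

theorem MOM_D1 (m : ℕ) (w : ℂ) (hw : w * starRingEnd ℂ w = 1) :
    actU (MOM_D m w hw) (e1 m) = e1 m := by
  ext i
  rw [e1, MOM_app]
  show Matrix.diagonal (Function.update (fun _ => (1 : ℂ)) 1 w) i 0 = _
  by_cases h : i = 0
  · subst h
    rw [Matrix.diagonal_apply_eq, Function.update_of_ne (by simp)]
    simp
  · rw [Matrix.diagonal_apply_ne _ h]
    simp [h]

theorem MOM_D2 (m : ℕ) (w : ℂ) (hw : w * starRingEnd ℂ w = 1) :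
    actU (MOM_D m w hw) (e2 m) = w • e2 m := by
  ext i
  rw [e2, MOM_app]
  show Matrix.diagonal (Function.update (fun _ => (1 : ℂ)) 1 w) i 1 = _
  by_cases h : i = 1
  · subst h
    rw [Matrix.diagonal_apply_eq, Function.update_self]
    simp
  · rw [Matrix.diagonal_apply_ne _ h]
    simp [h]

theorem MOM_perm {n : ℕ} (σ : Equiv.Perm (Fin n)) (k : Fin n) :
    actU (permU σ) (EuclideanSpace.single k (1 : ℂ)) = EuclideanSpace.single (σ.symm k) 1 := by
  ext i
  rw [MOM_app]
  show (σ.permMatrix ℂ) i k = _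
  by_cases h : i = σ.symm k
  · subst h
    simp [Equiv.Perm.permMatrix, PEquiv.toMatrix_apply]
  · have h' : σ i ≠ k := fun h2 => h (by rw [← h2]; simp)
    simp [Equiv.Perm.permMatrix, PEquiv.toMatrix_apply, h]
    exact h'

theorem MOM_cont (h : S_HAA) (m : ℕ) (F : Cn (m + 2) → ℂ) (hF : Continuous F)
    (i j k : Fin (m + 2)) : Integrable (fun φ : Un (m + 2) => F (actU φ (e1 m)) *
      ((actU φ (EuclideanSpace.single k (1 : ℂ))) i *
        starRingEnd ℂ ((actU φ (EuclideanSpace.single k (1 : ℂ))) j))) (haarU _) := by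
  have hc := (h (m + 2)).2.2.2
  have hi : ∀ l : Fin (m + 2), Continuous fun x : Cn (m + 2) => x l := fun l => by fun_prop
  have h2 : Continuous (fun φ : Un (m + 2) => F (actU φ (e1 m)) *
      ((actU φ (EuclideanSpace.single k (1 : ℂ))) i *
        starRingEnd ℂ ((actU φ (EuclideanSpace.single k (1 : ℂ))) j))) := by
    refine (hF.comp (hc _)).mul (((hi i).comp (hc _)).mul ?_)
    exact Complex.continuous_conj.comp ((hi j).comp (hc _))
  exact h2.integrable_of_hasCompactSupport (HasCompactSupport.of_compactSpace _)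

theorem MOM_zero {x : ℂ} (h : -x = x) : x = 0 := by
  have : x + x = 0 := by nth_rewrite 1 [← h]; ring
  simpa using this

theorem t_MOM (h : S_HAA) : S_MOM := by
  intro m F hF i j
  have hr := (h (m + 2)).2.1
  have hm1 : (-1 : ℂ) * starRingEnd ℂ (-1) = 1 := by simp
  have hI : Complex.I * starRingEnd ℂ Complex.I = 1 := by simp
  refine ⟨?_, ?_, ?_, ?_, ?_⟩
  · apply MOM_zero
    conv_rhs => rw [← hr (MOM_D m (-1) hm1)]
    rw [← integral_neg]
    congr 1
    funext φ
    rw [MOM_mul, MOM_mul, MOM_D1, MOM_D2, MOM_smul]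
    ring
  · apply MOM_zero
    conv_rhs => rw [← hr (MOM_D m (-1) hm1)]
    rw [← integral_neg]
    congr 1
    funext φ
    rw [MOM_mul, MOM_mul, MOM_D1, MOM_D2, MOM_smul, map_mul, map_neg, map_one]
    ring
  · apply MOM_zero
    conv_rhs => rw [← hr (MOM_D m Complex.I hI)]
    rw [← integral_neg]
    congr 1
    funext φ
    rw [MOM_mul, MOM_mul, MOM_D1, MOM_D2, MOM_smul, MOM_smul]
    linear_combination (-F (actU φ (e1 m)) * ((actU φ (e2 m)) i * (actU φ (e2 m)) j)) *
      Complex.I_mul_I
  · apply MOM_zero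
    conv_rhs => rw [← hr (MOM_D m Complex.I hI)]
    rw [← integral_neg]
    congr 1
    funext φ
    rw [MOM_mul, MOM_mul, MOM_D1, MOM_D2, MOM_smul, MOM_smul, map_mul, map_mul, Complex.conj_I]
    linear_combination (-F (actU φ (e1 m)) * (starRingEnd ℂ ((actU φ (e2 m)) i) *
      starRingEnd ℂ ((actU φ (e2 m)) j))) * Complex.I_mul_I
  · -- the mixed moment
    set G : Fin (m + 2) → Un (m + 2) → ℂ := fun k φ => F (actU φ (e1 m)) *
      ((actU φ (EuclideanSpace.single k (1 : ℂ))) i *
        starRingEnd ℂ ((actU φ (EuclideanSpace.single k (1 : ℂ))) j)) with hG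
    have hA : ∀ k : Fin (m + 1), ∫ φ, G k.succ φ ∂(haarU _) = ∫ φ, G 1 φ ∂(haarU _) := by
      intro k
      rw [← hr (permU (Equiv.swap 1 k.succ))]
      congr 1
      funext φ
      simp only [hG]
      rw [MOM_mul, MOM_mul, MOM_perm]
      have e0 : actU (permU (Equiv.swap 1 k.succ)) (e1 m) = e1 m := by
        rw [e1, MOM_perm, Equiv.symm_swap, Equiv.swap_apply_of_ne_of_ne]
        · exact Fin.zero_ne_one
        · exact (Fin.succ_ne_zero k).symm
      rw [e0, Equiv.symm_swap, Equiv.swap_apply_right]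
    have hB : ∀ φ, ∑ k : Fin (m + 1), G k.succ φ = F (actU φ (e1 m)) *
        ((if i = j then 1 else 0) - (actU φ (e1 m)) i * starRingEnd ℂ ((actU φ (e1 m)) j)) := by
      intro φ
      have h1 : ∑ k : Fin (m + 2), (φ : Matrix (Fin (m + 2)) (Fin (m + 2)) ℂ) i k *
          starRingEnd ℂ ((φ : Matrix (Fin (m + 2)) (Fin (m + 2)) ℂ) j k) =
          if i = j then 1 else 0 := by
        have h2 := congrFun (congrFun (uu φ) i) j
        rw [Matrix.mul_apply, Matrix.one_apply] at h2
        simpa [Matrix.conjTranspose_apply] using h2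
      rw [Fin.sum_univ_succ] at h1
      simp only [hG, ← Finset.mul_sum, MOM_app]
      rw [show e1 m = EuclideanSpace.single 0 (1 : ℂ) from rfl, MOM_app, MOM_app, ← h1]
      ring
    have hC : (m + 1 : ℂ) * ∫ φ, G 1 φ ∂(haarU _) = ∫ φ : Un (m + 2), F (actU φ (e1 m)) *
        ((if i = j then 1 else 0) - (actU φ (e1 m)) i * starRingEnd ℂ ((actU φ (e1 m)) j))
          ∂(haarU _) := by
      rw [← integral_congr_ae (Eventually.of_forall hB), integral_finsetSum]
      · simp only [hA, Finset.sum_const, Finset.card_univ, Fintype.card_fin, nsmul_eq_mul]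
        push_cast
        ring
      · intro k _
        exact MOM_cont h m F hF i j k.succ
    have hm : (m + 1 : ℂ) ≠ 0 := by exact_mod_cast Nat.succ_ne_zero m
    rw [← hC, ← mul_assoc, one_div, inv_mul_cancel₀ hm, one_mul]
    rfl

end H829KB
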