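import Pool.Agent.H829R2.KB.Defs

set_option autoImplicit false

open MeasureTheory Filter Topology Module
open scoped Pointwise ENNReal
open Pool.Agent.Results.MP_6cdc09_gt.AlmostComplex

namespace H829KB

open MvPolynomial in
theorem MON_mem {m k : ℕ} (e : Fin (m + 2) ⊕ Fin (m + 2) →₀ ℕ) (a : ℂ) (he : e.degree ≤ k) :
    (monomial e a : Po m) ∈ UU m k := by
  rw [MvPolynomial.mem_restrictTotalDegree]
  exact (MvPolynomial.totalDegree_monomial_le e a).trans he

theorem MON_deg {σ : Type} (e : σ →₀ ℕ) (j : σ) :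
    (e - Finsupp.single j 1).degree ≤ e.degree ∧
      (e j ≠ 0 → (e - Finsupp.single j 1).degree + 1 = e.degree) := by
  classical
  have h1 : e j ≠ 0 → (e - Finsupp.single j 1).degree + 1 = e.degree := by
    intro h
    have h2 : e = (e - Finsupp.single j 1) + Finsupp.single j 1 := by
      ext i
      simp only [Finsupp.add_apply, Finsupp.tsub_apply, Finsupp.single_apply]
      split_ifs with hi
      · subst hi
        omega
      · simp
    conv_rhs => rw [h2]
    rw [map_add, Finsupp.degree_single]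
  refine ⟨?_, h1⟩
  by_cases h : e j = 0
  · have h2 : e - Finsupp.single j 1 = e := by
      ext i
      simp only [Finsupp.tsub_apply, Finsupp.single_apply]
      split_ifs with hi
      · subst hi
        omega
      · simp
    rw [h2]
  · have := h1 h
    omega

/-- number of holomorphic factors -/
noncomputable def MON_pl {m : ℕ} (e : Fin (m + 2) ⊕ Fin (m + 2) →₀ ℕ) : ℕ := ∑ i, e (Sum.inl i)
/-- number of antiholomorphic factors -/
noncomputable def MON_pr {m : ℕ} (e : Fin (m + 2) ⊕ Fin (m + 2) →₀ ℕ) : ℕ := ∑ i, e (Sum.inr i)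

theorem MON_pl_pr {m : ℕ} (e : Fin (m + 2) ⊕ Fin (m + 2) →₀ ℕ) :
    MON_pl e + MON_pr e = e.degree := by
  unfold MON_pl MON_pr
  rw [Finsupp.degree_eq_sum, Fintype.sum_sum_type]

open MvPolynomial in
theorem MON_EL {m : ℕ} (e : Fin (m + 2) ⊕ Fin (m + 2) →₀ ℕ) (a : ℂ) :
    EL (monomial e a : Po m) = ((MON_pl e : ℕ) : ℂ) • monomial e a := by
  have h1 : EL (monomial e a : Po m) = ∑ i, X (Sum.inl i) * pderiv (Sum.inl i) (monomial e a) := by
    unfold EL
    rw [LinearMap.sum_apply]
    rfl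
  rw [h1]
  simp only [X_mul_pderiv_monomial]
  rw [← Finset.sum_smul, MON_pl]
  rw [Nat.cast_smul_eq_nsmul]

open MvPolynomial in
theorem MON_ER {m : ℕ} (e : Fin (m + 2) ⊕ Fin (m + 2) →₀ ℕ) (a : ℂ) :
    ER (monomial e a : Po m) = ((MON_pr e : ℕ) : ℂ) • monomial e a := by
  have h1 : ER (monomial e a : Po m) = ∑ i, X (Sum.inr i) * pderiv (Sum.inr i) (monomial e a) := by
    unfold ER
    rw [LinearMap.sum_apply]
    rfl
  rw [h1]
  simp only [X_mul_pderiv_monomial]
  rw [← Finset.sum_smul, MON_pr]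
  rw [Nat.cast_smul_eq_nsmul]

open MvPolynomial in
theorem MON_LL {m k : ℕ} (e : Fin (m + 2) ⊕ Fin (m + 2) →₀ ℕ) (a : ℂ) (he : e.degree ≤ k + 1) :
    LL (monomial e a : Po m) ∈ UU m k := by
  have h1 : LL (monomial e a : Po m) =
      ∑ i, pderiv (Sum.inl i) (pderiv (Sum.inr i) (monomial e a)) := by
    unfold LL
    rw [LinearMap.sum_apply]
    rfl
  rw [h1]
  refine Submodule.sum_mem _ fun i _ => ?_
  rw [pderiv_monomial, pderiv_monomial]
  by_cases h : e (Sum.inr i) = 0
  · rw [h]
    simp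
  · apply MON_mem
    have h2 := (MON_deg e (Sum.inr i)).2 h
    have h3 := (MON_deg (e - Finsupp.single (Sum.inr i) 1) (Sum.inl i)).1
    omega

open MvPolynomial in
theorem MON_DO {m : ℕ} (c : ℝ) (e : Fin (m + 2) ⊕ Fin (m + 2) →₀ ℕ) (a : ℂ) :
    DO m c (monomial e a : Po m) =
      ((lam m c (MON_pl e) (MON_pr e) : ℝ) : ℂ) • (monomial e a : Po m) -
      ((2 * (1 - c ^ 2) / (m + 1) : ℝ) : ℂ) • LL (monomial e a : Po m) := by
  unfold DO
  simp only [LinearMap.add_apply, LinearMap.smul_apply, LinearMap.comp_apply, LinearMap.sub_apply,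
    map_sub, MON_EL, MON_ER, map_smul]
  unfold lam
  push_cast
  module

theorem MON_DO_mem {m : ℕ} (c : ℝ) (k : ℕ) (P : Po m) (hP : P ∈ UU m k) :
    DO m c P ∈ UU m k := by
  rw [MvPolynomial.mem_restrictTotalDegree] at hP
  rw [← MvPolynomial.support_sum_monomial_coeff P, map_sum]
  refine Submodule.sum_mem _ fun e he => ?_
  have h1 : e.degree ≤ k := (MvPolynomial.le_totalDegree he).trans hP
  rw [MON_DO]
  exact Submodule.sub_mem _ (Submodule.smul_mem _ _ (MON_mem e _ h1))
    (Submodule.smul_mem _ _ (MON_LL e _ (by omega)))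

theorem MON_prodL_mem {m : ℕ} (c : ℝ) (k : ℕ) (S : List ℝ) (P : Po m) (hP : P ∈ UU m k) :
    prodL (DO m c) S P ∈ UU m k := by
  induction S with
  | nil => exact hP
  | cons s S ih =>
    show (DO m c - (s : ℂ) • (LinearMap.id : Po m →ₗ[ℂ] Po m)) (prodL (DO m c) S P) ∈ UU m k
    rw [LinearMap.sub_apply]
    exact Submodule.sub_mem _ (MON_DO_mem c k _ ih) (Submodule.smul_mem _ _ ih)

theorem MON_prodL {m : ℕ} (c : ℝ) (k : ℕ) (S : List ℝ) (M : Po m) (l : ℝ)
    (hM : DO m c M - (l : ℂ) • M ∈ UU m k) :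
    prodL (DO m c) S M - (((S.map fun s => l - s).prod : ℝ) : ℂ) • M ∈ UU m k := by
  induction S with
  | nil => simp [prodL]
  | cons s S ih =>
    set π : ℝ := (S.map fun s => l - s).prod with hπ
    have h1 : prodL (DO m c) (s :: S) M - ((((s :: S).map fun s => l - s).prod : ℝ) : ℂ) • M =
        (DO m c (prodL (DO m c) S M - (π : ℂ) • M) -
          (s : ℂ) • (prodL (DO m c) S M - (π : ℂ) • M)) +
        (π : ℂ) • (DO m c M - (l : ℂ) • M) := by
      have h2 : prodL (DO m c) (s :: S) M = DO m c (prodL (DO m c) S M) -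
          (s : ℂ) • prodL (DO m c) S M := by
        show (DO m c - (s : ℂ) • (LinearMap.id : Po m →ₗ[ℂ] Po m)) (prodL (DO m c) S M) = _
        rw [LinearMap.sub_apply]
        rfl
      rw [h2, map_sub, map_smul, List.map_cons, List.prod_cons, ← hπ]
      push_cast
      module
    rw [h1]
    exact Submodule.add_mem _ (Submodule.sub_mem _ (MON_DO_mem c k _ ih)
      (Submodule.smul_mem _ _ ih)) (Submodule.smul_mem _ _ hM)

theorem t_MON : S_MON := by
  intro m c k
  refine ⟨fun P hP => MON_DO_mem c k P hP, fun P hP => ?_⟩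
  rw [MvPolynomial.mem_restrictTotalDegree] at hP
  rw [← MvPolynomial.support_sum_monomial_coeff P, map_sum]
  refine Submodule.sum_mem _ fun e he => ?_
  have h1 : e.degree ≤ k + 1 := (MvPolynomial.le_totalDegree he).trans hP
  rcases Nat.lt_or_ge e.degree (k + 1) with h2 | h2
  · exact MON_prodL_mem c k _ _ (MON_mem e _ (by omega))
  · have h3 : e.degree = k + 1 := le_antisymm h1 h2
    have h4 := MON_pl_pr e
    have h5 := MON_prodL c k (SL m c k) (MvPolynomial.monomial e (MvPolynomial.coeff e P) : Po m)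
      (lam m c (MON_pl e) (MON_pr e)) (by
        rw [MON_DO, sub_sub_cancel_left]
        exact Submodule.neg_mem _ (Submodule.smul_mem _ _ (MON_LL e _ h1)))
    have h6 : ((SL m c k).map fun s => lam m c (MON_pl e) (MON_pr e) - s).prod = 0 := by
      apply List.prod_eq_zero
      rw [List.mem_map]
      refine ⟨lam m c (MON_pl e) (MON_pr e), ?_, sub_self _⟩
      unfold SL
      rw [List.mem_map]
      refine ⟨MON_pl e, List.mem_range.2 (by omega), ?_⟩
      have h8 : k + 1 - MON_pl e = MON_pr e := by omega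
      simp only [h8]
    rw [h6] at h5
    simpa using h5

end H829KB
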