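import Pool.Agent.H829R2.KB.Defs

set_option autoImplicit false

open MeasureTheory Filter Topology Module
open scoped Pointwise ENNReal
open Pool.Agent.Results.MP_6cdc09_gt.AlmostComplex

namespace H829KB

theorem pli_cont_uv : Continuous uv := by
  unfold uv
  refine (PiLp.continuous_toLp 2 _).comp ?_
  apply continuous_pi
  intro i
  fin_cases i
  · exact Real.continuous_cos
  · exact Real.continuous_sin

theorem pli_norm_uv (t : ℝ) : ‖uv t‖ = 1 := by
  have : ‖uv t‖ ^ 2 = 1 := by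
    rw [← real_inner_self_eq_norm_sq, uv, PiLp.inner_apply, Fin.sum_univ_two]
    simp
  exact (sq_eq_sq₀ (norm_nonneg _) zero_le_one).1 (by rw [this, one_pow])

theorem pli_inner_uv (t : ℝ) (x : Pl) : inner ℝ (uv t) x = Real.cos t * x 0 + Real.sin t * x 1 := by
  rw [uv, PiLp.inner_apply, Fin.sum_univ_two]
  simp
  ring

theorem pli_st (k : ℕ) : st (2 ^ k) = 2 * st (2 ^ (k + 1)) := by
  rw [st, st]
  push_cast
  rw [pow_succ]
  field_simp

theorem pli_anti (f : ℝ → ℝ) : Antitone (fun k : ℕ => PN (2 ^ k) f) := by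
  apply antitone_nat_of_succ_le
  intro k x hx j hj
  have h1 := hx (2 * j) (by rw [pow_succ]; omega)
  have h2 : ((2 * j : ℕ) : ℝ) * st (2 ^ (k + 1)) = j * st (2 ^ k) := by
    rw [pli_st k]; push_cast; ring
  rw [h2] at h1
  exact h1

theorem pli_closed (N : ℕ) (f : ℝ → ℝ) : IsClosed (PN N f) := by
  have : PN N f = ⋂ (j : ℕ) (_ : j < N), {x : Pl | inner ℝ (uv (j * st N)) x ≤ f (j * st N)} := by
    ext x; simp [PN]
  rw [this]
  refine isClosed_iInter fun j => isClosed_iInter fun _ => ?_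
  exact isClosed_le (by fun_prop) continuous_const

theorem pli_sub (K : Set Pl) (h1 : S_HS) (hK : B0 K) (N : ℕ) : K ⊆ PN N (hp K) := by
  intro x hx j _
  exact (h1 K hK).2.2.2.2.2.1 x hx _

theorem pli_polar (w : Pl) (hw : w ≠ 0) : ∃ (r t : ℝ), 0 < r ∧ 0 ≤ t ∧ t < 2 * Real.pi ∧
    w = r • uv t := by
  set z : ℂ := ⟨w 0, w 1⟩ with hz
  have hz0 : z ≠ 0 := by
    intro h
    apply hw
    have h0 := congrArg Complex.re h
    have h1 := congrArg Complex.im h
    simp [hz] at h0 h1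
    ext i; fin_cases i
    · exact h0
    · exact h1
  have hr : 0 < ‖z‖ := norm_pos_iff.2 hz0
  have e0 := Complex.norm_mul_cos_arg z
  have e1 := Complex.norm_mul_sin_arg z
  have hw' : w = ‖z‖ • uv (Complex.arg z) := by
    ext i; fin_cases i
    · show w 0 = ‖z‖ * Real.cos (Complex.arg z)
      rw [e0]
    · show w 1 = ‖z‖ * Real.sin (Complex.arg z)
      rw [e1]
  have hlo := Complex.neg_pi_lt_arg z
  have hhi := Complex.arg_le_pi z
  have hpi := Real.pi_pos
  by_cases hneg : Complex.arg z < 0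
  · refine ⟨‖z‖, Complex.arg z + 2 * Real.pi, hr, by linarith, by linarith, ?_⟩
    rw [hw']
    simp only [uv, Real.cos_add_two_pi, Real.sin_add_two_pi]
  · exact ⟨‖z‖, Complex.arg z, hr, by linarith, by linarith, hw'⟩

theorem pli_inter (K : Set Pl) (h1 : S_HS) (hK : B0 K) :
    ⋂ k : ℕ, PN (2 ^ k) (hp K) = K := by
  apply Set.Subset.antisymm
  · intro x hx
    by_contra hxK
    obtain ⟨hcont, _, _, hhom, _, hle, hex⟩ := h1 K hK
    have h0K : (0 : Pl) ∈ K := interior_subset hK.2.2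
    obtain ⟨f, u, hfa, hfx⟩ := geometric_hahn_banach_closed_point hK.2.1 hK.1.isClosed hxK
    set w : Pl := (InnerProductSpace.toDual ℝ Pl).symm f with hw
    have hfw : ∀ y, f y = inner ℝ w y := fun y =>
      (InnerProductSpace.toDual_symm_apply (x := y) (y := f)).symm
    have hu0 : 0 < u := by
      have := hfa 0 h0K
      rwa [map_zero] at this
    have hw0 : w ≠ 0 := by
      intro h
      rw [hfw, h, inner_zero_left] at hfx
      linarith
    obtain ⟨r, t, hr, ht0, ht1, hrt⟩ := pli_polar w hw0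
    obtain ⟨y, hy, hye⟩ := hex w
    have hlt : hs K w < inner ℝ w x := by
      rw [← hye, ← hfw, ← hfw]
      exact (hfa y hy).trans hfx
    rw [hrt, hhom _ _ hr.le, real_inner_smul_left] at hlt
    have hg0 : 0 < inner ℝ (uv t) x - hs K (uv t) := by
      have := lt_of_mul_lt_mul_left hlt hr.le
      linarith
    have hgc : Continuous (fun s : ℝ => inner ℝ (uv s) x - hs K (uv s)) :=
      (pli_cont_uv.inner continuous_const).sub (hcont.comp pli_cont_uv)
    have hst0 : ∀ k : ℕ, 0 < st (2 ^ k) := by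
      intro k; rw [st]; push_cast; positivity
    have hstl : Tendsto (fun k : ℕ => st (2 ^ k)) atTop (𝓝 0) := by
      have e : (fun k : ℕ => st (2 ^ k)) = fun k : ℕ => (2 * Real.pi) * (1 / 2 : ℝ) ^ k := by
        funext k; rw [st]; push_cast; rw [one_div, inv_pow]; rfl
      rw [e]
      have := (tendsto_pow_atTop_nhds_zero_of_lt_one (by norm_num : (0:ℝ) ≤ 1 / 2)
        (by norm_num : (1/2 : ℝ) < 1)).const_mul (2 * Real.pi)
      rwa [mul_zero] at this
    have hlim : Tendsto (fun k : ℕ => ((⌊t / st (2 ^ k)⌋₊ : ℕ) : ℝ) * st (2 ^ k)) atTop (𝓝 t) := by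
      rw [tendsto_iff_dist_tendsto_zero]
      refine squeeze_zero (fun _ => dist_nonneg) (fun k => ?_) hstl
      rw [Real.dist_eq]
      have a1 : ((⌊t / st (2 ^ k)⌋₊ : ℕ) : ℝ) ≤ t / st (2 ^ k) :=
        Nat.floor_le (div_nonneg ht0 (hst0 k).le)
      have a2 : t / st (2 ^ k) < (⌊t / st (2 ^ k)⌋₊ : ℕ) + 1 := Nat.lt_floor_add_one _
      rw [le_div_iff₀ (hst0 k)] at a1
      rw [div_lt_iff₀ (hst0 k)] at a2
      rw [abs_le]
      constructor
      · nlinarith
      · linarith [(hst0 k)]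
    have hev := (hgc.tendsto t).comp hlim
    have hev2 := hev.eventually (lt_mem_nhds hg0)
    obtain ⟨k, hk⟩ := hev2.exists
    have hxk := Set.mem_iInter.1 hx k
    have hj : ⌊t / st (2 ^ k)⌋₊ < 2 ^ k := by
      rw [Nat.floor_lt (div_nonneg ht0 (hst0 k).le), div_lt_iff₀ (hst0 k)]
      have : ((2 ^ k : ℕ) : ℝ) * st (2 ^ k) = 2 * Real.pi := by
        rw [st]; push_cast; field_simp
      rw [this]; exact ht1
    have h3 := hxk _ hj
    unfold hp at h3
    simp only [Function.comp_apply] at hk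
    linarith
  · exact Set.subset_iInter fun k => pli_sub K h1 hK _

theorem pli_square (K : Set Pl) (h1 : S_HS) (hK : B0 K) (R : ℝ) (hR : ∀ x ∈ K, ‖x‖ ≤ R) :
    PN (2 ^ 2) (hp K) ⊆ {x : Pl | x.ofLp ∈ Set.Icc (fun _ => -R) (fun _ => R)} := by
  obtain ⟨_, _, _, _, _, _, hex⟩ := h1 K hK
  have hb : ∀ t, hp K t ≤ R := by
    intro t
    obtain ⟨y, hy, hye⟩ := hex (uv t)
    unfold hp
    rw [← hye]
    calc inner ℝ (uv t) y ≤ ‖uv t‖ * ‖y‖ := real_inner_le_norm _ _
      _ ≤ R := by rw [pli_norm_uv, one_mul]; exact hR y hy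
  intro x hx
  have e : st (2 ^ 2) = Real.pi / 2 := by rw [st]; push_cast; ring
  have c0 := (hx 0 (by norm_num)).trans (hb _)
  have c1 := (hx 1 (by norm_num)).trans (hb _)
  have c2 := (hx 2 (by norm_num)).trans (hb _)
  have c3 := (hx 3 (by norm_num)).trans (hb _)
  rw [pli_inner_uv, e] at c0 c1 c2 c3
  have t2 : ((2 : ℕ) : ℝ) * (Real.pi / 2) = Real.pi := by push_cast; ring
  have t3 : ((3 : ℕ) : ℝ) * (Real.pi / 2) = Real.pi / 2 + Real.pi := by push_cast; ring
  rw [t2] at c2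
  rw [t3, Real.cos_add_pi, Real.sin_add_pi] at c3
  simp at c0 c1 c2 c3
  constructor
  · intro i; fin_cases i
    · show -R ≤ x 0
      linarith
    · show -R ≤ x 1
      linarith
  · intro i; fin_cases i
    · show x 0 ≤ R
      linarith
    · show x 1 ≤ R
      linarith

theorem pli_vol (R : ℝ) : volume {x : Pl | x.ofLp ∈ Set.Icc (fun _ => -R) (fun _ => R)} =
    ENNReal.ofReal (2 * R) * ENNReal.ofReal (2 * R) := by
  have h := (PiLp.volume_preserving_ofLp (Fin 2)).measure_preimage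
    (s := Set.Icc (fun _ => -R) (fun _ => R)) measurableSet_Icc.nullMeasurableSet
  have e : {x : Pl | x.ofLp ∈ Set.Icc (fun _ => -R) (fun _ => R)} =
      (WithLp.ofLp) ⁻¹' (Set.Icc (fun _ : Fin 2 => -R) (fun _ => R)) := rfl
  rw [e, h, Real.volume_Icc_pi, Fin.prod_univ_two]
  have : R - -R = 2 * R := by ring
  rw [this]

theorem t_PLI (h1 : S_HS) (h2 : S_POL) : S_PLI := by
  intro K hK
  have hAN : ∀ k : ℕ, 2 ≤ k → 0 ≤ AN (2 ^ k) (hp K) ∧
      volume (PN (2 ^ k) (hp K)) = ENNReal.ofReal (AN (2 ^ k) (hp K)) := by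
    intro k hk
    obtain ⟨l, rfl⟩ : ∃ l, k = l + 2 := ⟨k - 2, by omega⟩
    have e : 2 ^ (l + 2) = 2 * 2 ^ (l + 1) := by rw [pow_succ]; ring
    have h3 : 2 ≤ 2 ^ (l + 1) := by
      rw [pow_succ]; have := Nat.one_le_two_pow (n := l); omega
    rw [e]
    exact h2 K _ hK h3
  have hANr : ∀ k : ℕ, 2 ≤ k → AN (2 ^ k) (hp K) = (volume (PN (2 ^ k) (hp K))).toReal := by
    intro k hk
    rw [(hAN k hk).2, ENNReal.toReal_ofReal (hAN k hk).1]
  constructor
  · have hlim : Tendsto (fun k : ℕ => volume (PN (2 ^ k) (hp K))) atTop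
        (𝓝 (volume (⋂ k : ℕ, PN (2 ^ k) (hp K)))) := by
      refine tendsto_measure_iInter_atTop (fun k => (pli_closed _ _).measurableSet.nullMeasurableSet)
        (pli_anti _) ⟨2, ?_⟩
      rw [(hAN 2 le_rfl).2]
      exact ENNReal.ofReal_ne_top
    rw [pli_inter K h1 hK] at hlim
    have hfin : volume K ≠ ⊤ := hK.1.measure_lt_top.ne
    have hlim2 := (ENNReal.tendsto_toReal hfin).comp hlim
    refine hlim2.congr' ?_
    filter_upwards [eventually_ge_atTop 2] with k hk
    exact (hANr k hk).symm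
  · intro R hR k hk
    have hR0 : 0 ≤ R := by
      have := hR 0 (interior_subset hK.2.2)
      rwa [norm_zero] at this
    rw [abs_of_nonneg (hAN k hk).1, hANr k hk]
    have hle : volume (PN (2 ^ k) (hp K)) ≤ ENNReal.ofReal (2 * R) * ENNReal.ofReal (2 * R) := by
      rw [← pli_vol]
      exact measure_mono ((pli_anti (hp K) hk).trans (pli_square K h1 hK R hR))
    have h4 := ENNReal.toReal_mono (by finiteness) hle
    rw [ENNReal.toReal_mul, ENNReal.toReal_ofReal (by positivity)] at h4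
    nlinarith

end H829KB
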