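import Pool.Agent.H829R2.KB.Defs

set_option autoImplicit false

open MeasureTheory Filter Topology Module
open scoped Pointwise ENNReal

namespace H829KB

theorem POL_inner (θ : ℝ) (x : Pl) :
    inner ℝ (uv θ) x = Real.cos θ * x 0 + Real.sin θ * x 1 := by
  simp [uv, PiLp.inner_apply, Fin.sum_univ_two]
  ring

theorem POL_uv0 (θ : ℝ) : (uv θ) 0 = Real.cos θ := by simp [uv]
theorem POL_uv1 (θ : ℝ) : (uv θ) 1 = Real.sin θ := by simp [uv]

theorem POL_ext {x y : Pl} (h0 : x 0 = y 0) (h1 : x 1 = y 1) : x = y := by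
  ext i
  fin_cases i
  · exact h0
  · exact h1

theorem POL_norm (θ : ℝ) : ‖uv θ‖ = 1 := by
  have h : ‖uv θ‖ ^ 2 = 1 := by
    rw [EuclideanSpace.norm_sq_eq, Fin.sum_univ_two, POL_uv0, POL_uv1, Real.norm_eq_abs,
      Real.norm_eq_abs, sq_abs, sq_abs]
    exact Real.cos_sq_add_sin_sq θ
  nlinarith [norm_nonneg (uv θ)]

theorem POL_ne (θ : ℝ) : uv θ ≠ 0 := by
  intro h
  have := POL_norm θ
  rw [h, norm_zero] at this
  exact zero_ne_one this

theorem POL_per (θ : ℝ) (n : ℤ) : uv (θ + n * (2 * Real.pi)) = uv θ := by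
  apply POL_ext
  · rw [POL_uv0, POL_uv0, Real.cos_add_int_mul_two_pi]
  · rw [POL_uv1, POL_uv1, Real.sin_add_int_mul_two_pi]

/-- the vertex after the line of angle `θ` -/
theorem POL_v0 (f : ℝ → ℝ) (δ θ : ℝ) : (vx f δ θ) 0 =
    f θ * Real.cos θ - (f (θ + δ) - f θ * Real.cos δ) / Real.sin δ * Real.sin θ := by
  have h : (vx f δ θ) 0 = f θ * (uv θ) 0 +
    ((f (θ + δ) - f θ * Real.cos δ) / Real.sin δ) * (uv (θ + Real.pi / 2)) 0 := by
    simp [vx]
  rw [h, POL_uv0, POL_uv0, Real.cos_add_pi_div_two]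
  ring

theorem POL_v1 (f : ℝ → ℝ) (δ θ : ℝ) : (vx f δ θ) 1 =
    f θ * Real.sin θ + (f (θ + δ) - f θ * Real.cos δ) / Real.sin δ * Real.cos θ := by
  have h : (vx f δ θ) 1 = f θ * (uv θ) 1 +
    ((f (θ + δ) - f θ * Real.cos δ) / Real.sin δ) * (uv (θ + Real.pi / 2)) 1 := by
    simp [vx]
  rw [h, POL_uv1, POL_uv1, Real.sin_add_pi_div_two]

/-- the vertex before the line of angle `θ` -/
theorem POL_m0 (f : ℝ → ℝ) (δ θ : ℝ) (hs : Real.sin δ ≠ 0) : (vx f δ (θ - δ)) 0 =
    f θ * Real.cos θ + (f (θ - δ) - f θ * Real.cos δ) / Real.sin δ * Real.sin θ := by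
  rw [POL_v0, sub_add_cancel, Real.cos_sub, Real.sin_sub]
  field_simp
  have := Real.sin_sq_add_cos_sq δ
  have e : Real.sin δ ^ 2 = 1 - Real.cos δ ^ 2 := by linarith
  ring_nf
  rw [e]
  ring

theorem POL_m1 (f : ℝ → ℝ) (δ θ : ℝ) (hs : Real.sin δ ≠ 0) : (vx f δ (θ - δ)) 1 =
    f θ * Real.sin θ - (f (θ - δ) - f θ * Real.cos δ) / Real.sin δ * Real.cos θ := by
  rw [POL_v1, sub_add_cancel, Real.cos_sub, Real.sin_sub]
  field_simp
  have := Real.sin_sq_add_cos_sq δ
  have e : Real.sin δ ^ 2 = 1 - Real.cos δ ^ 2 := by linarith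
  ring_nf
  rw [e]
  ring

/-- the triangle -/
def POL_T (p q : Pl) : Set Pl :=
  {x : Pl | ∃ α β : ℝ, 0 ≤ α ∧ 0 ≤ β ∧ α + β ≤ 1 ∧ x = α • p + β • q}

theorem POL_compact (p q : Pl) : IsCompact (POL_T p q) := by
  have h : POL_T p q = (fun y : ℝ × ℝ => y.1 • p + y.2 • q) ''
      {y | 0 ≤ y.1 ∧ 0 ≤ y.2 ∧ y.1 + y.2 ≤ 1} := by
    ext x
    constructor
    · rintro ⟨α, β, h1, h2, h3, rfl⟩
      exact ⟨(α, β), ⟨h1, h2, h3⟩, rfl⟩
    · rintro ⟨⟨α, β⟩, ⟨h1, h2, h3⟩, rfl⟩
      exact ⟨α, β, h1, h2, h3, rfl⟩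
  rw [h]
  apply IsCompact.image
  · apply IsCompact.of_isClosed_subset (isCompact_Icc (a := ((0 : ℝ), (0 : ℝ)))
      (b := ((1 : ℝ), (1 : ℝ))))
    · apply IsClosed.inter (isClosed_le continuous_const continuous_fst)
      exact IsClosed.inter (isClosed_le continuous_const continuous_snd)
        (isClosed_le (continuous_fst.add continuous_snd) continuous_const)
    · rintro ⟨α, β⟩ ⟨h1, h2, h3⟩
      simp only at h1 h2 h3
      exact ⟨⟨h1, h2⟩, ⟨by simp only; linarith, by simp only; linarith⟩⟩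
  · fun_prop

/-- a line through the origin is null -/
theorem POL_null (z : Pl) (hz : z ≠ 0) : volume {x : Pl | inner ℝ z x = 0} = 0 := by
  have h : {x : Pl | inner ℝ z x = 0} = ((ℝ ∙ z)ᗮ : Submodule ℝ Pl) := by
    ext x
    simp [Submodule.mem_orthogonal_singleton_iff_inner_right]
  rw [h]
  apply Measure.addHaar_submodule
  intro ht
  have : z ∈ ((ℝ ∙ z)ᗮ : Submodule ℝ Pl) := by rw [ht]; trivial
  rw [Submodule.mem_orthogonal_singleton_iff_inner_right] at this
  exact hz (inner_self_eq_zero.mp this)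

theorem POL_Nd (M : ℕ) (hM : 2 ≤ M) : ((2 * M : ℕ) : ℝ) * st (2 * M) = 2 * Real.pi := by
  unfold st
  have : ((2 * M : ℕ) : ℝ) ≠ 0 := by
    have : 0 < 2 * M := by omega
    exact_mod_cast this.ne'
  field_simp

theorem POL_dpos (M : ℕ) (hM : 2 ≤ M) : 0 < st (2 * M) ∧ st (2 * M) ≤ Real.pi / 2 := by
  have h := POL_Nd M hM
  have h4 : (4 : ℝ) ≤ ((2 * M : ℕ) : ℝ) := by
    have : 4 ≤ 2 * M := by omega
    exact_mod_cast this
  have hp := Real.pi_pos
  have hpos : 0 < st (2 * M) := by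
    unfold st
    positivity
  refine ⟨hpos, ?_⟩
  nlinarith

theorem POL_sin (M : ℕ) (hM : 2 ≤ M) : 0 < Real.sin (st (2 * M)) := by
  have h := POL_dpos M hM
  exact Real.sin_pos_of_pos_of_lt_pi h.1 (by linarith [Real.pi_pos])

theorem POL_cos (M : ℕ) (hM : 2 ≤ M) : 0 ≤ Real.cos (st (2 * M)) := by
  have h := POL_dpos M hM
  exact Real.cos_nonneg_of_neg_pi_div_two_le_of_le (by linarith [Real.pi_pos]) h.2

theorem POL_red (M : ℕ) (hM : 2 ≤ M) (k : ℤ) : ∃ k' : ℕ, k' < 2 * M ∧ ∃ q : ℤ,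
    (k : ℝ) * st (2 * M) = k' * st (2 * M) + q * (2 * Real.pi) := by
  have hN : (0 : ℤ) < ((2 * M : ℕ) : ℤ) := by
    have : 0 < 2 * M := by omega
    exact_mod_cast this
  have h0 := Int.emod_nonneg k hN.ne'
  have h1 := Int.emod_lt_of_pos k hN
  obtain ⟨k', hk'⟩ := Int.eq_ofNat_of_zero_le h0
  refine ⟨k', by rw [hk'] at h1; exact_mod_cast h1, k / ((2 * M : ℕ) : ℤ), ?_⟩
  have h2 := Int.emod_add_mul_ediv k ((2 * M : ℕ) : ℤ)
  rw [hk'] at h2
  have h3 : (k : ℝ) = (k' : ℝ) + ((2 * M : ℕ) : ℝ) * ((k / ((2 * M : ℕ) : ℤ) : ℤ) : ℝ) := by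
    exact_mod_cast h2.symm
  rw [← POL_Nd M hM]
  conv_lhs => rw [h3]
  ring

theorem POL_hper (K : Set Pl) (θ : ℝ) (n : ℤ) : hp K (θ + n * (2 * Real.pi)) = hp K θ := by
  unfold hp
  rw [POL_per]

theorem POL_vper (K : Set Pl) (δ θ : ℝ) (n : ℤ) :
    vx (hp K) δ (θ + n * (2 * Real.pi)) = vx (hp K) δ θ := by
  have e : θ + n * (2 * Real.pi) + δ = θ + δ + n * (2 * Real.pi) := by ring
  unfold vx
  rw [e, POL_hper, POL_hper, POL_per]
  have e2 : θ + n * (2 * Real.pi) + Real.pi / 2 = θ + Real.pi / 2 + n * (2 * Real.pi) := by ring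
  rw [e2, POL_per]

theorem POL_ver (hV : S_VER) (K : Set Pl) (hK : B0 K) (M : ℕ) (hM : 2 ≤ M) (j k : ℤ) :
    inner ℝ (uv (k * st (2 * M))) (vx (hp K) (st (2 * M)) (j * st (2 * M))) ≤
      hp K (k * st (2 * M)) := by
  obtain ⟨j', -, q, hj⟩ := POL_red M hM j
  obtain ⟨k', -, q', hk⟩ := POL_red M hM k
  rw [hj, hk, POL_per, POL_hper, POL_vper]
  exact hV K M hK hM j' k'

/-- for a point of the polygon the constraints hold for all integers -/
theorem POL_con (K : Set Pl) (M : ℕ) (hM : 2 ≤ M) (x : Pl) (r : ℝ)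
    (hx : ∀ k : ℕ, k < 2 * M → inner ℝ (uv (k * st (2 * M))) x ≤ r * hp K (k * st (2 * M)))
    (k : ℤ) : inner ℝ (uv (k * st (2 * M))) x ≤ r * hp K (k * st (2 * M)) := by
  obtain ⟨k', hk', q', hk⟩ := POL_red M hM k
  rw [hk, POL_per, POL_hper]
  exact hx k' hk'

/-- the triangle number `j` -/
noncomputable def POL_TT (K : Set Pl) (M : ℕ) (j : ℕ) : Set Pl :=
  POL_T (vx (hp K) (st (2 * M)) (((j : ℝ) - 1) * st (2 * M)))
    (vx (hp K) (st (2 * M)) (j * st (2 * M)))

/-- the length of the side number `j` -/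
noncomputable def POL_l (K : Set Pl) (M : ℕ) (j : ℕ) : ℝ :=
  (hp K (((j : ℝ) - 1) * st (2 * M)) + hp K (((j : ℝ) + 1) * st (2 * M))
    - 2 * Real.cos (st (2 * M)) * hp K (j * st (2 * M))) / Real.sin (st (2 * M))

theorem POL_hpos (hS : S_HS) (K : Set Pl) (hK : B0 K) (θ : ℝ) : 0 < hp K θ :=
  (hS K hK).2.1 _ (POL_ne θ)

theorem POL_lnn (hS : S_HS) (K : Set Pl) (hK : B0 K) (M : ℕ) (hM : 2 ≤ M) (j : ℕ) :
    0 ≤ POL_l K M j := by
  obtain ⟨-, -, -, hhom, hsub, -, -⟩ := hS K hK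
  apply div_nonneg _ (POL_sin M hM).le
  have e : (2 * Real.cos (st (2 * M))) • uv (j * st (2 * M)) =
      uv (((j : ℝ) - 1) * st (2 * M)) + uv (((j : ℝ) + 1) * st (2 * M)) := by
    apply POL_ext
    · simp only [PiLp.smul_apply, PiLp.add_apply, POL_uv0, smul_eq_mul, sub_mul, add_mul, one_mul,
        Real.cos_sub, Real.cos_add]
      ring
    · simp only [PiLp.smul_apply, PiLp.add_apply, POL_uv1, smul_eq_mul, sub_mul, add_mul, one_mul,
        Real.sin_sub, Real.sin_add]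
      ring
  have h1 := hsub (uv (((j : ℝ) - 1) * st (2 * M))) (uv (((j : ℝ) + 1) * st (2 * M)))
  rw [← e, hhom _ _ (by linarith [POL_cos M hM])] at h1
  unfold hp
  linarith

theorem POL_area (hS : S_HS) (hT : S_TRI) (K : Set Pl) (hK : B0 K) (M : ℕ) (hM : 2 ≤ M) (j : ℕ) :
    volume (POL_TT K M j) = ENNReal.ofReal (hp K (j * st (2 * M)) * POL_l K M j / 2) := by
  unfold POL_TT POL_T
  rw [hT]
  congr 2
  have hs := (POL_sin M hM).ne'
  have e : ((j : ℝ) - 1) * st (2 * M) = j * st (2 * M) - st (2 * M) := by ring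
  have e' : ((j : ℝ) + 1) * st (2 * M) = j * st (2 * M) + st (2 * M) := by ring
  have h0 : 0 ≤ hp K (j * st (2 * M)) * POL_l K M j :=
    mul_nonneg (POL_hpos hS K hK _).le (POL_lnn hS K hK M hM j)
  rw [← abs_of_nonneg h0]
  congr 1
  rw [e, POL_m0 _ _ _ hs, POL_m1 _ _ _ hs, POL_v0, POL_v1]
  unfold POL_l
  rw [e, e']
  have h1 := Real.sin_sq_add_cos_sq ((j : ℝ) * st (2 * M))
  linear_combination (hp K (j * st (2 * M)) * ((hp K (j * st (2 * M) - st (2 * M)) +
    hp K (j * st (2 * M) + st (2 * M)) - 2 * Real.cos (st (2 * M)) * hp K (j * st (2 * M))) /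
    Real.sin (st (2 * M)))) * h1

theorem POL_sub (hS : S_HS) (hV : S_VER) (K : Set Pl) (hK : B0 K) (M : ℕ) (hM : 2 ≤ M) (j : ℕ)
    (x : Pl) (hx : x ∈ POL_TT K M j) : ∃ r : ℝ, 0 ≤ r ∧ r ≤ 1 ∧
      inner ℝ (uv (j * st (2 * M))) x = r * hp K (j * st (2 * M)) ∧
      ∀ k : ℕ, inner ℝ (uv (k * st (2 * M))) x ≤ r * hp K (k * st (2 * M)) := by
  obtain ⟨α, β, h1, h2, h3, rfl⟩ := hx
  have hs := (POL_sin M hM).ne'
  have e : ((j : ℝ) - 1) * st (2 * M) = j * st (2 * M) - st (2 * M) := by ring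
  refine ⟨α + β, by linarith, h3, ?_, ?_⟩
  · rw [inner_add_right, inner_smul_right, inner_smul_right, POL_inner, POL_inner, e,
      POL_m0 _ _ _ hs, POL_m1 _ _ _ hs, POL_v0, POL_v1]
    have h1 := Real.sin_sq_add_cos_sq ((j : ℝ) * st (2 * M))
    linear_combination ((α + β) * hp K (j * st (2 * M))) * h1
  · intro k
    have a1 := POL_ver hV K hK M hM ((j : ℤ) - 1) k
    have a2 := POL_ver hV K hK M hM (j : ℤ) k
    push_cast at a1 a2
    rw [inner_add_right, inner_smul_right, inner_smul_right, add_mul]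
    exact add_le_add (mul_le_mul_of_nonneg_left a1 h1) (mul_le_mul_of_nonneg_left a2 h2)

/-- the polygon is covered by the triangles -/
theorem POL_cov (hS : S_HS) (K : Set Pl) (hK : B0 K) (M : ℕ) (hM : 2 ≤ M) (x : Pl)
    (hx : x ∈ PN (2 * M) (hp K)) : ∃ j ∈ Finset.range (2 * M), x ∈ POL_TT K M j := by
  have hs := POL_sin M hM
  have hne : (Finset.range (2 * M)).Nonempty := ⟨0, Finset.mem_range.mpr (by omega)⟩
  obtain ⟨j, hj, hmax⟩ := Finset.exists_max_image (Finset.range (2 * M))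
    (fun k : ℕ => inner ℝ (uv (k * st (2 * M))) x / hp K (k * st (2 * M))) hne
  refine ⟨j, hj, ?_⟩
  set r := inner ℝ (uv (j * st (2 * M))) x / hp K (j * st (2 * M)) with hr
  have hle : ∀ k : ℕ, k < 2 * M → inner ℝ (uv (k * st (2 * M))) x ≤
      r * hp K (k * st (2 * M)) := by
    intro k hk
    have := hmax k (Finset.mem_range.mpr hk)
    rwa [div_le_iff₀ (POL_hpos hS K hK _)] at this
  have hall := POL_con K M hM x r hle
  have hj1 : r ≤ 1 := by
    rw [hr, div_le_one (POL_hpos hS K hK _)]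
    exact hx j (Finset.mem_range.mp hj)
  have hjr : inner ℝ (uv (j * st (2 * M))) x = r * hp K (j * st (2 * M)) := by
    rw [hr]
    field_simp [(POL_hpos hS K hK (j * st (2 * M))).ne']
  have hMd : (M : ℝ) * st (2 * M) = Real.pi := by
    have := POL_Nd M hM
    push_cast at this
    linarith
  rcases le_or_gt r 0 with hr0 | hr0
  · -- the point is the origin
    have hz : ∀ k : ℤ, inner ℝ (uv (k * st (2 * M))) x ≤ 0 := fun k =>
      (hall k).trans (mul_nonpos_of_nonpos_of_nonneg hr0 (POL_hpos hS K hK _).le)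
    have hz' : ∀ k : ℤ, inner ℝ (uv (k * st (2 * M))) x = 0 := by
      intro k
      apply le_antisymm (hz k)
      have h2 := hz (k + M)
      have e : ((k + M : ℤ) : ℝ) * st (2 * M) = k * st (2 * M) + Real.pi := by
        push_cast
        rw [← hMd]
        ring
      rw [e, POL_inner, Real.cos_add_pi, Real.sin_add_pi] at h2
      rw [POL_inner]
      linarith
    have h0 := hz' 0
    have h1 := hz' 1
    rw [POL_inner] at h0 h1
    simp only [Int.cast_zero, zero_mul, Real.cos_zero, Real.sin_zero, one_mul, add_zero,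
      Int.cast_one] at h0 h1
    rw [h0, mul_zero, zero_add] at h1
    have h1' : x 1 = 0 := by
      rcases mul_eq_zero.mp h1 with h | h
      · exact absurd h hs.ne'
      · exact h
    refine ⟨0, 0, le_rfl, le_rfl, by norm_num, ?_⟩
    apply POL_ext
    · rw [h0]; simp
    · rw [h1']; simp
  · -- the point lies in the cone of the side number `j`
    clear_value r
    clear hr hmax
    set a := hp K (j * st (2 * M)) with ha
    set w : ℝ := - Real.sin (j * st (2 * M)) * x 0 + Real.cos (j * st (2 * M)) * x 1 with hw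
    have e : ((j : ℝ) - 1) * st (2 * M) = j * st (2 * M) - st (2 * M) := by ring
    have e' : ((j : ℝ) + 1) * st (2 * M) = j * st (2 * M) + st (2 * M) := by ring
    have hp1 := hall ((j : ℤ) + 1)
    have hm1 := hall ((j : ℤ) - 1)
    push_cast at hp1 hm1
    rw [e', POL_inner, Real.cos_add, Real.sin_add] at hp1
    rw [e, POL_inner, Real.cos_sub, Real.sin_sub] at hm1
    rw [POL_inner] at hjr
    set p := hp K (j * st (2 * M) + st (2 * M)) with hp'
    set m := hp K (j * st (2 * M) - st (2 * M)) with hm'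
    set C := Real.cos (st (2 * M)) with hC
    set S := Real.sin (st (2 * M)) with hSS
    set cj := Real.cos (j * st (2 * M)) with hcj
    set sj := Real.sin (j * st (2 * M)) with hsj
    have hcs : sj ^ 2 + cj ^ 2 = 1 := Real.sin_sq_add_cos_sq _
    have f1 : r * a * C + w * S ≤ r * p := by rw [← hjr, hw]; linarith
    have f2 : r * a * C - w * S ≤ r * m := by rw [← hjr, hw]; linarith
    set t := (p - a * C) / S with ht
    set s := (m - a * C) / S with hs'
    have g1 : w ≤ r * t := by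
      rw [ht, mul_div_assoc', le_div_iff₀ hs]
      linarith
    have g2 : - w ≤ r * s := by
      rw [hs', mul_div_assoc', le_div_iff₀ hs]
      linarith
    -- coordinates
    have hx0 : x 0 = r * a * cj - w * sj := by
      rw [← hjr, hw]
      linear_combination (- x 0) * hcs
    have hx1 : x 1 = r * a * sj + w * cj := by
      rw [← hjr, hw]
      linear_combination (- x 1) * hcs
    have key : ∃ α β : ℝ, 0 ≤ α ∧ 0 ≤ β ∧ α + β = r ∧ β * t - α * s = w := by
      rcases eq_or_lt_of_le (show 0 ≤ s + t by nlinarith) with h0 | h0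
      · refine ⟨r, 0, hr0.le, le_rfl, by ring, ?_⟩
        have : t = - s := by linarith
        rw [this] at g1
        linarith
      · refine ⟨(r * t - w) / (s + t), (w + r * s) / (s + t),
          div_nonneg (by linarith) h0.le, div_nonneg (by linarith) h0.le, ?_, ?_⟩
        · rw [← add_div, div_eq_iff h0.ne']
          ring
        · rw [div_mul_eq_mul_div, div_mul_eq_mul_div, ← sub_div, div_eq_iff h0.ne']
          ring
    obtain ⟨α, β, k1, k2, k3, k4⟩ := key
    refine ⟨α, β, k1, k2, by rw [k3]; exact hj1, ?_⟩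
    apply POL_ext
    · simp only [PiLp.smul_apply, PiLp.add_apply, smul_eq_mul]
      rw [e, POL_m0 _ _ _ hs.ne', POL_v0]
      rw [← ha, ← hp', ← hm', ← hC, ← hSS, ← hcj, ← hsj, ← ht, ← hs', hx0, ← k3, ← k4]
      ring
    · simp only [PiLp.smul_apply, PiLp.add_apply, smul_eq_mul]
      rw [e, POL_m1 _ _ _ hs.ne', POL_v1]
      rw [← ha, ← hp', ← hm', ← hC, ← hSS, ← hcj, ← hsj, ← ht, ← hs', hx1, ← k3, ← k4]
      ring

theorem POL_union (hS : S_HS) (hV : S_VER) (K : Set Pl) (hK : B0 K) (M : ℕ) (hM : 2 ≤ M) :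
    PN (2 * M) (hp K) = ⋃ j ∈ Finset.range (2 * M), POL_TT K M j := by
  ext x
  simp only [Set.mem_iUnion, exists_prop]
  constructor
  · exact POL_cov hS K hK M hM x
  · rintro ⟨j, -, hj⟩ k -
    obtain ⟨r, r0, r1, -, h⟩ := POL_sub hS hV K hK M hM j x hj
    refine (h k).trans ?_
    have := POL_hpos hS K hK (k * st (2 * M))
    nlinarith

theorem POL_disj (hS : S_HS) (hV : S_VER) (K : Set Pl) (hK : B0 K) (M : ℕ) (hM : 2 ≤ M)
    (i j : ℕ) (hi : i < 2 * M) (hj : j < 2 * M) (hij : i ≠ j) :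
    AEDisjoint volume (POL_TT K M i) (POL_TT K M j) := by
  set a := hp K (i * st (2 * M)) with ha
  set b := hp K (j * st (2 * M)) with hb
  have a0 : 0 < a := POL_hpos hS K hK _
  have b0 : 0 < b := POL_hpos hS K hK _
  have hz : a⁻¹ • uv (i * st (2 * M)) - b⁻¹ • uv (j * st (2 * M)) ≠ 0 := by
    intro h
    have h1 : a⁻¹ • uv (i * st (2 * M)) = b⁻¹ • uv (j * st (2 * M)) := sub_eq_zero.mp h
    have h2 : a⁻¹ = b⁻¹ := by
      have := congrArg norm h1
      rwa [norm_smul, norm_smul, POL_norm, POL_norm, mul_one, mul_one, Real.norm_of_nonneg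
        (inv_pos.mpr a0).le, Real.norm_of_nonneg (inv_pos.mpr b0).le] at this
    rw [h2] at h1
    have h3 : uv (i * st (2 * M)) = uv (j * st (2 * M)) :=
      smul_right_injective Pl (inv_pos.mpr b0).ne' h1
    have c0 := congrArg (fun y : Pl => y 0) h3
    have c1 := congrArg (fun y : Pl => y 1) h3
    simp only [POL_uv0, POL_uv1] at c0 c1
    have h4 : Real.cos (i * st (2 * M) - j * st (2 * M)) = 1 := by
      rw [Real.cos_sub, c0, c1]
      have := Real.sin_sq_add_cos_sq ((j : ℝ) * st (2 * M))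
      linarith
    rw [Real.cos_eq_one_iff] at h4
    obtain ⟨n, hn⟩ := h4
    rw [← POL_Nd M hM] at hn
    have h5 : ((n : ℝ) * ((2 * M : ℕ) : ℝ) - ((i : ℝ) - j)) * st (2 * M) = 0 := by linarith
    rcases mul_eq_zero.mp h5 with h6 | h6
    · have h7 : n * ((2 * M : ℕ) : ℤ) = (i : ℤ) - j := by
        have : (n : ℝ) * ((2 * M : ℕ) : ℝ) = (i : ℝ) - j := by linarith
        exact_mod_cast this
      have hn0 : n = 0 := by
        by_contra hne
        rcases lt_or_gt_of_ne hne with h | h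
        · have : n * ((2 * M : ℕ) : ℤ) ≤ -1 * ((2 * M : ℕ) : ℤ) := by
            apply mul_le_mul_of_nonneg_right (by omega) (by positivity)
          push_cast at *
          omega
        · have : 1 * ((2 * M : ℕ) : ℤ) ≤ n * ((2 * M : ℕ) : ℤ) := by
            apply mul_le_mul_of_nonneg_right (by omega) (by positivity)
          push_cast at *
          omega
      rw [hn0] at h7
      apply hij
      omega
    · exact absurd h6 (POL_dpos M hM).1.ne'
  refine measure_mono_null ?_ (POL_null _ hz)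
  rintro x ⟨h1, h2⟩
  obtain ⟨r, r0, r1, e1, f1⟩ := POL_sub hS hV K hK M hM i x h1
  obtain ⟨s, s0, s1, e2, f2⟩ := POL_sub hS hV K hK M hM j x h2
  have g1 := f1 j
  have g2 := f2 i
  rw [e2] at g1
  rw [e1] at g2
  have k1 : s ≤ r := le_of_mul_le_mul_right g1 b0
  have k2 : r ≤ s := le_of_mul_le_mul_right g2 a0
  have k3 : r = s := le_antisymm k2 k1
  simp only [Set.mem_ofPred_eq, inner_sub_left, inner_smul_left, conj_trivial]
  rw [e1, e2, k3, ← ha, ← hb]
  field_simp
  ring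

theorem t_POL (h1 : S_HS) (h2 : S_VER) (h3 : S_TRI) : S_POL := by
  intro K M hK hM
  have hAN : AN (2 * M) (hp K) = ∑ j ∈ Finset.range (2 * M),
      hp K (j * st (2 * M)) * POL_l K M j / 2 := by
    unfold AN POL_l
    rw [Finset.mul_sum]
    apply Finset.sum_congr rfl
    intro j _
    have := (POL_sin M hM).ne'
    field_simp
  have hnn : ∀ j ∈ Finset.range (2 * M), 0 ≤ hp K (j * st (2 * M)) * POL_l K M j / 2 := by
    intro j _
    have := POL_hpos h1 K hK (j * st (2 * M))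
    have := POL_lnn h1 K hK M hM j
    positivity
  refine ⟨?_, ?_⟩
  · rw [hAN]
    exact Finset.sum_nonneg hnn
  · rw [POL_union h1 h2 K hK M hM, measure_biUnion_finset₀, hAN, ENNReal.ofReal_sum_of_nonneg hnn]
    · exact Finset.sum_congr rfl fun j _ => POL_area h1 h3 K hK M hM j
    · intro i hi j hj hij
      exact POL_disj h1 h2 K hK M hM i j (Finset.mem_range.mp (Finset.mem_coe.mp hi))
        (Finset.mem_range.mp (Finset.mem_coe.mp hj)) hij
    · intro j _
      exact (POL_compact _ _).isClosed.measurableSet.nullMeasurableSet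

end H829KB
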