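import Pool.Agent.H829R2.KB.Defs

/-! Task PRO of helper829's project KB: projection onto the polynomials of bounded degree. -/

set_option autoImplicit false

open MeasureTheory Filter Topology Module
open scoped Pointwise ENNReal
open Pool.Agent.Results.MP_6cdc09_gt.AlmostComplex

namespace H829KB

private theorem PRO_ev_cont {m : ℕ} (P : Po m) : Continuous (ev P) := by
  unfold ev
  refine (MvPolynomial.continuous_eval P).comp ?_
  refine continuous_pi fun i => ?_
  rcases i with i | i
  · simp only [Sum.elim_inl]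
    fun_prop
  · simp only [Sum.elim_inr]
    exact Complex.continuous_conj.comp (by fun_prop)

theorem t_PRO (h : S_HAA) : S_PRO := by
  classical
  intro m k f hf
  have hact : Continuous fun φ : Un (m + 2) => actU φ (e1 m) := (h (m + 2)).2.2.2 (e1 m)
  -- the restriction of polynomials to the orbit
  let J : Po m →ₗ[ℂ] C(Un (m + 2), ℂ) :=
    { toFun := fun P => ⟨fun φ => ev P (actU φ (e1 m)), (PRO_ev_cont P).comp hact⟩
      map_add' := fun P Q => by
        ext φ
        simp [ev]
      map_smul' := fun c P => by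
        ext φ
        simp [ev] }
  let F : C(Un (m + 2), ℂ) :=
    ⟨fun φ => (f (actU φ (e1 m)) : ℂ), Complex.continuous_ofReal.comp (hf.comp hact)⟩
  let L : C(Un (m + 2), ℂ) →L[ℂ] Lp ℂ 2 (haarU (m + 2)) :=
    ContinuousMap.toLp 2 (haarU (m + 2)) ℂ
  let W : Submodule ℂ (Lp ℂ 2 (haarU (m + 2))) := (UU m k).map (L.toLinearMap ∘ₗ J)
  have hW : FiniteDimensional ℂ W := by
    have : Module.Finite ℂ (UU m k) := inferInstance
    exact Module.Finite.map (UU m k) _
  obtain ⟨P, hP, hPe⟩ : ∃ P ∈ UU m k, L (J P) = W.starProjection (L F) := by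
    have h1 : W.starProjection (L F) ∈ W := W.starProjection_apply_mem _
    exact h1
  refine ⟨P, hP, fun Q hQ => ?_⟩
  have h2 : inner ℂ (L (J Q)) (L F - L (J P)) = (0 : ℂ) := by
    rw [hPe]
    exact W.sub_starProjection_mem_orthogonal (L F) _ ⟨Q, hQ, rfl⟩
  rw [← map_sub] at h2
  have h3 := ContinuousMap.inner_toLp (haarU (m + 2)) (J Q) (F - J P)
  have h4 : inner ℂ (L (J Q)) (L (F - J P)) = inner ℂ (ContinuousMap.toLp 2 (haarU (m + 2)) ℂ (J Q))
    (ContinuousMap.toLp 2 (haarU (m + 2)) ℂ (F - J P)) := rfl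
  rw [← h4, h2] at h3
  exact h3.symm

end H829KB
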