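import Pool.Agent.H829R2.KB.Defs

/-! Task QF (helper196): the quadratic formula. -/

set_option autoImplicit false

open MeasureTheory Filter Topology Module
open scoped Pointwise ENNReal
open Pool.Agent.Results.MP_6cdc09_gt.AlmostComplex

namespace H829KB

theorem QF_st : Tendsto (fun k : ℕ => st (2 ^ k)) atTop (𝓝 0) := by
  have h : (fun k : ℕ => st (2 ^ k)) = fun k : ℕ => 2 * Real.pi * (1 / 2 : ℝ) ^ k := by
    funext k
    unfold st
    push_cast
    rw [one_div, inv_pow]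
    rfl
  rw [h]
  have := (tendsto_pow_atTop_nhds_zero_of_lt_one (show (0 : ℝ) ≤ 1 / 2 by norm_num)
    (by norm_num)).const_mul (2 * Real.pi)
  simpa using this

theorem QF_pos (k : ℕ) (hk : 2 ≤ k) : 0 < st (2 ^ k) ∧ st (2 ^ k) < Real.pi := by
  have h4 : (4 : ℝ) ≤ ((2 ^ k : ℕ) : ℝ) := by
    have : 2 ^ 2 ≤ 2 ^ k := Nat.pow_le_pow_right (by norm_num) hk
    exact_mod_cast this
  have hpi := Real.pi_pos
  unfold st
  refine ⟨by positivity, ?_⟩
  rw [div_lt_iff₀ (by linarith)]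
  nlinarith

theorem QF_alg (N M G d I : ℝ) (hd : d ≠ 0) (hs : Real.sin d ≠ 0) (hN : N = 2 * Real.pi / d)
    (hI : I = N / Real.sin d * ((1 - Real.cos d) * M - G / 2)) :
    Real.pi * (M - G / d ^ 2) = Real.pi * M * (1 - Real.sinc (d / 2) ^ 2) + I * Real.sinc d := by
  have hpi := Real.pi_pos.ne'
  have e1 : 1 - Real.cos d = 2 * Real.sin (d / 2) ^ 2 := by
    have := Real.cos_two_mul (d / 2)
    rw [show 2 * (d / 2) = d by ring] at this
    rw [this, Real.cos_sq']
    ring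
  rw [Real.sinc_of_ne_zero hd, Real.sinc_of_ne_zero (by positivity : d / 2 ≠ 0), hI, hN, e1]
  field_simp
  ring

theorem t_QF (h1 : S_HS) (h2 : S_VL) (h3 : S_AG) (h4 : S_STD) : S_QF := by
  intro m E a b hE ha hb na nb hab K hK
  obtain ⟨hc, -⟩ := h4 m a b na nb hab
  have hcont := (h1 K hK).1
  have hV := h2 m E a b hE ha hb na nb hab K hK
  set c := (inner ℂ a b : ℂ).im with hcdef
  have hs1 : Tendsto (fun k : ℕ => Real.sinc (st (2 ^ k))) atTop (𝓝 1) := by
    have := (Real.continuous_sinc.tendsto 0).comp QF_st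
    rwa [Real.sinc_zero] at this
  have hs2 : Tendsto (fun k : ℕ => Real.sinc (st (2 ^ k) / 2)) atTop (𝓝 1) := by
    have h5 : Tendsto (fun k : ℕ => st (2 ^ k) / 2) atTop (𝓝 0) := by
      have := QF_st.div_const 2
      rwa [zero_div] at this
    have := (Real.continuous_sinc.tendsto 0).comp h5
    rwa [Real.sinc_zero] at this
  have hlim := (((hs2.pow 2).const_sub 1).const_mul (Real.pi * M2 (hs K))).add (hV.mul hs1)
  have e : Real.pi * M2 (hs K) * (1 - 1 ^ 2) + V E K * 1 = V E K := by ring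
  rw [e] at hlim
  refine hlim.congr' ?_
  filter_upwards [eventually_ge_atTop 2] with k hk
  obtain ⟨p1, p2⟩ := QF_pos k hk
  have hN : 3 ≤ 2 ^ k := by
    have : 2 ^ 2 ≤ 2 ^ k := Nat.pow_le_pow_right (by norm_num) hk
    omega
  have hI := h3 m c hc (hs K) hcont (2 ^ k) hN
  refine (QF_alg ((2 ^ k : ℕ) : ℝ) (M2 (hs K)) (GD c (st (2 ^ k)) (hs K)) (st (2 ^ k)) _ p1.ne'
    (Real.sin_pos_of_pos_of_lt_pi p1 p2).ne' ?_ hI).symm
  unfold st
  have h0 : ((2 ^ k : ℕ) : ℝ) ≠ 0 := by positivity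
  have hpi := Real.pi_pos.ne'
  field_simp

end H829KB
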