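import Pool.Agent.H829R2.KB.T_STD

set_option autoImplicit false

open MeasureTheory Filter Topology Module
open scoped Pointwise ENNReal
open Pool.Agent.Results.MP_6cdc09_gt.AlmostComplex

namespace H829KB

theorem ROT_11 (m : ℕ) : (inner ℂ (e1 m) (e1 m) : ℂ) = 1 := by
  rw [inner_self_eq_norm_sq_to_K, e1, EuclideanSpace.norm_single]; simp

theorem ROT_22 (m : ℕ) : (inner ℂ (e2 m) (e2 m) : ℂ) = 1 := by
  rw [inner_self_eq_norm_sq_to_K, e2, EuclideanSpace.norm_single]; simp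

theorem ROT_12 (m : ℕ) : (inner ℂ (e1 m) (e2 m) : ℂ) = 0 := by
  rw [e1, e2, EuclideanSpace.inner_single_left]
  simp

theorem ROT_21 (m : ℕ) : (inner ℂ (e2 m) (e1 m) : ℂ) = 0 := by
  rw [← inner_conj_symm, ROT_12, map_zero]

theorem ROT_1b (m : ℕ) (c : ℝ) : (inner ℂ (e1 m) (bb m c) : ℂ) = Complex.I * c := by
  rw [bb, inner_add_right, inner_smul_right, inner_smul_right, ROT_11, ROT_12]
  ring

theorem ROT_b1 (m : ℕ) (c : ℝ) : (inner ℂ (bb m c) (e1 m) : ℂ) = -(Complex.I * c) := by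
  rw [← inner_conj_symm, ROT_1b]
  simp

theorem ROT_bb (m : ℕ) (c : ℝ) (hc : c ^ 2 ≤ 1) : (inner ℂ (bb m c) (bb m c) : ℂ) = 1 := by
  have h2 : (inner ℂ (bb m c) (e2 m) : ℂ) = ((Real.sqrt (1 - c ^ 2) : ℝ) : ℂ) := by
    rw [bb, inner_add_left, inner_smul_left, inner_smul_left, ROT_12, ROT_22]
    simp
  have h1 : (inner ℂ (bb m c) (bb m c) : ℂ) =
      (Complex.I * c) * inner ℂ (bb m c) (e1 m) +
      ((Real.sqrt (1 - c ^ 2) : ℝ) : ℂ) * inner ℂ (bb m c) (e2 m) := by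
    conv_lhs => rw [show (inner ℂ (bb m c) (bb m c) : ℂ) =
      inner ℂ (bb m c) ((Complex.I * c) • e1 m + ((Real.sqrt (1 - c ^ 2) : ℝ) : ℂ) • e2 m)
      from rfl]
    rw [inner_add_right, inner_smul_right, inner_smul_right]
  have h3 : ((Real.sqrt (1 - c ^ 2) : ℝ) : ℂ) * ((Real.sqrt (1 - c ^ 2) : ℝ) : ℂ) =
      1 - (c : ℂ) ^ 2 := by
    rw [← Complex.ofReal_mul, Real.mul_self_sqrt (by linarith)]
    push_cast
    ring
  rw [h1, h2, h3, ROT_b1]
  have := Complex.I_sq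
  linear_combination (-(c : ℂ) ^ 2) * this

theorem ROT_ee (m : ℕ) (c : ℝ) (hc : c ^ 2 ≤ 1) (t t' : ℝ) :
    (inner ℂ (ee m c t) (ee m c t') : ℂ) =
      ((Real.cos (t' - t) : ℝ) : ℂ) + Complex.I * c * ((Real.sin (t' - t) : ℝ) : ℂ) := by
  have hsm : ∀ (r : ℝ) (x : Cn (m + 2)), r • x = ((r : ℝ) : ℂ) • x := fun r x => by
    rw [Complex.coe_smul]
  rw [ee, ee]
  simp only [hsm, inner_add_left, inner_add_right, inner_smul_left, inner_smul_right,
    Complex.conj_ofReal, ROT_11, ROT_1b, ROT_b1, ROT_bb m c hc, Real.cos_sub, Real.sin_sub]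
  push_cast
  ring

theorem ROT_norm (m : ℕ) (c : ℝ) (hc : c ^ 2 ≤ 1) (t : ℝ) : ‖ee m c t‖ = 1 := by
  have h1 := ROT_ee m c hc t t
  rw [sub_self, Real.cos_zero, Real.sin_zero, inner_self_eq_norm_sq_to_K] at h1
  have h2 : ((‖ee m c t‖ ^ 2 : ℝ) : ℂ) = ((1 : ℝ) : ℂ) := by
    push_cast
    rw [← Complex.coe_algebraMap] at *
    simpa using h1
  have h3 : ‖ee m c t‖ ^ 2 = 1 := by exact_mod_cast h2
  have h4 := norm_nonneg (ee m c t)
  nlinarith

theorem t_ROT : S_ROT := by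
  intro m c hc
  have key : ∀ t : ℝ, ∃ ψ : Un (m + 2), actU ψ (e1 m) = ee m c t ∧
      actU ψ (bb m c) = ee m c (t + Real.pi / 2) := by
    intro t
    have hin : (inner ℂ (ee m c t) (ee m c (t + Real.pi / 2)) : ℂ) = Complex.I * c := by
      rw [ROT_ee m c hc, add_sub_cancel_left, Real.cos_pi_div_two, Real.sin_pi_div_two]
      push_cast
      ring
    obtain ⟨-, ψ, h1, h2⟩ := t_STD m (ee m c t) (ee m c (t + Real.pi / 2))
      (ROT_norm m c hc _) (ROT_norm m c hc _) (by rw [sh_re, hin]; simp)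
    refine ⟨ψ, h1, ?_⟩
    rw [hin] at h2
    have h3 : (Complex.I * (c : ℂ)).im = c := by simp
    rw [h3] at h2
    exact h2
  choose U hU1 hU2 using key
  refine ⟨U, fun t s => ?_⟩
  have hsm : ∀ (r : ℝ) (x : Cn (m + 2)), r • x = ((r : ℝ) : ℂ) • x := fun r x => by
    rw [Complex.coe_smul]
  have h1 : actU (U t) (ee m c s) = Real.cos s • ee m c t + Real.sin s • ee m c (t + Real.pi / 2) := by
    conv_lhs => rw [ee, STD_act, map_add, hsm, hsm, map_smul, map_smul, ← STD_act, ← STD_act,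
      hU1, hU2]
    rw [hsm, hsm]
  rw [h1]
  rw [ee, ee, ee, Real.cos_add_pi_div_two, Real.sin_add_pi_div_two, Real.cos_add, Real.sin_add]
  module

end H829KB
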