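import Pool.Agent.H829R2.KB.Defs

set_option autoImplicit false

open MeasureTheory Filter Topology Module
open scoped Pointwise ENNReal
open Pool.Agent.Results.MP_6cdc09_gt.AlmostComplex

namespace H829KB

theorem t_SHA : S_SHA := by
  intro n E a b hE ha hb hna hnb hab K hK
  have hon : Orthonormal ℝ (![⟨a, ha⟩, ⟨b, hb⟩] : Fin 2 → E) := by
    rw [orthonormal_iff_ite]
    intro i j
    fin_cases i <;> fin_cases j
    · show inner ℝ a a = _
      rw [real_inner_self_eq_norm_sq, hna]; simp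
    · show inner ℝ a b = _
      rw [hab]; simp
    · show inner ℝ b a = _
      rw [real_inner_comm, hab]; simp
    · show inner ℝ b b = _
      rw [real_inner_self_eq_norm_sq, hnb]; simp
  have hsp : (⊤ : Submodule ℝ E) ≤ Submodule.span ℝ
      (Set.range (![⟨a, ha⟩, ⟨b, hb⟩] : Fin 2 → E)) := by
    rw [hon.linearIndependent.span_eq_top_of_card_eq_finrank (by simp [hE])]
  let bs : OrthonormalBasis (Fin 2) ℝ E := OrthonormalBasis.mk hon hsp
  have hbs : ∀ j, bs j = (![⟨a, ha⟩, ⟨b, hb⟩] : Fin 2 → E) j := fun j => by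
    simp [bs]
  have h0 : ((bs 0 : E) : Cn n) = a := by rw [hbs]; rfl
  have h1 : ((bs 1 : E) : Cn n) = b := by rw [hbs]; rfl
  rw [V_def]
  congr 1
  funext φ
  obtain ⟨b', hb'⟩ := exists_basisR E bs φ
  rw [shadow_def, shadow_eqR _ b' _]
  congr 2
  apply Set.image_congr
  intro x _
  ext j
  fin_cases j
  · show inner ℝ ((b' 0 : E.map (act φ)) : Cn n) x = inner ℝ (actU φ a) x
    rw [hb' 0, h0]; rfl
  · show inner ℝ ((b' 1 : E.map (act φ)) : Cn n) x = inner ℝ (actU φ b) x
    rw [hb' 1, h1]; rfl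

end H829KB
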