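import Pool.Agent.H829R2.KB.Defs

/-! Task SHB (helper196): planar shadows. -/

set_option autoImplicit false

open MeasureTheory Filter Topology Module
open scoped Pointwise ENNReal
open Pool.Agent.Results.MP_6cdc09_gt.AlmostComplex

namespace H829KB

/-- the map of the shadow as a linear map -/
noncomputable def SHB_L {n : ℕ} (a b : Cn n) : Cn n →ₗ[ℝ] Pl where
  toFun x := Tm a b x
  map_add' x y := by
    ext i
    fin_cases i <;> simp [Tm, inner_add_right]
  map_smul' r x := by
    ext i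
    fin_cases i <;> simp [Tm, inner_smul_right]

theorem SHB_L_apply {n : ℕ} (a b x : Cn n) : SHB_L a b x = Tm a b x := rfl

theorem SHB_surj {n : ℕ} {a b : Cn n} (na : ‖a‖ = 1) (nb : ‖b‖ = 1) (hab : inner ℝ a b = 0) :
    Function.Surjective (SHB_L a b) := by
  intro y
  refine ⟨y 0 • a + y 1 • b, ?_⟩
  have haa : (inner ℝ a a : ℝ) = 1 := by rw [real_inner_self_eq_norm_sq, na, one_pow]
  have hbb : (inner ℝ b b : ℝ) = 1 := by rw [real_inner_self_eq_norm_sq, nb, one_pow]
  have hba : (inner ℝ b a : ℝ) = 0 := by rw [real_inner_comm]; exact hab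
  rw [SHB_L_apply]
  ext i
  fin_cases i
  · simp [Tm, inner_add_right, inner_smul_right, haa, hab, -inner_self_eq_norm_sq_to_K]
  · simp [Tm, inner_add_right, inner_smul_right, hba, hbb, -inner_self_eq_norm_sq_to_K]

theorem SHB_norm {n : ℕ} {a b : Cn n} (na : ‖a‖ = 1) (nb : ‖b‖ = 1) (hab : inner ℝ a b = 0)
    (x : Cn n) : ‖Tm a b x‖ ≤ ‖x‖ := by
  have haa : (inner ℝ a a : ℝ) = 1 := by rw [real_inner_self_eq_norm_sq, na, one_pow]
  have hbb : (inner ℝ b b : ℝ) = 1 := by rw [real_inner_self_eq_norm_sq, nb, one_pow]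
  have hba : (inner ℝ b a : ℝ) = 0 := by rw [real_inner_comm]; exact hab
  have h1 : ‖Tm a b x‖ ^ 2 = (inner ℝ a x) ^ 2 + (inner ℝ b x) ^ 2 := by
    rw [EuclideanSpace.norm_sq_eq, Fin.sum_univ_two]
    simp [Tm, Real.norm_eq_abs, sq_abs]
  have h2 : 0 ≤ ‖x - (inner ℝ a x : ℝ) • a - (inner ℝ b x : ℝ) • b‖ ^ 2 := by positivity
  rw [← real_inner_self_eq_norm_sq] at h2
  have hxa : (inner ℝ x a : ℝ) = inner ℝ a x := real_inner_comm _ _
  have hxb : (inner ℝ x b : ℝ) = inner ℝ b x := real_inner_comm _ _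
  simp only [inner_sub_left, inner_sub_right, real_inner_smul_left, real_inner_smul_right, haa,
    hbb, hba, hab, hxa, hxb, mul_one, mul_zero] at h2
  rw [real_inner_self_eq_norm_sq] at h2
  have h3 : ‖Tm a b x‖ ^ 2 ≤ ‖x‖ ^ 2 := by
    rw [h1]
    nlinarith
  exact (pow_le_pow_iff_left₀ (norm_nonneg _) (norm_nonneg _) (by norm_num)).1 h3

theorem t_SHB : S_SHB := by
  intro n a b na nb hab K hK
  have hcont : Continuous (SHB_L a b) := LinearMap.continuous_of_finiteDimensional _
  have himg : Tm a b '' K = SHB_L a b '' K := rfl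
  refine ⟨⟨?_, ?_, ?_⟩, ?_, ?_⟩
  · rw [himg]
    exact hK.1.image hcont
  · rw [himg]
    exact hK.2.1.linear_image (SHB_L a b)
  · rw [himg]
    have hopen : IsOpenMap (SHB_L a b) :=
      LinearMap.isOpenMap_of_finiteDimensional _ (SHB_surj na nb hab)
    have h1 : SHB_L a b '' interior K ⊆ interior (SHB_L a b '' K) :=
      interior_maximal (Set.image_mono interior_subset) (hopen _ isOpen_interior)
    exact h1 ⟨0, hK.2.2, map_zero _⟩
  · intro θ
    unfold hp hs
    rw [Set.image_image]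
    congr 1
    refine Set.image_congr fun x _ => ?_
    simp [Tm, uv, PiLp.inner_apply, Fin.sum_univ_two, inner_add_left, inner_smul_left]
    ring
  · rintro R hR y ⟨x, hx, rfl⟩
    exact (SHB_norm na nb hab x).trans (hR x hx)

end H829KB
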