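import Pool.Agent.H829R2.KB.Defs

set_option autoImplicit false

open MeasureTheory Filter Topology Module
open scoped Pointwise ENNReal
open Pool.Agent.Results.MP_6cdc09_gt.AlmostComplex

namespace H829KB

theorem STD_act {n : ℕ} (φ : Un n) (x : Cn n) : actU φ x = isoU φ x := rfl

theorem STD_mul {n : ℕ} (φ ψ : Un n) (x : Cn n) : actU (φ * ψ) x = actU φ (actU ψ x) := by
  unfold actU
  simp only [Submonoid.coe_mul, Matrix.mulVec_mulVec]

theorem STD_one {n : ℕ} (x : Cn n) : actU (1 : Un n) x = x := by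
  unfold actU
  simp

theorem STD_inv {n : ℕ} (φ : Un n) (x y : Cn n) (h : actU φ x = y) : actU φ⁻¹ y = x := by
  rw [← h, ← STD_mul, inv_mul_cancel, STD_one]

theorem t_STD : S_STD := by
  intro m a b ha hb hab
  set c : ℝ := (inner ℂ a b : ℂ).im with hc
  have hre : (inner ℂ a b : ℂ).re = 0 := by rw [← sh_re]; exact hab
  have hin : (inner ℂ a b : ℂ) = Complex.I * c := by
    apply Complex.ext
    · simp [hre]
    · simp [hc]
  have hin' : (inner ℂ b a : ℂ) = -(Complex.I * c) := by
    rw [← inner_conj_symm, hin]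
    simp
  have haa : (inner ℂ a a : ℂ) = 1 := by
    rw [inner_self_eq_norm_sq_to_K, ha]; simp
  have hbb : (inner ℂ b b : ℂ) = 1 := by
    rw [inner_self_eq_norm_sq_to_K, hb]; simp
  have hc1 : c ^ 2 ≤ 1 := by
    have h1 := norm_inner_le_norm (𝕜 := ℂ) a b
    rw [ha, hb, one_mul] at h1
    have h2 : |c| ≤ ‖(inner ℂ a b : ℂ)‖ := Complex.abs_im_le_norm _
    have h3 : |c| ≤ 1 := h2.trans h1
    have := sq_le_sq' (by linarith [neg_abs_le c]) ((le_abs_self c).trans h3)
    rw [one_pow] at this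
    have h4 := abs_nonneg c
    nlinarith [sq_abs c]
  refine ⟨hc1, ?_⟩
  -- the difference
  set d : Cn (m + 2) := b - (Complex.I * c) • a with hd
  have had : (inner ℂ a d : ℂ) = 0 := by
    rw [hd, inner_sub_right, inner_smul_right, hin, haa, mul_one, sub_self]
  have hdd : (inner ℂ d d : ℂ) = ((1 - c ^ 2 : ℝ) : ℂ) := by
    have h1 : (inner ℂ d d : ℂ) = inner ℂ b d - inner ℂ ((Complex.I * c) • a) d := by
      rw [← inner_sub_left]
    rw [h1, inner_smul_left, had, mul_zero, sub_zero, hd, inner_sub_right, inner_smul_right,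
      hin', hbb]
    push_cast
    have := Complex.I_sq
    linear_combination (-(c : ℂ) ^ 2) * this * (-1)
  have hnd : ‖d‖ ^ 2 = 1 - c ^ 2 := by
    have h1 := inner_self_eq_norm_sq_to_K (𝕜 := ℂ) d
    rw [hdd] at h1
    have h2 : ((1 - c ^ 2 : ℝ) : ℂ) = ((‖d‖ ^ 2 : ℝ) : ℂ) := by rw [h1]; push_cast; rfl
    exact_mod_cast h2.symm
  have hbd : b = (Complex.I * c) • a + d := by rw [hd]; abel
  rcases hc1.lt_or_eq with hlt | heq
  · have hs : 0 < Real.sqrt (1 - c ^ 2) := Real.sqrt_pos.2 (by linarith)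
    set s : ℝ := Real.sqrt (1 - c ^ 2) with hsdef
    have hs2 : s ^ 2 = 1 - c ^ 2 := Real.sq_sqrt (by linarith)
    have hnds : ‖d‖ = s := by
      rw [hsdef, ← hnd, Real.sqrt_sq (norm_nonneg _)]
    set w : Cn (m + 2) := ((s : ℂ)⁻¹) • d with hw
    have hsC : (s : ℂ) ≠ 0 := by exact_mod_cast hs.ne'
    have hdw : d = (s : ℂ) • w := by rw [hw, smul_smul, mul_inv_cancel₀ hsC, one_smul]
    have hnw : ‖w‖ = 1 := by
      rw [hw, norm_smul, hnds, norm_inv, Complex.norm_real, Real.norm_of_nonneg hs.le,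
        inv_mul_cancel₀ hs.ne']
    have haw : (inner ℂ a w : ℂ) = 0 := by rw [hw, inner_smul_right, had, mul_zero]
    have hwa : (inner ℂ w a : ℂ) = 0 := by rw [← inner_conj_symm, haw, map_zero]
    have hon : Orthonormal ℂ ![a, w] := by
      constructor
      · intro i
        fin_cases i
        · exact ha
        · exact hnw
      · intro i j hij
        fin_cases i <;> fin_cases j
        · exact absurd rfl hij
        · exact haw
        · exact hwa
        · exact absurd rfl hij
    obtain ⟨φ, hφ⟩ := exists_unitary (n := m + 2) (m := 2) (by omega) ![a, w] hon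
    have h0 : actU φ a = e1 m := hφ 0
    have h1 : actU φ w = e2 m := hφ 1
    have h0' := STD_inv φ a (e1 m) h0
    have h1' := STD_inv φ w (e2 m) h1
    refine ⟨φ⁻¹, h0', ?_⟩
    rw [bb, STD_act, map_add, map_smul, map_smul, ← STD_act, ← STD_act, h0', h1']
    conv_rhs => rw [hbd, hdw]
  · have hd0 : d = 0 := by
      have : ‖d‖ ^ 2 = 0 := by rw [hnd, heq, sub_self]
      exact norm_eq_zero.1 (pow_eq_zero_iff (two_ne_zero) |>.1 this)
    have hon : Orthonormal ℂ ![a] := by
      constructor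
      · intro i
        fin_cases i
        exact ha
      · intro i j hij
        exact absurd (Subsingleton.elim i j) hij
    obtain ⟨φ, hφ⟩ := exists_unitary (n := m + 2) (m := 1) (by omega) ![a] hon
    have h0 : actU φ a = e1 m := hφ 0
    have h0' := STD_inv φ a (e1 m) h0
    refine ⟨φ⁻¹, h0', ?_⟩
    have hs0 : Real.sqrt (1 - c ^ 2) = 0 := by rw [heq, sub_self, Real.sqrt_zero]
    rw [bb, hs0, Complex.ofReal_zero, zero_smul, add_zero, STD_act, map_smul, ← STD_act, h0']
    conv_rhs => rw [hbd, hd0, add_zero]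

end H829KB
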