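import Pool.Agent.H829R2.KB.Defs

set_option autoImplicit false

open MeasureTheory Filter Topology Module
open scoped Pointwise ENNReal
open Pool.Agent.Results.MP_6cdc09_gt.AlmostComplex

namespace H829KB

private theorem SYM_act_mul {n : ℕ} (φ ψ : Un n) (x : Cn n) :
    actU (φ * ψ) x = actU φ (actU ψ x) := by
  unfold actU
  simp [Matrix.mulVec_mulVec]

private theorem SYM_ee_zero (m : ℕ) (c : ℝ) : ee m c 0 = e1 m := by
  simp [ee]

private theorem SYM_int {n : ℕ} (h1 : S_HAA) (F : Un n → ℂ) (hF : Continuous F) :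
    Integrable F (haarU n) := by
  haveI : IsProbabilityMeasure (haarU n) := (h1 n).1
  exact hF.integrable_of_hasCompactSupport (HasCompactSupport.of_compactSpace _)

private theorem SYM_four {n : ℕ} (A B C D : Un n → ℂ) (hA : Integrable A (haarU n))
    (hB : Integrable B (haarU n)) (hC : Integrable C (haarU n)) (hD : Integrable D (haarU n)) :
    ∫ φ, (A φ - B φ - C φ + D φ) ∂(haarU n) =
      ∫ φ, A φ ∂(haarU n) - ∫ φ, B φ ∂(haarU n) - ∫ φ, C φ ∂(haarU n) + ∫ φ, D φ ∂(haarU n) := by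
  have h1 : ∫ φ, (A φ - B φ - C φ + D φ) ∂(haarU n) =
      ∫ φ, (A φ - B φ - C φ) ∂(haarU n) + ∫ φ, D φ ∂(haarU n) :=
    integral_add ((hA.sub hB).sub hC) hD
  have h2 : ∫ φ, (A φ - B φ - C φ) ∂(haarU n) =
      ∫ φ, (A φ - B φ) ∂(haarU n) - ∫ φ, C φ ∂(haarU n) :=
    integral_sub (hA.sub hB) hC
  have h3 : ∫ φ, (A φ - B φ) ∂(haarU n) =
      ∫ φ, A φ ∂(haarU n) - ∫ φ, B φ ∂(haarU n) :=
    integral_sub hA hB
  rw [h1, h2, h3]

theorem t_SYM (h1 : S_HAA) (h2 : S_ROT) : S_SYM := by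
  intro m c hc t F G hF hG
  obtain ⟨U, hU⟩ := h2 m c hc
  have hcont : ∀ x : Cn (m + 2), Continuous fun φ : Un (m + 2) => actU φ x := (h1 (m + 2)).2.2.2
  have hinv := (h1 (m + 2)).2.1
  have hcF : ∀ x : Cn (m + 2), Continuous fun φ : Un (m + 2) => F (actU φ x) :=
    fun x => hF.comp (hcont x)
  have hcG : ∀ x : Cn (m + 2), Continuous fun φ : Un (m + 2) => G (actU φ x) :=
    fun x => hG.comp (hcont x)
  have hi : ∀ x y : Cn (m + 2), Integrable (fun φ : Un (m + 2) => F (actU φ x) * G (actU φ y))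
      (haarU (m + 2)) := fun x y => SYM_int h1 _ ((hcF x).mul (hcG y))
  have k1 : ∫ φ : Un (m + 2), F (actU φ (ee m c t)) * G (actU φ (ee m c t)) ∂(haarU _) =
      ∫ φ : Un (m + 2), F (actU φ (e1 m)) * G (actU φ (e1 m)) ∂(haarU _) := by
    have := hinv (U t) (fun φ => F (actU φ (e1 m)) * G (actU φ (e1 m)))
    rw [← this]
    congr 1
    funext φ
    have e : actU (U t) (e1 m) = ee m c t := by
      rw [← SYM_ee_zero m c, hU, zero_add]
    simp only [SYM_act_mul, e]
  have k2 : ∫ φ : Un (m + 2), F (actU φ (ee m c t)) * G (actU φ (e1 m)) ∂(haarU _) =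
      ∫ φ : Un (m + 2), F (actU φ (e1 m)) * G (actU φ (ee m c (-t))) ∂(haarU _) := by
    have := hinv (U (-t)) (fun φ => F (actU φ (ee m c t)) * G (actU φ (e1 m)))
    rw [← this]
    congr 1
    funext φ
    have e : actU (U (-t)) (e1 m) = ee m c (-t) := by
      rw [← SYM_ee_zero m c, hU, zero_add]
    have e' : actU (U (-t)) (ee m c t) = e1 m := by
      rw [hU, ← SYM_ee_zero m c]
      congr 1
      ring
    simp only [SYM_act_mul, e, e']
  unfold GB
  have eL : (fun φ : Un (m + 2) => (F (actU φ (ee m c t)) - F (actU φ (e1 m))) *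
      (G (actU φ (ee m c t)) - G (actU φ (e1 m)))) = fun φ =>
      ((F (actU φ (ee m c t)) * G (actU φ (ee m c t)) - F (actU φ (ee m c t)) * G (actU φ (e1 m)))
        - F (actU φ (e1 m)) * G (actU φ (ee m c t))) + F (actU φ (e1 m)) * G (actU φ (e1 m)) := by
    funext φ
    ring
  have eR : (fun φ : Un (m + 2) => F (actU φ (e1 m)) * (2 * G (actU φ (e1 m)) -
      G (actU φ (ee m c t)) - G (actU φ (ee m c (-t))))) = fun φ =>
      ((F (actU φ (e1 m)) * G (actU φ (e1 m)) - F (actU φ (e1 m)) * G (actU φ (ee m c (-t))))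
        - F (actU φ (e1 m)) * G (actU φ (ee m c t))) + F (actU φ (e1 m)) * G (actU φ (e1 m)) := by
    funext φ
    ring
  rw [eL, eR]
  rw [SYM_four _ _ _ _ (hi _ _) (hi _ _) (hi _ _) (hi _ _),
    SYM_four _ _ _ _ (hi _ _) (hi _ _) (hi _ _) (hi _ _), k1, k2]

end H829KB
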