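import Pool.Agent.H829R2.KB.Defs

/-! Task TAY: Taylor expansion along great circles (helper118). -/

set_option autoImplicit false

open MeasureTheory Filter Topology Module MvPolynomial
open Pool.Agent.Results.MP_6cdc09_gt.AlmostComplex

namespace H829KB

namespace TAY

section gen

variable {σ : Type} [Fintype σ]

/-- first jet -/
noncomputable def J1 (P : MvPolynomial σ ℂ) (a b : σ → ℂ) : ℂ :=
  ∑ v, eval a (pderiv v P) * b v

/-- second derivative -/
noncomputable def J2 (P : MvPolynomial σ ℂ) (a b : σ → ℂ) : ℂ :=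
  ∑ v, ∑ w, eval a (pderiv v (pderiv w P)) * (b v * b w)

theorem J1_C (c : ℂ) (a b : σ → ℂ) : J1 (C c) a b = 0 := by
  unfold J1; simp

theorem J2_C (c : ℂ) (a b : σ → ℂ) : J2 (C c) a b = 0 := by
  unfold J2; simp

theorem J1_add (P Q : MvPolynomial σ ℂ) (a b : σ → ℂ) : J1 (P + Q) a b = J1 P a b + J1 Q a b := by
  unfold J1
  rw [← Finset.sum_add_distrib]
  apply Finset.sum_congr rfl
  intro v _
  rw [map_add, map_add, add_mul]

theorem J2_add (P Q : MvPolynomial σ ℂ) (a b : σ → ℂ) : J2 (P + Q) a b = J2 P a b + J2 Q a b := by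
  unfold J2
  rw [← Finset.sum_add_distrib]
  apply Finset.sum_congr rfl
  intro v _
  rw [← Finset.sum_add_distrib]
  apply Finset.sum_congr rfl
  intro w _
  rw [map_add, map_add, map_add, add_mul]

open Classical in
theorem sum_single (u : σ) (f : σ → ℂ) (b : σ → ℂ) :
    ∑ v, f v * ((Pi.single v (1 : ℂ) : σ → ℂ) u) * b v = f u * b u := by
  rw [Finset.sum_eq_single u]
  · rw [Pi.single_eq_same, mul_one]
  · intro v _ hv
    rw [Pi.single_eq_of_ne (Ne.symm hv), mul_zero, zero_mul]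
  · intro h
    exact absurd (Finset.mem_univ u) h

open Classical in
theorem eval_single (v u : σ) (a : σ → ℂ) :
    eval a ((Pi.single v (1 : MvPolynomial σ ℂ) : σ → MvPolynomial σ ℂ) u) =
      (Pi.single v (1 : ℂ) : σ → ℂ) u := by
  by_cases h : u = v
  · subst h
    rw [Pi.single_eq_same, Pi.single_eq_same, map_one]
  · rw [Pi.single_eq_of_ne h, Pi.single_eq_of_ne h, map_zero]

open Classical in
theorem pd_single (v w u : σ) :
    pderiv v ((Pi.single w (1 : MvPolynomial σ ℂ) : σ → MvPolynomial σ ℂ) u) = 0 := by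
  by_cases h : u = w
  · subst h
    rw [Pi.single_eq_same, pderiv_one]
  · rw [Pi.single_eq_of_ne h, map_zero]

theorem J1_mul (P : MvPolynomial σ ℂ) (u : σ) (a b : σ → ℂ) :
    J1 (P * X u) a b = J1 P a b * a u + eval a P * b u := by
  classical
  unfold J1
  have h : ∀ v, eval a (pderiv v (P * X u)) * b v =
      eval a (pderiv v P) * b v * a u + eval a P * ((Pi.single v (1 : ℂ) : σ → ℂ) u) * b v := by
    intro v
    rw [pderiv_mul, pderiv_X, map_add, map_mul, map_mul, eval_X, eval_single]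
    ring
  rw [Finset.sum_congr rfl fun v _ => h v, Finset.sum_add_distrib, ← Finset.sum_mul,
    sum_single u (fun _ => eval a P) b]

theorem J2_mul (P : MvPolynomial σ ℂ) (u : σ) (a b : σ → ℂ) :
    J2 (P * X u) a b = J2 P a b * a u + 2 * J1 P a b * b u := by
  classical
  unfold J2
  have h : ∀ v w, eval a (pderiv v (pderiv w (P * X u))) * (b v * b w) =
      eval a (pderiv v (pderiv w P)) * (b v * b w) * a u +
      (eval a (pderiv w P) * b w) * ((Pi.single v (1 : ℂ) : σ → ℂ) u) * b v +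
      (eval a (pderiv v P) * b v) * ((Pi.single w (1 : ℂ) : σ → ℂ) u) * b w := by
    intro v w
    rw [pderiv_mul, pderiv_X, map_add, pderiv_mul, pderiv_mul, pderiv_X, pd_single]
    simp only [map_add, map_mul, eval_X, eval_single, map_zero]
    ring
  have h' : ∀ v, ∑ w, eval a (pderiv v (pderiv w (P * X u))) * (b v * b w) =
      (∑ w, eval a (pderiv v (pderiv w P)) * (b v * b w)) * a u +
      J1 P a b * ((Pi.single v (1 : ℂ) : σ → ℂ) u) * b v +
      (eval a (pderiv v P) * b v) * b u := by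
    intro v
    rw [Finset.sum_congr rfl fun w _ => h v w, Finset.sum_add_distrib, Finset.sum_add_distrib,
      ← Finset.sum_mul, ← Finset.sum_mul, ← Finset.sum_mul,
      sum_single u (fun _ => eval a (pderiv v P) * b v) b]
    rfl
  rw [Finset.sum_congr rfl fun v _ => h' v, Finset.sum_add_distrib, Finset.sum_add_distrib,
    ← Finset.sum_mul, ← Finset.sum_mul, sum_single u (fun _ => J1 P a b) b]
  unfold J1
  ring

theorem pd_comm (v w : σ) (P : MvPolynomial σ ℂ) :
    pderiv v (pderiv w P) = pderiv w (pderiv v P) := by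
  classical
  induction P using MvPolynomial.induction_on with
  | C a => simp
  | add P Q hP hQ => rw [map_add, map_add, map_add, map_add, hP, hQ]
  | mul_X P u hP =>
    rw [pderiv_mul, pderiv_mul, map_add, map_add, pderiv_mul, pderiv_mul, pderiv_mul, pderiv_mul,
      pderiv_X, pderiv_X, pd_single, pd_single, hP]
    ring

/-- the claim of the induction -/
def Claim (P : MvPolynomial σ ℂ) : Prop := ∃ K : ℝ, 0 ≤ K ∧ ∀ a b : σ → ℂ, (∀ v, ‖a v‖ ≤ 1) →
  (∀ v, ‖b v‖ ≤ 1) → ‖eval a P‖ ≤ K ∧ ‖J1 P a b‖ ≤ K ∧ ‖(J2 P a b - J1 P a a) / 2‖ ≤ K ∧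
  ∀ t : ℝ, |t| ≤ 1 → ‖eval (fun v => (Real.cos t : ℂ) * a v + (Real.sin t : ℂ) * b v) P -
    (eval a P + t * J1 P a b + t ^ 2 * ((J2 P a b - J1 P a a) / 2))‖ ≤ K * |t| ^ 3

theorem trig (t : ℝ) (ht : |t| ≤ 1) (a b : ℂ) (ha : ‖a‖ ≤ 1) (hb : ‖b‖ ≤ 1) :
    ‖((Real.cos t : ℂ) * a + (Real.sin t : ℂ) * b) - (a + t * b + t ^ 2 * (-a / 2))‖ ≤
      |t| ^ 3 ∧ ‖(Real.cos t : ℂ) * a + (Real.sin t : ℂ) * b‖ ≤ 2 := by
  have h1 := Real.cos_bound ht
  have h2 := Real.sin_bound ht
  have t0 : 0 ≤ |t| := abs_nonneg t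
  have p4 : |t| ^ 4 ≤ |t| ^ 3 := pow_le_pow_of_le_one t0 ht (by norm_num)
  have p5 : |t| ^ 5 ≤ |t| ^ 3 := pow_le_pow_of_le_one t0 ht (by norm_num)
  have p3 : 0 ≤ |t| ^ 3 := pow_nonneg t0 3
  have h3 : |Real.sin t - t| ≤ |t| ^ 3 * (1 / 6 + 1 / 100) := by
    have e : Real.sin t - t = (Real.sin t - (t - t ^ 3 / 6)) + (-(t ^ 3) / 6) := by ring
    rw [e]
    refine (abs_add_le _ _).trans ?_
    have e2 : |(-(t ^ 3) / 6)| = |t| ^ 3 / 6 := by
      rw [abs_div, abs_neg, abs_pow]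
      norm_num
    rw [e2]
    linarith
  have h4 : |Real.cos t - 1 + t ^ 2 / 2| ≤ |t| ^ 3 * (5 / 96) := by
    have e : Real.cos t - 1 + t ^ 2 / 2 = Real.cos t - (1 - t ^ 2 / 2) := by ring
    rw [e]
    linarith
  constructor
  · have e : ((Real.cos t : ℂ) * a + (Real.sin t : ℂ) * b) - (a + t * b + t ^ 2 * (-a / 2)) =
        ((Real.cos t - 1 + t ^ 2 / 2 : ℝ) : ℂ) * a + ((Real.sin t - t : ℝ) : ℂ) * b := by
      push_cast
      ring
    rw [e]
    refine (norm_add_le _ _).trans ?_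
    rw [norm_mul, norm_mul, Complex.norm_real, Complex.norm_real, Real.norm_eq_abs,
      Real.norm_eq_abs]
    have m1 : |Real.cos t - 1 + t ^ 2 / 2| * ‖a‖ ≤ |t| ^ 3 * (5 / 96) * 1 :=
      mul_le_mul h4 ha (norm_nonneg _) (by positivity)
    have m2 : |Real.sin t - t| * ‖b‖ ≤ |t| ^ 3 * (1 / 6 + 1 / 100) * 1 :=
      mul_le_mul h3 hb (norm_nonneg _) (by positivity)
    nlinarith
  · refine (norm_add_le _ _).trans ?_
    rw [norm_mul, norm_mul, Complex.norm_real, Complex.norm_real, Real.norm_eq_abs,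
      Real.norm_eq_abs]
    have m1 : |Real.cos t| * ‖a‖ ≤ 1 * 1 :=
      mul_le_mul (Real.abs_cos_le_one t) ha (norm_nonneg _) zero_le_one
    have m2 : |Real.sin t| * ‖b‖ ≤ 1 * 1 :=
      mul_le_mul (Real.abs_sin_le_one t) hb (norm_nonneg _) zero_le_one
    linarith

theorem claim (P : MvPolynomial σ ℂ) : Claim P := by
  induction P using MvPolynomial.induction_on with
  | C c =>
    refine ⟨‖c‖, norm_nonneg _, fun a b _ _ => ?_⟩
    rw [J1_C, J1_C, J2_C, eval_C]
    refine ⟨le_rfl, by simp, by simp, fun t _ => ?_⟩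
    rw [eval_C]
    have : c - (c + (t : ℂ) * 0 + (t : ℂ) ^ 2 * ((0 - 0) / 2)) = 0 := by ring
    rw [this, norm_zero]
    positivity
  | add P Q hP hQ =>
    obtain ⟨K, hK, h1⟩ := hP
    obtain ⟨L, hL, h2⟩ := hQ
    refine ⟨K + L, by positivity, fun a b ha hb => ?_⟩
    obtain ⟨a1, a2, a3, a4⟩ := h1 a b ha hb
    obtain ⟨b1, b2, b3, b4⟩ := h2 a b ha hb
    rw [J1_add, J1_add, J2_add, map_add]
    refine ⟨(norm_add_le _ _).trans (add_le_add a1 b1), (norm_add_le _ _).trans (add_le_add a2 b2),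
      ?_, fun t ht => ?_⟩
    · have e : (J2 P a b + J2 Q a b - (J1 P a a + J1 Q a a)) / 2 =
        (J2 P a b - J1 P a a) / 2 + (J2 Q a b - J1 Q a a) / 2 := by ring
      rw [e]
      exact (norm_add_le _ _).trans (add_le_add a3 b3)
    · rw [map_add]
      have e : ∀ x y p q p' q' p'' q'' r r' r'' r''' s : ℂ, (x + y) - ((p + q) + s * (p' + q') +
          s ^ 2 * ((r + r' - (r'' + r''')) / 2)) =
          (x - (p + s * p' + s ^ 2 * ((r - r'') / 2))) +
          (y - (q + s * q' + s ^ 2 * ((r' - r''') / 2))) := by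
        intros
        ring
      rw [e _ _ _ _ _ _ 0 0]
      refine (norm_add_le _ _).trans ?_
      rw [add_mul]
      exact add_le_add (a4 t ht) (b4 t ht)
  | mul_X P u hP =>
    obtain ⟨K, hK, h1⟩ := hP
    refine ⟨8 * K, by positivity, fun a b ha hb => ?_⟩
    obtain ⟨a1, a2, a3, a4⟩ := h1 a b ha hb
    rw [J1_mul, J1_mul, J2_mul, map_mul, eval_X]
    have hau := ha u
    have hbu := hb u
    have bd : ∀ (z w : ℂ) (s : ℝ), ‖z‖ ≤ s → ‖w‖ ≤ 1 → ‖z * w‖ ≤ s := by
      intro z w s hz hw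
      rw [norm_mul]
      calc ‖z‖ * ‖w‖ ≤ s * 1 := mul_le_mul hz hw (norm_nonneg _) ((norm_nonneg _).trans hz)
        _ = s := mul_one s
    have c0 : ‖eval a P * a u‖ ≤ K := bd _ _ _ a1 hau
    have c1 : ‖J1 P a b * a u‖ ≤ K := bd _ _ _ a2 hau
    have c2 : ‖eval a P * b u‖ ≤ K := bd _ _ _ a1 hbu
    have c3 : ‖J1 P a b * b u‖ ≤ K := bd _ _ _ a2 hbu
    have c4 : ‖(J2 P a b - J1 P a a) / 2 * a u‖ ≤ K := bd _ _ _ a3 hau
    have c5 : ‖eval a P * (-a u / 2)‖ ≤ K := bd _ _ _ a1 (by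
      rw [norm_div, norm_neg]
      have : ‖(2 : ℂ)‖ = 2 := by simp
      rw [this]
      linarith)
    have e2 : (J2 P a b * a u + 2 * J1 P a b * b u - (J1 P a a * a u + eval a P * a u)) / 2 =
        (J2 P a b - J1 P a a) / 2 * a u + J1 P a b * b u + eval a P * (-a u / 2) := by ring
    rw [e2]
    refine ⟨by linarith, ?_, ?_, fun t ht => ?_⟩
    · exact (norm_add_le _ _).trans (by linarith)
    · exact (norm_add_le _ _).trans ((add_le_add (norm_add_le _ _) le_rfl).trans (by linarith))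
    · rw [map_mul, eval_X]
      obtain ⟨t1, t2⟩ := trig t ht (a u) (b u) hau hbu
      have t4 := a4 t ht
      have t0 : 0 ≤ |t| := abs_nonneg t
      have hts : ‖(t : ℂ)‖ = |t| := by rw [Complex.norm_real, Real.norm_eq_abs]
      set Y := (Real.cos t : ℂ) * a u + (Real.sin t : ℂ) * b u with hY
      set Z := eval (fun v => (Real.cos t : ℂ) * a v + (Real.sin t : ℂ) * b v) P with hZ
      set p0 := eval a P with hp0
      set p1 := J1 P a b with hp1
      set p2 := (J2 P a b - J1 P a a) / 2 with hp2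
      have e : Z * Y - (p0 * a u + t * (p1 * a u + p0 * b u) +
          t ^ 2 * (p2 * a u + p1 * b u + p0 * (-a u / 2))) =
          (Z - (p0 + t * p1 + t ^ 2 * p2)) * Y +
          (p0 + t * p1 + t ^ 2 * p2) * (Y - (a u + t * b u + t ^ 2 * (-a u / 2))) +
          t ^ 3 * (p1 * (-a u / 2) + p2 * b u + t * (p2 * (-a u / 2))) := by
        ring
      rw [e]
      have hh : ‖-a u / 2‖ ≤ 1 := by
        rw [norm_div, norm_neg]
        have : ‖(2 : ℂ)‖ = 2 := by simp
        rw [this]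
        linarith
      have d1 : ‖(Z - (p0 + t * p1 + t ^ 2 * p2)) * Y‖ ≤ K * |t| ^ 3 * 2 := by
        rw [norm_mul]
        exact mul_le_mul t4 t2 (norm_nonneg _) (by positivity)
      have hp : ‖p0 + t * p1 + t ^ 2 * p2‖ ≤ 3 * K := by
        refine (norm_add_le _ _).trans ((add_le_add (norm_add_le _ _) le_rfl).trans ?_)
        rw [norm_mul, norm_mul, norm_pow, hts]
        have q1 : |t| * ‖p1‖ ≤ 1 * K := mul_le_mul ht a2 (norm_nonneg _) zero_le_one
        have q2 : |t| ^ 2 * ‖p2‖ ≤ 1 * K :=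
          mul_le_mul (pow_le_one₀ t0 ht) a3 (norm_nonneg _) zero_le_one
        linarith
      have d2 : ‖(p0 + t * p1 + t ^ 2 * p2) * (Y - (a u + t * b u + t ^ 2 * (-a u / 2)))‖ ≤
          3 * K * |t| ^ 3 := by
        rw [norm_mul]
        exact mul_le_mul hp t1 (norm_nonneg _) (by positivity)
      have d3 : ‖(t : ℂ) ^ 3 * (p1 * (-a u / 2) + p2 * b u + t * (p2 * (-a u / 2)))‖ ≤
          |t| ^ 3 * (3 * K) := by
        rw [norm_mul, norm_pow, hts]
        refine mul_le_mul_of_nonneg_left ?_ (by positivity)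
        refine (norm_add_le _ _).trans ((add_le_add (norm_add_le _ _) le_rfl).trans ?_)
        have q1 := bd p1 (-a u / 2) K a2 hh
        have q2 := bd p2 (b u) K a3 hbu
        have q3 := bd p2 (-a u / 2) K a3 hh
        have q4 : ‖(t : ℂ) * (p2 * (-a u / 2))‖ ≤ 1 * K := by
          rw [norm_mul, hts]
          exact mul_le_mul ht q3 (norm_nonneg _) zero_le_one
        linarith
      refine (norm_add_le _ _).trans ((add_le_add (norm_add_le _ _) le_rfl).trans ?_)
      nlinarith [d1, d2, d3]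

end gen

/-- the values of the variables -/
noncomputable def pa {m : ℕ} (x : Cn (m + 2)) : Fin (m + 2) ⊕ Fin (m + 2) → ℂ :=
  Sum.elim (fun i => x i) (fun i => starRingEnd ℂ (x i))

theorem pa_le {m : ℕ} (x : Cn (m + 2)) (hx : ‖x‖ ≤ 1) (v : Fin (m + 2) ⊕ Fin (m + 2)) :
    ‖pa x v‖ ≤ 1 := by
  rcases v with i | i
  · exact (PiLp.norm_apply_le x i).trans hx
  · show ‖starRingEnd ℂ (x i)‖ ≤ 1
    rw [RCLike.norm_conj]
    exact (PiLp.norm_apply_le x i).trans hx

theorem pa_lin {m : ℕ} (x β : Cn (m + 2)) (c s : ℝ) :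
    pa (c • x + s • β) = fun v => (c : ℂ) * pa x v + (s : ℂ) * pa β v := by
  funext v
  rcases v with i | i
  · show (c • x + s • β) i = _
    rw [PiLp.add_apply, PiLp.smul_apply, PiLp.smul_apply, Complex.real_smul, Complex.real_smul]
    rfl
  · show starRingEnd ℂ ((c • x + s • β) i) = _
    rw [PiLp.add_apply, PiLp.smul_apply, PiLp.smul_apply, Complex.real_smul, Complex.real_smul,
      map_add, map_mul, map_mul, Complex.conj_ofReal, Complex.conj_ofReal]
    rfl

theorem D1_eq {m : ℕ} (P : Po m) (x β : Cn (m + 2)) : D1 P x β = J1 P (pa x) (pa β) := by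
  unfold D1 J1
  rw [Fintype.sum_sum_type, ← Finset.sum_add_distrib]
  rfl

theorem D2_eq {m : ℕ} (P : Po m) (x β : Cn (m + 2)) : D2 P x β = J2 P (pa x) (pa β) := by
  unfold D2 J2
  rw [Fintype.sum_sum_type]
  simp only [Fintype.sum_sum_type]
  have h : ∑ i : Fin (m + 2), ∑ j : Fin (m + 2),
      eval (pa x) (pderiv (Sum.inr i) (pderiv (Sum.inl j) P)) *
        (pa β (Sum.inr i) * pa β (Sum.inl j)) =
      ∑ i : Fin (m + 2), ∑ j : Fin (m + 2),
      eval (pa x) (pderiv (Sum.inl i) (pderiv (Sum.inr j) P)) *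
        (pa β (Sum.inl i) * pa β (Sum.inr j)) := by
    rw [Finset.sum_comm]
    apply Finset.sum_congr rfl
    intro i _
    apply Finset.sum_congr rfl
    intro j _
    rw [pd_comm (Sum.inr j) (Sum.inl i) P]
    ring
  rw [Finset.sum_add_distrib, Finset.sum_add_distrib, h]
  simp only [Finset.sum_add_distrib]
  have e : ∑ i : Fin (m + 2), ∑ j : Fin (m + 2),
      2 * (ev (dl i (dr j P)) x * (β i * starRingEnd ℂ (β j))) =
      2 * ∑ i : Fin (m + 2), ∑ j : Fin (m + 2),
      eval (pa x) (pderiv (Sum.inl i) (pderiv (Sum.inr j) P)) *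
        (pa β (Sum.inl i) * pa β (Sum.inr j)) := by
    rw [Finset.mul_sum]
    apply Finset.sum_congr rfl
    intro i _
    rw [Finset.mul_sum]
    rfl
  rw [e]
  have e1 : ∑ i : Fin (m + 2), ∑ j : Fin (m + 2), ev (dl i (dl j P)) x * (β i * β j) =
      ∑ i : Fin (m + 2), ∑ j : Fin (m + 2),
      eval (pa x) (pderiv (Sum.inl i) (pderiv (Sum.inl j) P)) *
        (pa β (Sum.inl i) * pa β (Sum.inl j)) := rfl
  have e2 : ∑ i : Fin (m + 2), ∑ j : Fin (m + 2),
      ev (dr i (dr j P)) x * (starRingEnd ℂ (β i) * starRingEnd ℂ (β j)) =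
      ∑ i : Fin (m + 2), ∑ j : Fin (m + 2),
      eval (pa x) (pderiv (Sum.inr i) (pderiv (Sum.inr j) P)) *
        (pa β (Sum.inr i) * pa β (Sum.inr j)) := rfl
  rw [e1, e2]
  ring

end TAY

open TAY in
theorem t_TAY : S_TAY := by
  intro m P
  obtain ⟨K, hK, h⟩ := claim P
  refine ⟨K, fun x β hx hβ t ht => ?_⟩
  obtain ⟨-, -, -, h4⟩ := h (pa x) (pa β) (pa_le x hx) (pa_le β hβ)
  have h5 := h4 t ht
  rw [← pa_lin, ← D1_eq, ← D1_eq, ← D2_eq] at h5
  have e : ev P (Real.cos t • x + Real.sin t • β) - (ev P x + t * D1 P x β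
      + t ^ 2 / 2 * (D2 P x β - D1 P x x)) =
      eval (pa (Real.cos t • x + Real.sin t • β)) P - (eval (pa x) P + t * D1 P x β
      + t ^ 2 * ((D2 P x β - D1 P x x) / 2)) := by
    have e1 : ev P (Real.cos t • x + Real.sin t • β) =
      eval (pa (Real.cos t • x + Real.sin t • β)) P := rfl
    have e2 : ev P x = eval (pa x) P := rfl
    rw [e1, e2]
    ring
  rw [e]
  exact h5

end H829KB
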