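import Pool.Agent.H829R2.KB.Defs

/-!
# (TRA) translation invariance of the functional `V`
-/

set_option autoImplicit false

open MeasureTheory Filter Topology Module
open scoped Pointwise ENNReal
open Pool.Agent.Results.MP_6cdc09_gt.AlmostComplex

namespace H829KB

theorem t_TRA : S_TRA := by
  intro n E K v
  unfold V
  congr 1
  funext φ
  unfold shadow vol
  congr 1
  have h1 : proj ((fun x => x + v) '' K) (imU φ E) =
      (fun y => y + (imU φ E).orthogonalProjectionOnto v) '' proj K (imU φ E) := by
    unfold proj
    rw [Set.image_image, Set.image_image]
    refine Set.image_congr fun x _ => ?_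
    rw [map_add]
  rw [h1, Set.image_add_right, measure_preimage_add_right]

end H829KB
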