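import Pool.Agent.H829R2.KB.Defs

set_option autoImplicit false

open MeasureTheory Filter Topology Module
open scoped Pointwise ENNReal
open Pool.Agent.Results.MP_6cdc09_gt.AlmostComplex

namespace H829KB

theorem ver_inner (a b : ℝ) : inner ℝ (uv a) (uv b) = Real.cos (a - b) := by
  rw [uv, uv, PiLp.inner_apply, Fin.sum_univ_two, Real.cos_sub]
  simp
  ring

theorem ver_ext (x y : Pl) (h0 : x 0 = y 0) (h1 : x 1 = y 1) : x = y := by
  ext i; fin_cases i
  · exact h0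
  · exact h1

theorem ver_v0 (f : ℝ → ℝ) (δ θ : ℝ) : inner ℝ (uv θ) (vx f δ θ) = f θ := by
  rw [vx, inner_add_right, inner_smul_right, inner_smul_right, ver_inner, ver_inner]
  have : θ - (θ + Real.pi / 2) = -(Real.pi / 2) := by ring
  rw [this, Real.cos_neg, Real.cos_pi_div_two]
  simp

theorem ver_v1 (f : ℝ → ℝ) (δ θ : ℝ) (hδ : Real.sin δ ≠ 0) :
    inner ℝ (uv (θ + δ)) (vx f δ θ) = f (θ + δ) := by
  rw [vx, inner_add_right, inner_smul_right, inner_smul_right, ver_inner, ver_inner]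
  have h1 : θ + δ - (θ + Real.pi / 2) = -(Real.pi / 2 - δ) := by ring
  have h2 : θ + δ - θ = δ := by ring
  rw [h1, Real.cos_neg, Real.cos_pi_div_two_sub, h2]
  field_simp
  ring

theorem ver_idA (θ δ φ : ℝ) : Real.sin φ • uv (θ + δ) =
    Real.sin (φ - δ) • uv θ + Real.sin δ • uv (θ + φ) := by
  apply ver_ext
  · simp [uv, Real.sin_sub, Real.cos_add]
    ring
  · simp [uv, Real.sin_sub, Real.sin_add]
    ring

theorem ver_idB (θ δ φ : ℝ) : Real.sin φ • uv θ =
    Real.sin (φ - δ) • uv (θ + δ) + Real.sin δ • uv (θ + δ - φ) := by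
  have h := ver_idA (θ + δ - φ) (φ - δ) φ
  have e1 : θ + δ - φ + (φ - δ) = θ := by ring
  have e2 : φ - (φ - δ) = δ := by ring
  have e3 : θ + δ - φ + φ = θ + δ := by ring
  rw [e1, e2, e3] at h
  rw [h, add_comm]

theorem ver_A (K : Set Pl) (h : S_HS) (hK : B0 K) (θ δ φ : ℝ) (hδ : 0 < Real.sin δ)
    (hφ : 0 ≤ Real.sin φ) (hφδ : 0 ≤ Real.sin (φ - δ)) :
    inner ℝ (uv (θ + φ)) (vx (hp K) δ θ) ≤ hs K (uv (θ + φ)) := by
  obtain ⟨_, _, _, hhom, hsub, _, _⟩ := h K hK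
  have h1 := hsub (Real.sin (φ - δ) • uv θ) (Real.sin δ • uv (θ + φ))
  rw [← ver_idA, hhom _ _ hφ, hhom _ _ hφδ, hhom _ _ hδ.le] at h1
  have h2 := congrArg (fun x => inner ℝ x (vx (hp K) δ θ)) (ver_idA θ δ φ)
  simp only [inner_add_left, real_inner_smul_left] at h2
  rw [ver_v1 _ _ _ hδ.ne', ver_v0] at h2
  unfold hp at h2 ⊢
  nlinarith

theorem ver_B (K : Set Pl) (h : S_HS) (hK : B0 K) (θ δ φ : ℝ) (hδ : 0 < Real.sin δ)
    (hφ : 0 ≤ Real.sin φ) (hφδ : 0 ≤ Real.sin (φ - δ)) :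
    inner ℝ (uv (θ + δ - φ)) (vx (hp K) δ θ) ≤ hs K (uv (θ + δ - φ)) := by
  obtain ⟨_, _, _, hhom, hsub, _, _⟩ := h K hK
  have h1 := hsub (Real.sin (φ - δ) • uv (θ + δ)) (Real.sin δ • uv (θ + δ - φ))
  rw [← ver_idB, hhom _ _ hφ, hhom _ _ hφδ, hhom _ _ hδ.le] at h1
  have h2 := congrArg (fun x => inner ℝ x (vx (hp K) δ θ)) (ver_idB θ δ φ)
  simp only [inner_add_left, real_inner_smul_left] at h2
  rw [ver_v1 _ _ _ hδ.ne', ver_v0] at h2
  unfold hp at h2 ⊢
  nlinarith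

theorem ver_per (x : ℝ) (q : ℤ) : uv (x + q * (2 * Real.pi)) = uv x := by
  rw [uv, uv, Real.cos_add_int_mul_two_pi, Real.sin_add_int_mul_two_pi]

theorem t_VER (h : S_HS) : S_VER := by
  intro K M hK hM j k
  set d := st (2 * M) with hd
  have hM0 : (0 : ℝ) < M := by exact_mod_cast (by omega : 0 < M)
  have hM2 : (2 : ℝ) ≤ M := by exact_mod_cast hM
  have hdM : M * d = Real.pi := by
    rw [hd, st]; push_cast; field_simp
  have hd0 : 0 < d := by
    rw [hd, st]; push_cast; positivity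
  have hdpi : d ≤ Real.pi / 2 := by nlinarith
  have hsd : 0 < Real.sin d := Real.sin_pos_of_pos_of_lt_pi hd0 (by linarith [Real.pi_pos])
  change _ ≤ hs K (uv (k * d))
  set r : ℤ := ((k : ℤ) - j) % ((2 * M : ℕ) : ℤ) with hr
  set q : ℤ := ((k : ℤ) - j) / ((2 * M : ℕ) : ℤ) with hq
  have hN0 : (0 : ℤ) < ((2 * M : ℕ) : ℤ) := by exact_mod_cast (by omega : 0 < 2 * M)
  have hr0 : 0 ≤ r := Int.emod_nonneg _ hN0.ne'
  have hrN : r < ((2 * M : ℕ) : ℤ) := Int.emod_lt_of_pos _ hN0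
  have hqr : ((2 * M : ℕ) : ℤ) * q + r = (k : ℤ) - j := Int.mul_ediv_add_emod _ _
  have hkd : (k : ℝ) * d = (j : ℝ) * d + (r : ℝ) * d + (q : ℝ) * (2 * Real.pi) := by
    have h1 : (((2 * M : ℕ) : ℤ) : ℝ) * (q : ℝ) + (r : ℝ) = ((k : ℤ) : ℝ) - ((j : ℤ) : ℝ) := by
      exact_mod_cast hqr
    push_cast at h1
    have h2 : (k : ℝ) = j + r + q * (2 * M) := by linarith
    rw [h2, ← hdM]; ring
  rw [hkd, ver_per]
  by_cases h0 : r = 0
  · rw [h0]
    simp only [Int.cast_zero, zero_mul, add_zero]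
    exact (ver_v0 (hp K) d (j * d)).le
  · by_cases h1 : r ≤ (M : ℤ)
    · have hr1 : (1 : ℝ) ≤ r := by exact_mod_cast (by omega : 1 ≤ r)
      have hrM : (r : ℝ) ≤ M := by exact_mod_cast h1
      have hle : (r : ℝ) * d ≤ Real.pi := by rw [← hdM]; exact mul_le_mul_of_nonneg_right hrM hd0.le
      apply ver_A K h hK _ _ _ hsd
      · exact Real.sin_nonneg_of_nonneg_of_le_pi (by positivity) hle
      · apply Real.sin_nonneg_of_nonneg_of_le_pi
        · nlinarith
        · linarith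
    · have hr1 : (M : ℝ) + 1 ≤ r := by exact_mod_cast (by omega : (M : ℤ) + 1 ≤ r)
      have hr2 : (r : ℝ) ≤ 2 * M := by
        have : r ≤ 2 * (M : ℤ) := by push_cast at hrN; omega
        exact_mod_cast this
      have hr3 : (r : ℝ) + 1 ≤ 2 * M := by
        have : r + 1 ≤ 2 * (M : ℤ) := by push_cast at hrN; omega
        exact_mod_cast this
      have e : uv ((j : ℝ) * d + (r : ℝ) * d) =
          uv ((j : ℝ) * d + d - (2 * M - r + 1) * d) := by
        have := ver_per ((j : ℝ) * d + d - (2 * M - r + 1) * d) 1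
        rw [← this]
        congr 1
        rw [← hdM]; push_cast; ring
      rw [e]
      apply ver_B K h hK _ _ _ hsd
      · apply Real.sin_nonneg_of_nonneg_of_le_pi
        · apply mul_nonneg _ hd0.le; linarith
        · rw [← hdM]; exact mul_le_mul_of_nonneg_right (by linarith) hd0.le
      · have e2 : (2 * (M : ℝ) - r + 1) * d - d = (2 * (M : ℝ) - r) * d := by ring
        rw [e2]
        apply Real.sin_nonneg_of_nonneg_of_le_pi
        · apply mul_nonneg _ hd0.le; linarith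
        · rw [← hdM]; exact mul_le_mul_of_nonneg_right (by linarith) hd0.le

end H829KB
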