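import Pool.Agent.H829R2.KB.T_STD

set_option autoImplicit false

open MeasureTheory Filter Topology Module
open scoped Pointwise ENNReal
open Pool.Agent.Results.MP_6cdc09_gt.AlmostComplex

namespace H829KB

theorem VL_norm {n : ℕ} (φ : Un n) (x : Cn n) : ‖actU φ x‖ = ‖x‖ := (isoR φ).norm_map x

theorem VL_inner {n : ℕ} (φ : Un n) (x y : Cn n) :
    (inner ℝ (actU φ x) (actU φ y) : ℝ) = inner ℝ x y := (isoR φ).inner_map_map x y

theorem VL_lin {n : ℕ} (φ : Un n) (r s : ℝ) (x y : Cn n) :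
    actU φ (r • x + s • y) = r • actU φ x + s • actU φ y := by
  have hsm : ∀ (r : ℝ) (x : Cn n), r • x = ((r : ℝ) : ℂ) • x := fun r x => by
    rw [Complex.coe_smul]
  rw [STD_act, map_add, hsm, hsm, map_smul, map_smul, ← STD_act, ← STD_act, hsm, hsm]

theorem VL_cont {X : Type} [TopologicalSpace X] (N : ℕ) (g : ℝ → X → ℝ)
    (hg : ∀ θ, Continuous (g θ)) : Continuous (fun φ => AN N (fun θ => g θ φ)) := by
  unfold AN
  refine continuous_const.mul (continuous_finset_sum _ fun j _ => ?_)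
  exact (hg _).mul (((hg _).add (hg _)).sub (continuous_const.mul (hg _)))

theorem t_VL (h1 : S_HS) (h2 : S_PLI) (h3 : S_SHA) (h4 : S_SHB) (h5 : S_HAA) (h6 : S_STD) :
    S_VL := by
  intro m E a b hE haE hbE ha hb hab K hK
  obtain ⟨hc1, ψ, hψa, hψb⟩ := h6 m a b ha hb hab
  set c : ℝ := (inner ℂ a b : ℂ).im with hc
  obtain ⟨hprob, hright, hleft, hcont⟩ := h5 (m + 2)
  have hhs : Continuous (hs K) := (h1 K hK).1
  have hB : ∀ φ : Un (m + 2), B0 (Tm (actU φ a) (actU φ b) '' K) ∧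
      (∀ θ, hp (Tm (actU φ a) (actU φ b) '' K) θ =
        hs K (Real.cos θ • actU φ a + Real.sin θ • actU φ b)) ∧
      ∀ R : ℝ, (∀ x ∈ K, ‖x‖ ≤ R) → ∀ y ∈ Tm (actU φ a) (actU φ b) '' K, ‖y‖ ≤ R := by
    intro φ
    exact h4 (m + 2) (actU φ a) (actU φ b) (by rw [VL_norm, ha]) (by rw [VL_norm, hb])
      (by rw [VL_inner, hab]) K hK
  have hhp : ∀ φ : Un (m + 2), hp (Tm (actU φ a) (actU φ b) '' K) =
      fun θ => hs K (Real.cos θ • actU φ a + Real.sin θ • actU φ b) := fun φ =>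
    funext (hB φ).2.1
  obtain ⟨R, hR⟩ := hK.1.isBounded.exists_norm_le
  rw [h3 (m + 2) E a b hE haE hbE ha hb hab K hK]
  have hlim : Tendsto (fun k : ℕ => ∫ φ : Un (m + 2),
      AN (2 ^ k) (fun θ => hs K (Real.cos θ • actU φ a + Real.sin θ • actU φ b)) ∂(haarU _))
      atTop (𝓝 (∫ φ : Un (m + 2), (volume (Tm (actU φ a) (actU φ b) '' K)).toReal ∂(haarU _))) := by
    refine tendsto_integral_filter_of_dominated_convergence (fun _ => 4 * R ^ 2) ?_ ?_ ?_ ?_
    · refine Eventually.of_forall fun k => ?_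
      refine (VL_cont (2 ^ k) (fun θ (φ : Un (m + 2)) =>
        hs K (Real.cos θ • actU φ a + Real.sin θ • actU φ b)) fun θ => ?_).aestronglyMeasurable
      have ha' := (hcont a).const_smul (Real.cos θ)
      have hb' := (hcont b).const_smul (Real.sin θ)
      have hab' : Continuous (fun φ : Un (m + 2) =>
        Real.cos θ • actU φ a + Real.sin θ • actU φ b) := ha'.add hb'
      exact hhs.comp hab'
    · filter_upwards [eventually_ge_atTop 2] with k hk
      refine Eventually.of_forall fun φ => ?_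
      rw [Real.norm_eq_abs, ← hhp φ]
      exact (h2 _ (hB φ).1).2 R ((hB φ).2.2 R hR) k hk
    · exact integrable_const _
    · refine Eventually.of_forall fun φ => ?_
      have := (h2 _ (hB φ).1).1
      rw [hhp φ] at this
      exact this
  refine hlim.congr fun k => ?_
  -- right invariance
  have hcomp : ∀ φ : Un (m + 2), (fun θ => hs K (Real.cos θ • actU φ a + Real.sin θ • actU φ b)) =
      fun θ => hs K (actU (φ * ψ) (ee m c θ)) := by
    intro φ
    funext θ
    rw [STD_mul]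
    congr 1
    rw [ee, VL_lin, VL_lin, hψa, hψb]
  have hr := hright ψ (fun φ : Un (m + 2) =>
    ((AN (2 ^ k) (fun θ => hs K (actU φ (ee m c θ))) : ℝ) : ℂ))
  rw [integral_complex_ofReal, integral_complex_ofReal] at hr
  have hr' : ∫ φ : Un (m + 2), AN (2 ^ k) (fun θ => hs K (actU (φ * ψ) (ee m c θ))) ∂(haarU _) =
      ∫ φ : Un (m + 2), AN (2 ^ k) (fun θ => hs K (actU φ (ee m c θ))) ∂(haarU _) := by
    exact_mod_cast hr
  rw [← hr']
  refine integral_congr_ae (Eventually.of_forall fun φ => ?_)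
  simp only
  rw [hcomp φ]

end H829KB
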